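import Mathlib
import Pool.Agent.Lib.HT26.Defs

open MeasureTheory Filter Topology
open scoped ENNReal NNReal

namespace Pool.Agent.Lib.HF26

open Pool.Agent.Lib.HT26

/-- the weighted inequality holds for all f killed by the n functionals φ j -/
def AdmF (p : ℝ) (n : ℕ) (φ : Fin n → ℝ → ℂ) (U : ℝ → ℝ) : Prop :=
  ∃ C : ℝ≥0, ∀ f g, IsHT f g → (∀ j, ∫ y, f y * φ j y = 0) → wint p U g ≤ C * wint p U f

end Pool.Agent.Lib.HF26
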