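import Mathlib
import Pool.Agent.Lib.HT26.Blue
import Pool.Agent.Lib.HF26.Defs

open MeasureTheory Filter Topology Polynomial
open scoped ENNReal NNReal

namespace Pool.Agent.Lib.HF26

open Pool.Agent.Lib.HT26

abbrev YY (μ : Measure ℝ) : Type := ℝ →ₘ[μ] ℂ

noncomputable def NY (μ : Measure ℝ) (q : ℝ≥0∞) (y : YY μ) : ℝ≥0∞ := eLpNorm (y : ℝ → ℂ) q μ

/-- multiplication by 1/(x-i) on classes of functions -/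
noncomputable def mY (μ : Measure ℝ) : YY μ →ₗ[ℂ] YY μ where
  toFun y := AEEqFun.mk (fun x => y x * mz Complex.I x)
    (y.aestronglyMeasurable.mul (mz_meas Complex.I).aestronglyMeasurable)
  map_add' y z := by
    rw [AEEqFun.mk_add_mk, AEEqFun.mk_eq_mk]
    filter_upwards [AEEqFun.coeFn_add y z] with x hx
    rw [hx, Pi.add_apply, Pi.add_apply, add_mul]
  map_smul' c y := by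
    rw [RingHom.id_apply, AEEqFun.smul_mk, AEEqFun.mk_eq_mk]
    filter_upwards [AEEqFun.coeFn_smul c y] with x hx
    rw [hx, Pi.smul_apply, Pi.smul_apply, smul_eq_mul, smul_eq_mul, mul_assoc]

theorem mY_coe (μ : Measure ℝ) (y : YY μ) :
    ∀ᵐ x ∂μ, (mY μ y : ℝ → ℂ) x = y x * mz Complex.I x :=
  AEEqFun.coeFn_mk _ _

structure SN {X : Type} [AddCommGroup X] [Module ℂ X] (N : X → ℝ≥0∞) : Prop where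
  fin : ∀ x, N x ≠ ⊤
  add : ∀ x y, N (x + y) ≤ N x + N y
  smul : ∀ (c : ℂ) x, N (c • x) = ‖c‖ₑ * N x

def BOp (μ : Measure ℝ) (q : ℝ≥0∞) {X : Type} [AddCommGroup X] [Module ℂ X] (N : X → ℝ≥0∞)
    (S : X →ₗ[ℂ] YY μ) : Prop :=
  ∃ C : ℝ≥0, ∀ x, NY μ q (S x) ≤ C * N x

def BF {X : Type} [AddCommGroup X] [Module ℂ X] (N : X → ℝ≥0∞) (a : X →ₗ[ℂ] ℂ) : Prop :=
  ∃ K : ℝ≥0, ∀ x, ‖a x‖ₑ ≤ K * N x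

def AdmNF (μ : Measure ℝ) (q : ℝ≥0∞) (n : ℕ) (φ : Fin n → ℝ → ℂ) : Prop :=
  ∃ C : ℝ≥0, ∀ f t, IsHT f t → eLpNorm f q μ ≠ ⊤ → (∀ j, ∫ y, f y * φ j y = 0) →
    eLpNorm t q μ ≤ C * eLpNorm f q μ

def RKF (μ : Measure ℝ) (q : ℝ≥0∞) (n : ℕ) (φ g : Fin n → ℝ → ℂ) : Prop :=
  ∃ C : ℝ≥0, ∀ f t, IsHT f t → eLpNorm f q μ ≠ ⊤ →
    eLpNorm (fun x => t x - ∑ j, (∫ y, f y * φ j y) * g j x) q μ ≤ C * eLpNorm f q μ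

def PRE (μ : Measure ℝ) (q : ℝ≥0∞) (ρ : ℝ → ℂ) : Prop :=
  ∃ C : ℝ≥0, ∀ f t0 t, IsHT f t0 → eLpNorm f q μ ≠ ⊤ → IsHT (fun y => f y * ρ y) t →
    eLpNorm (fun x => t x * (ρ x)⁻¹) q μ ≤ C * eLpNorm f q μ

def St_R0 : Prop := ∀ (μ : Measure ℝ) (q : ℝ≥0∞), 1 ≤ q →
  ∀ (X : Type) [AddCommGroup X] [Module ℂ X] (N : X → ℝ≥0∞), SN N →
  ∀ (n : ℕ) (a : Fin n → X →ₗ[ℂ] ℂ) (S : X →ₗ[ℂ] YY μ),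
  (∃ C : ℝ≥0, ∀ x, (∀ j, a j x = 0) → NY μ q (S x) ≤ C * N x) →
  ∃ g : Fin n → YY μ, BOp μ q N (S - ∑ j, (a j).smulRight (g j))

def St_FRA : Prop := ∀ (μ : Measure ℝ) (q : ℝ≥0∞), 1 ≤ q →
  ∀ (X : Type) [AddCommGroup X] [Module ℂ X] (N : X → ℝ≥0∞), SN N →
  ∀ G : X →ₗ[ℂ] YY μ, FiniteDimensional ℂ (LinearMap.range G) → BOp μ q N G →
  ∀ l : YY μ →ₗ[ℂ] ℂ, BF N (l ∘ₗ G)

def St_FRC : Prop := ∀ (μ : Measure ℝ) (q : ℝ≥0∞), 1 ≤ q →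
  ∀ (X : Type) [AddCommGroup X] [Module ℂ X] (N : X → ℝ≥0∞), SN N →
  ∀ G : X →ₗ[ℂ] YY μ, FiniteDimensional ℂ (LinearMap.range G) → (∀ x, NY μ q (G x) ≠ ⊤) →
  (∀ l : YY μ →ₗ[ℂ] ℂ, BF N (l ∘ₗ G)) → BOp μ q N G

def St_SYL1 : Prop := ∀ (A B : Type) [AddCommGroup A] [Module ℂ A] [AddCommGroup B] [Module ℂ B]
  (MA : A →ₗ[ℂ] A) (MB : B →ₗ[ℂ] B), (∀ (c : ℂ) y, MB y = c • y → y = 0) →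
  ∀ (ι : Type) [Fintype ι] (a : ι → A) (b : ι → B),
  (∀ l : B →ₗ[ℂ] ℂ, MA (∑ j, l (b j) • a j) = ∑ j, l (MB (b j)) • a j) →
  ∀ l : B →ₗ[ℂ] ℂ, ∑ j, l (b j) • a j = 0

def St_SYL2 : Prop := ∀ (A B : Type) [AddCommGroup A] [Module ℂ A] [AddCommGroup B] [Module ℂ B]
  (MA : A →ₗ[ℂ] A) (MB : B →ₗ[ℂ] B), (∀ (c : ℂ) y, MB y = c • y → y = 0) →
  ∀ (n : ℕ) (a : Fin n → A) (b : Fin n → B) (a0 : A) (b0 : B), b0 ≠ 0 →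
  (∀ l : B →ₗ[ℂ] ℂ, MA (∑ j, l (b j) • a j) - ∑ j, l (MB (b j)) • a j = l b0 • a0) →
  ∃ V : Submodule ℂ A, FiniteDimensional ℂ V ∧ Module.finrank ℂ V ≤ n ∧ a0 ∈ V ∧
    (∀ v ∈ V, MA v ∈ V) ∧ ∀ v, v ∈ V ↔ ∃ l : B →ₗ[ℂ] ℂ, v = ∑ j, l (b j) • a j

def St_MINP : Prop := ∀ (A : Type) [AddCommGroup A] [Module ℂ A] (MA : A →ₗ[ℂ] A)
  (V : Submodule ℂ A) (n : ℕ), FiniteDimensional ℂ V → Module.finrank ℂ V ≤ n →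
  (∀ v ∈ V, MA v ∈ V) → ∀ a0 ∈ V, ∃ (r : ℕ) (Q : ℂ[X]), r ≤ n ∧ Q ≠ 0 ∧ Q.natDegree ≤ r ∧
    aeval MA Q a0 = 0 ∧ LinearIndependent ℂ (fun i : Fin r => (MA ^ (i : ℕ)) a0)

/-- a nonzero polynomial killing V all of whose roots are eigenvalues on V -/
def St_MINV : Prop := ∀ (A : Type) [AddCommGroup A] [Module ℂ A] (MA : A →ₗ[ℂ] A)
  (V : Submodule ℂ A), FiniteDimensional ℂ V → (∀ v ∈ V, MA v ∈ V) →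
  ∃ Q : ℂ[X], Q ≠ 0 ∧ (∀ v ∈ V, aeval MA Q v = 0) ∧
    ∀ c : ℂ, Q.eval c = 0 → ∃ v ∈ V, v ≠ 0 ∧ MA v = c • v

def St_EIG : Prop := ∀ μ : Measure ℝ, μ ≪ volume →
  (∀ (Q : ℂ[X]) (y : YY μ), ∀ᵐ x ∂μ,
    (aeval (mY μ) Q y : ℝ → ℂ) x = y x * Q.eval (mz Complex.I x)) ∧
  (∀ Q : ℂ[X], Q ≠ 0 → ∀ᵐ x : ℝ, Q.eval (mz Complex.I x) ≠ 0) ∧
  (∀ Q : ℂ[X], Q ≠ 0 → Function.Bijective (aeval (mY μ) Q)) ∧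
  (∀ (c : ℂ) (y : YY μ), mY μ y = c • y → y = 0) ∧
  (∀ (q : ℝ≥0∞) (y : YY μ), NY μ q (mY μ y) ≤ NY μ q y)

def St_S3 : Prop := ∀ (μ : Measure ℝ) (q : ℝ≥0∞), 1 ≤ q → μ ≪ volume →
  ∀ (X : Type) [AddCommGroup X] [Module ℂ X] (N : X → ℝ≥0∞), SN N →
  ∀ (MX : X →ₗ[ℂ] X), (∀ x, N (MX x) ≤ N x) →
  ∀ (T : X →ₗ[ℂ] YY μ) (a1 : X →ₗ[ℂ] ℂ) (y1 : YY μ), y1 ≠ 0 →
  (∀ x, T (MX x) - mY μ (T x) = a1 x • y1) →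
  ∀ (n : ℕ) (a : Fin n → X →ₗ[ℂ] ℂ) (g : Fin n → YY μ),
  BOp μ q N (T - ∑ j, (a j).smulRight (g j)) → (∀ x, NY μ q (∑ j, a j x • g j) ≠ ⊤) →
  ∃ (r : ℕ) (Q : ℂ[X]), r ≤ n ∧ Q ≠ 0 ∧ Q.natDegree ≤ r ∧ ∃ S : X →ₗ[ℂ] YY μ, BOp μ q N S ∧
    ∀ x, aeval (mY μ) Q (S x) = T (aeval MX Q x)

def St_RAT : Prop := ∀ (Q R : ℂ[X]) (K : ℝ), Q ≠ 0 → R.natDegree ≤ Q.natDegree →
  (∀ c : ℂ, Q.eval c = 0 → c = 0 ∨ ∃ y : ℝ, c = mz Complex.I y) →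
  (∀ᵐ y : ℝ, ‖R.eval (mz Complex.I y)‖ ≤ K * ‖Q.eval (mz Complex.I y)‖) →
  ∃ c : ℂ, R = C c * Q

/-- off the closure of the circle, m - c can be cancelled modulo L^q -/
def St_INV : Prop := ∀ (μ : Measure ℝ) (q : ℝ≥0∞) (c : ℂ), c ≠ 0 → (∀ y : ℝ, c ≠ mz Complex.I y) →
  ∀ v : YY μ, NY μ q (mY μ v - c • v) ≠ ⊤ → NY μ q v ≠ ⊤

def St_S2 : Prop := ∀ (μ : Measure ℝ) (q : ℝ≥0∞), Ctx μ q → ∀ (n : ℕ) (φ g : Fin n → ℝ → ℂ),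
  (∀ j, BM (φ j)) → (∀ j, AEStronglyMeasurable (g j) μ) → RKF μ q n φ g →
  (∀ f t, IsHT f t → eLpNorm f q μ ≠ ⊤ →
    eLpNorm (fun x => ∑ j, (∫ y, f y * φ j y) * g j x
      - ((Real.pi : ℂ)⁻¹ * ∫ y, f y) * mz Complex.I x) q μ ≠ ⊤) ∧
  (eLpNorm (mz Complex.I) q μ = ⊤ → ∃ c : Fin n → ℂ, ∀ᵐ y : ℝ, ∑ j, c j * φ j y = 1)

def St_XS : Prop := ∀ (μ : Measure ℝ) (q : ℝ≥0∞), Ctx μ q →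
  ∃ (X : Submodule ℂ (ℝ → ℂ)) (T : X →ₗ[ℂ] YY μ) (MX : X →ₗ[ℂ] X),
  (∀ f, f ∈ X ↔ (∃ t, IsHT f t) ∧ eLpNorm f q μ ≠ ⊤) ∧
  (∀ (f : X) t, IsHT f t → ∀ᵐ x ∂μ, (T f : ℝ → ℂ) x = t x) ∧
  (∀ (Q : ℂ[X]) (f : X) (y : ℝ), (aeval MX Q f : ℝ → ℂ) y = (f : ℝ → ℂ) y * Q.eval (mz Complex.I y)) ∧
  (∀ (f : X) (y : ℝ), (MX f : ℝ → ℂ) y = (f : ℝ → ℂ) y * mz Complex.I y) ∧
  (∀ f : X, eLpNorm (MX f : ℝ → ℂ) q μ ≤ eLpNorm (f : ℝ → ℂ) q μ) ∧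
  SN (fun f : X => eLpNorm (f : ℝ → ℂ) q μ) ∧
  (∀ χ, BM χ → ∃ a : X →ₗ[ℂ] ℂ, ∀ f : X, a f = ∫ y, (f : ℝ → ℂ) y * χ y)

def St_G0 : Prop := ∀ (μ : Measure ℝ) (q : ℝ≥0∞), Ctx μ q → ∀ (n : ℕ) (φ : Fin n → ℝ → ℂ),
  (∀ j, BM (φ j)) → AdmNF μ q n φ →
  ∃ g : Fin n → ℝ → ℂ, (∀ j, AEStronglyMeasurable (g j) μ) ∧ RKF μ q n φ g

def St_G3A : Prop := ∀ (μ : Measure ℝ) (q : ℝ≥0∞), Ctx μ q → μ ≠ 0 →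
  ∀ (n : ℕ) (φ g : Fin n → ℝ → ℂ), (∀ j, BM (φ j)) → (∀ j, AEStronglyMeasurable (g j) μ) →
  RKF μ q n φ g → eLpNorm (mz Complex.I) q μ ≠ ⊤ →
  ∃ (r : ℕ) (Q : ℂ[X]), r ≤ n ∧ Q ≠ 0 ∧ Q.natDegree ≤ r ∧
    PRE μ q (fun y => Q.eval (mz Complex.I y))

def St_G3B : Prop := ∀ (μ : Measure ℝ) (q : ℝ≥0∞), Ctx μ q →
  ∀ (n : ℕ) (φ g : Fin n → ℝ → ℂ), (∀ j, BM (φ j)) → (∀ j, AEStronglyMeasurable (g j) μ) →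
  RKF μ q n φ g → eLpNorm (mz Complex.I) q μ = ⊤ →
  1 ≤ n ∧ ∃ (r : ℕ) (Q : ℂ[X]), r ≤ n ∧ Q ≠ 0 ∧ Q.natDegree ≤ r ∧
    PRE μ q (fun y : ℝ => Q.eval (mz Complex.I y) * ((y : ℂ) - Complex.I))

def St_POLY : Prop :=
  (∀ (Q : ℂ[X]) (r : ℕ), Q ≠ 0 → Q.natDegree ≤ r → ∃ P : ℂ[X], P ≠ 0 ∧ P.natDegree ≤ r ∧
    ∀ y : ℝ, Q.eval (mz Complex.I y) = P.eval (y : ℂ) * mz Complex.I y ^ r) ∧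
  (∀ (P : ℂ[X]) (k : ℕ), P.natDegree ≤ k → ∃ R : ℂ[X], R.natDegree ≤ k ∧
    ∀ y : ℝ, P.eval (y : ℂ) * mz Complex.I y ^ k = R.eval (mz Complex.I y))

def St_S4 : Prop := ∀ (μ : Measure ℝ) (q : ℝ≥0∞), Ctx μ q → ∀ (k : ℕ) (P : ℂ[X]), P ≠ 0 →
  PRE μ q (fun y : ℝ => P.eval (y : ℂ) * mz Complex.I y ^ k) →
  BddS μ q (fun x : ℝ => ((x : ℂ) - Complex.I) ^ k * (P.eval (x : ℂ))⁻¹)

def St_HP : Prop := ∀ (k : ℕ) (P : ℂ[X]), P.natDegree ≤ k → ∀ f t : ℝ → ℂ, IsHT f t →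
  (∀ j : ℕ, 1 ≤ j → j ≤ k → ∫ y, f y * mz Complex.I y ^ j = 0) →
  IsHT (fun y : ℝ => f y * (P.eval (y : ℂ) * mz Complex.I y ^ k))
    (fun x : ℝ => t x * (P.eval (x : ℂ) * mz Complex.I x ^ k)) ∧
  (∫ y, f y = 0 → ∫ y : ℝ, f y * (P.eval (y : ℂ) * mz Complex.I y ^ k) = 0)

/-- CV2 with an extra measurable factor s and one interval on which s has finite norm -/
def St_CVS : Prop := ∀ (μ : Measure ℝ) (q : ℝ≥0∞), Ctx μ q → ∀ (s : ℝ → ℂ) (z : ℂ) (a b : ℝ),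
  Measurable s → a < b → eLpNorm (fun x => ind a b x * s x) q μ ≠ ⊤ →
  BddS μ q (fun x => s x * mz z x) →
  ∃ C : ℝ≥0, ∀ h t, IsHT h t → eLpNorm (fun x => h x * s x) q μ ≠ ⊤ → ∫ y, h y = 0 →
    eLpNorm (fun x => t x * s x) q μ ≤ C * eLpNorm (fun x => h x * s x) q μ

def St_CVN : Prop := ∀ (μ : Measure ℝ) (q : ℝ≥0∞), Ctx μ q → ∀ (k : ℕ) (P : ℂ[X]), P ≠ 0 →
  P.natDegree ≤ k + 1 → BddS μ q (fun x : ℝ => ((x : ℂ) - Complex.I) ^ k * (P.eval (x : ℂ))⁻¹) →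
  ∃ C : ℝ≥0, ∀ f t, IsHT f t → eLpNorm f q μ ≠ ⊤ →
    (∀ j : ℕ, 1 ≤ j → j ≤ k → ∫ y, f y * mz Complex.I y ^ j = 0) →
    (P.natDegree = k + 1 → ∫ y, f y = 0) → eLpNorm t q μ ≤ C * eLpNorm f q μ

def St_BRF : Prop := ∀ (p : ℝ) (U : ℝ → ℝ), 1 < p → (∀ x, 0 ≤ U x) → LocallyIntegrable U →
  ∀ μ : Measure ℝ, μ = volume.withDensity (fun x => ENNReal.ofReal (U x)) →
  ∀ (n : ℕ) (φ : Fin n → ℝ → ℂ), AdmF p n φ U ↔ AdmNF μ (ENNReal.ofReal p) n φ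

end Pool.Agent.Lib.HF26
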