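import Mathlib
import Pool.Agent.Lib.HF26.Blue

open MeasureTheory Filter Topology Polynomial
open scoped ENNReal NNReal

namespace Pool.Agent.Lib.HF26

open Pool.Agent.Lib.HT26

theorem sub_I_ne (y : ℝ) : (y : ℂ) - Complex.I ≠ 0 := by
  intro h
  have := congrArg Complex.im h
  simp only [Complex.sub_im, Complex.ofReal_im, Complex.I_im, Complex.zero_im] at this
  linarith

theorem mz_mul_sub (y : ℝ) : mz Complex.I y * ((y : ℂ) - Complex.I) = 1 :=
  inv_mul_cancel₀ (sub_I_ne y)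

theorem BM_pow (j : ℕ) : BM (fun y => mz Complex.I y ^ j) := by
  induction j with
  | zero => simpa only [pow_zero] using BM.const 1
  | succ j ih =>
    have hI : Complex.I.im ≠ 0 := by simp
    simpa only [pow_succ] using ih.mul (mz_BM hI)

theorem asmN (hG0 : St_G0) (hA : St_G3A) (hB : St_G3B) (hP : St_POLY) (hS4 : St_S4)
    (hCV : St_CVN) {μ : Measure ℝ} {q : ℝ≥0∞} (hc : Ctx μ q) (n : ℕ) :
    (∃ φ : Fin n → ℝ → ℂ, (∀ j, BM (φ j)) ∧ AdmNF μ q n φ) ↔
      ∃ (k : ℕ) (P : ℂ[X]), P ≠ 0 ∧ k ≤ n ∧ P.natDegree ≤ n ∧ P.natDegree ≤ k + 1 ∧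
        BddS μ q (fun x : ℝ => ((x : ℂ) - Complex.I) ^ k * (P.eval (x : ℂ))⁻¹) := by
  constructor
  · rintro ⟨φ, hφ, hAdm⟩
    by_cases h0 : μ = 0
    · refine ⟨0, 1, one_ne_zero, Nat.zero_le _, by simp, by simp, 0, fun h t _ _ => ?_⟩
      rw [h0, eLpNorm_measure_zero]
      exact zero_le
    obtain ⟨g, hg, hRK⟩ := hG0 μ q hc n φ hφ hAdm
    by_cases hm : eLpNorm (mz Complex.I) q μ = ⊤
    · obtain ⟨hn, r, Q, hr, hQ, hd, hpre⟩ := hB μ q hc n φ g hφ hg hRK hm
      obtain ⟨P, hP0, hPd, hPe⟩ := hP.1 Q r hQ hd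
      cases r with
      | zero =>
        have hd1 : (P * (X - C Complex.I)).natDegree ≤ 1 := by
          refine natDegree_mul_le.trans ?_
          rw [natDegree_X_sub_C]
          omega
        have hne : P * (X - C Complex.I) ≠ 0 := mul_ne_zero hP0 (X_sub_C_ne_zero _)
        refine ⟨0, P * (X - C Complex.I), hne, Nat.zero_le _, hd1.trans hn, hd1,
          hS4 μ q hc 0 _ hne ?_⟩
        have e : (fun y : ℝ => Q.eval (mz Complex.I y) * ((y : ℂ) - Complex.I))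
            = fun y : ℝ => (P * (X - C Complex.I)).eval (y : ℂ) * mz Complex.I y ^ 0 := by
          funext y
          rw [hPe y, eval_mul, eval_sub, eval_X, eval_C]
          ring
        exact e ▸ hpre
      | succ k =>
        refine ⟨k, P, hP0, by omega, hPd.trans hr, hPd, hS4 μ q hc k P hP0 ?_⟩
        have e : (fun y : ℝ => Q.eval (mz Complex.I y) * ((y : ℂ) - Complex.I))
            = fun y : ℝ => P.eval (y : ℂ) * mz Complex.I y ^ k := by
          funext y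
          rw [hPe y, pow_succ, mul_assoc, mul_assoc, mz_mul_sub, mul_one]
        exact e ▸ hpre
    · obtain ⟨r, Q, hr, hQ, hd, hpre⟩ := hA μ q hc h0 n φ g hφ hg hRK hm
      obtain ⟨P, hP0, hPd, hPe⟩ := hP.1 Q r hQ hd
      refine ⟨r, P, hP0, hr, hPd.trans hr, hPd.trans (Nat.le_succ _), hS4 μ q hc r P hP0 ?_⟩
      have e : (fun y : ℝ => Q.eval (mz Complex.I y))
          = fun y : ℝ => P.eval (y : ℂ) * mz Complex.I y ^ r := funext hPe
      exact e ▸ hpre
  · rintro ⟨k, P, hP0, hk, hn, hd, hS⟩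
    obtain ⟨C, hC⟩ := hCV μ q hc k P hP0 hd hS
    refine ⟨fun j y => mz Complex.I y ^ (if (j : ℕ) < k then (j : ℕ) + 1 else 0),
      fun j => BM_pow _, C, fun f t hf hN hz => hC f t hf hN ?_ ?_⟩
    · intro j h1 h2
      have h := hz ⟨j - 1, by omega⟩
      have e : (if j - 1 < k then j - 1 + 1 else 0) = j := by
        rw [if_pos (by omega)]
        omega
      simpa only [e] using h
    · intro hdeg
      have h := hz ⟨k, by omega⟩
      simpa only [lt_irrefl, if_false, pow_zero, mul_one] using h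

theorem asm (hBRG : St_BRG) (hBRF : St_BRF) (hG0 : St_G0) (hA : St_G3A) (hB : St_G3B)
    (hP : St_POLY) (hS4 : St_S4) (hCV : St_CVN) (p : ℝ) (hp : 1 < p) (U : ℝ → ℝ)
    (hU0 : ∀ x, 0 ≤ U x) (hU : LocallyIntegrable U volume) (n : ℕ) :
    (∃ φ : Fin n → ℝ → ℂ,
        (∀ j, AEStronglyMeasurable (φ j) volume ∧ ∃ M : ℝ, ∀ᵐ y : ℝ, ‖φ j y‖ ≤ M) ∧
        AdmF p n φ U) ↔
      ∃ (k : ℕ) (P : Polynomial ℂ), P ≠ 0 ∧ k ≤ n ∧ P.natDegree ≤ n ∧ P.natDegree ≤ k + 1 ∧
        Adm p (fun _ => 0)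
          (fun x => U x * (‖(x : ℂ) - Complex.I‖ ^ k / ‖P.eval (x : ℂ)‖) ^ p) := by
  obtain ⟨hc, -, -, hS⟩ := hBRG p U hp hU0 hU _ rfl
  have hF := hBRF p U hp hU0 hU _ rfl n
  have e : ∀ (k : ℕ) (P : ℂ[X]), Adm p (fun _ => 0)
      (fun x => U x * (‖(x : ℂ) - Complex.I‖ ^ k / ‖P.eval (x : ℂ)‖) ^ p) ↔ _ := fun k P =>
    hS (fun x : ℝ => ((x : ℂ) - Complex.I) ^ k * (P.eval (x : ℂ))⁻¹) _
      ((((Complex.continuous_ofReal.sub continuous_const).pow k).measurable).mul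
        ((P.continuous.comp Complex.continuous_ofReal).measurable.inv))
      (fun x => by rw [norm_mul, norm_pow, norm_inv, div_eq_mul_inv])
  refine Iff.trans ?_ ((asmN hG0 hA hB hP hS4 hCV hc n).trans ?_)
  · exact exists_congr fun φ => and_congr Iff.rfl (hF φ)
  · exact exists_congr fun k => exists_congr fun P => and_congr Iff.rfl (and_congr Iff.rfl
      (and_congr Iff.rfl (and_congr Iff.rfl (e k P).symm)))

end Pool.Agent.Lib.HF26
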