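import Mathlib
import Pool.Agent.Lib.HF26.Blue

open MeasureTheory Filter Topology Polynomial
open scoped ENNReal NNReal

namespace Pool.Agent.Lib.HF26

open Pool.Agent.Lib.HT26

def St_S3V : Prop := ∀ (μ : Measure ℝ) (q : ℝ≥0∞), 1 ≤ q → μ ≪ volume →
  ∀ (X : Type) [AddCommGroup X] [Module ℂ X] (N : X → ℝ≥0∞), SN N →
  ∀ (MX : X →ₗ[ℂ] X), (∀ x, N (MX x) ≤ N x) →
  ∀ (T : X →ₗ[ℂ] YY μ) (a1 : X →ₗ[ℂ] ℂ) (y1 : YY μ), y1 ≠ 0 →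
  (∀ x, T (MX x) - mY μ (T x) = a1 x • y1) →
  ∀ (n : ℕ) (a : Fin n → X →ₗ[ℂ] ℂ) (g : Fin n → YY μ),
  BOp μ q N (T - ∑ j, (a j).smulRight (g j)) →
  ∀ i : ℕ, ∃ c : Fin n → ℂ, BF N (a1 ∘ₗ (MX ^ i) - ∑ j, c j • a j)

def St_G3V : Prop := ∀ (μ : Measure ℝ) (q : ℝ≥0∞), Ctx μ q → μ ≠ 0 →
  ∀ (n : ℕ) (φ g : Fin n → ℝ → ℂ), (∀ j, BM (φ j)) → (∀ j, AEStronglyMeasurable (g j) μ) →
  RKF μ q n φ g → ∀ j : ℕ, 1 ≤ j → ∃ c : Fin n → ℂ,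
    BFN μ q (fun y => mz Complex.I y ^ j - ∑ l, c l * φ l y)

def St_CVF : Prop := ∀ (μ : Measure ℝ) (q : ℝ≥0∞), Ctx μ q →
  ∀ (n : ℕ) (φ : Fin n → ℝ → ℂ), (∀ j, BM (φ j)) → ∀ (k : ℕ) (P : ℂ[X]), P ≠ 0 →
  P.natDegree ≤ k + 1 → BddS μ q (fun x : ℝ => ((x : ℂ) - Complex.I) ^ k * (P.eval (x : ℂ))⁻¹) →
  (∀ j : ℕ, 1 ≤ j → j ≤ k → ∃ c : Fin n → ℂ,
    BFN μ q (fun y => mz Complex.I y ^ j - ∑ l, c l * φ l y)) →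
  (P.natDegree = k + 1 → ∃ c : Fin n → ℂ, ∀ᵐ y : ℝ, ∑ l, c l * φ l y = 1) → AdmNF μ q n φ

/-- the abstract last step of CVF: from a family ψ to the family φ -/
def St_SWAP : Prop := ∀ (μ : Measure ℝ) (q : ℝ≥0∞), Ctx μ q →
  ∀ (n n' : ℕ) (φ : Fin n → ℝ → ℂ) (ψ g : Fin n' → ℝ → ℂ), (∀ j, BM (φ j)) → (∀ j, BM (ψ j)) →
  (∀ j, AEStronglyMeasurable (g j) μ) → RKF μ q n' ψ g →
  (∀ f t, IsHT f t → eLpNorm f q μ ≠ ⊤ → (∀ l, ∫ y, f y * φ l y = 0) →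
    eLpNorm (fun x => ∑ j, (∫ y, f y * ψ j y) * g j x) q μ ≠ ⊤) →
  (∀ j, ∃ c : Fin n → ℂ, BFN μ q (fun y => ψ j y - ∑ l, c l * φ l y)) → AdmNF μ q n φ

end Pool.Agent.Lib.HF26
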