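import Mathlib
import Pool.Agent.Lib.HF26.Asm
import Pool.Agent.Lib.HF26.Blue2

open MeasureTheory Filter Topology Polynomial
open scoped ENNReal NNReal

namespace Pool.Agent.Lib.HF26

open Pool.Agent.Lib.HT26

theorem fwdN (hA : St_G3A) (hB : St_G3B) (hP : St_POLY) (hS4 : St_S4) (hS2 : St_S2)
    {μ : Measure ℝ} {q : ℝ≥0∞} (hc : Ctx μ q) (h0 : μ ≠ 0) (n : ℕ) (φ g : Fin n → ℝ → ℂ)
    (hφ : ∀ j, BM (φ j)) (hg : ∀ j, AEStronglyMeasurable (g j) μ) (hRK : RKF μ q n φ g) :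
    ∃ (k : ℕ) (P : ℂ[X]), P ≠ 0 ∧ k ≤ n ∧ P.natDegree ≤ n ∧ P.natDegree ≤ k + 1 ∧
      BddS μ q (fun x : ℝ => ((x : ℂ) - Complex.I) ^ k * (P.eval (x : ℂ))⁻¹) ∧
      (P.natDegree = k + 1 → ∃ c : Fin n → ℂ, ∀ᵐ y : ℝ, ∑ l, c l * φ l y = 1) := by
  by_cases hm : eLpNorm (mz Complex.I) q μ = ⊤
  · have h1 := (hS2 μ q hc n φ g hφ hg hRK).2 hm
    obtain ⟨hn, r, Q, hr, hQ, hd, hpre⟩ := hB μ q hc n φ g hφ hg hRK hm
    obtain ⟨P, hP0, hPd, hPe⟩ := hP.1 Q r hQ hd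
    cases r with
    | zero =>
      have hd1 : (P * (X - C Complex.I)).natDegree ≤ 1 := by
        refine natDegree_mul_le.trans ?_
        rw [natDegree_X_sub_C]
        omega
      have hne : P * (X - C Complex.I) ≠ 0 := mul_ne_zero hP0 (X_sub_C_ne_zero _)
      refine ⟨0, P * (X - C Complex.I), hne, Nat.zero_le _, hd1.trans hn, hd1,
        hS4 μ q hc 0 _ hne ?_, fun _ => h1⟩
      have e : (fun y : ℝ => Q.eval (mz Complex.I y) * ((y : ℂ) - Complex.I))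
          = fun y : ℝ => (P * (X - C Complex.I)).eval (y : ℂ) * mz Complex.I y ^ 0 := by
        funext y
        rw [hPe y, eval_mul, eval_sub, eval_X, eval_C]
        ring
      exact e ▸ hpre
    | succ k =>
      refine ⟨k, P, hP0, by omega, hPd.trans hr, hPd, hS4 μ q hc k P hP0 ?_, fun _ => h1⟩
      have e : (fun y : ℝ => Q.eval (mz Complex.I y) * ((y : ℂ) - Complex.I))
          = fun y : ℝ => P.eval (y : ℂ) * mz Complex.I y ^ k := by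
        funext y
        rw [hPe y, pow_succ, mul_assoc, mul_assoc, mz_mul_sub, mul_one]
      exact e ▸ hpre
  · obtain ⟨r, Q, hr, hQ, hd, hpre⟩ := hA μ q hc h0 n φ g hφ hg hRK hm
    obtain ⟨P, hP0, hPd, hPe⟩ := hP.1 Q r hQ hd
    refine ⟨r, P, hP0, hr, hPd.trans hr, hPd.trans (Nat.le_succ _), hS4 μ q hc r P hP0 ?_,
      fun h => absurd h (by omega)⟩
    have e : (fun y : ℝ => Q.eval (mz Complex.I y))
        = fun y : ℝ => P.eval (y : ℂ) * mz Complex.I y ^ r := funext hPe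
    exact e ▸ hpre

theorem asmG (hG0 : St_G0) (hA : St_G3A) (hB : St_G3B) (hP : St_POLY) (hS4 : St_S4)
    (hS2 : St_S2) (hV : St_G3V) (hCVF : St_CVF) {μ : Measure ℝ} {q : ℝ≥0∞} (hc : Ctx μ q)
    (n : ℕ) (φ : Fin n → ℝ → ℂ) (hφ : ∀ j, BM (φ j)) :
    AdmNF μ q n φ ↔
      ∃ (k : ℕ) (P : ℂ[X]), P ≠ 0 ∧ k ≤ n ∧ P.natDegree ≤ n ∧ P.natDegree ≤ k + 1 ∧
        BddS μ q (fun x : ℝ => ((x : ℂ) - Complex.I) ^ k * (P.eval (x : ℂ))⁻¹) ∧
        (∀ j : ℕ, 1 ≤ j → j ≤ k → ∃ c : Fin n → ℂ,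
          BFN μ q (fun y => mz Complex.I y ^ j - ∑ l, c l * φ l y)) ∧
        (P.natDegree = k + 1 → ∃ c : Fin n → ℂ, ∀ᵐ y : ℝ, ∑ l, c l * φ l y = 1) := by
  constructor
  · intro hAdm
    by_cases h0 : μ = 0
    · refine ⟨0, 1, one_ne_zero, Nat.zero_le _, by simp, by simp, ⟨0, fun h t _ _ => ?_⟩,
        fun j h1 h2 => absurd h2 (by omega), fun h => absurd h (by simp)⟩
      rw [h0, eLpNorm_measure_zero]
      exact zero_le
    obtain ⟨g, hg, hRK⟩ := hG0 μ q hc n φ hφ hAdm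
    obtain ⟨k, P, a1, a2, a3, a4, a5, a6⟩ := fwdN hA hB hP hS4 hS2 hc h0 n φ g hφ hg hRK
    exact ⟨k, P, a1, a2, a3, a4, a5, fun j h1 _ => hV μ q hc h0 n φ g hφ hg hRK j h1, a6⟩
  · rintro ⟨k, P, a1, -, -, a4, a5, a6, a7⟩
    exact hCVF μ q hc n φ hφ k P a1 a4 a5 a6 a7

theorem asm2 (hBRG : St_BRG) (hBRF : St_BRF) (hG0 : St_G0) (hA : St_G3A) (hB : St_G3B)
    (hP : St_POLY) (hS4 : St_S4) (hS2 : St_S2) (hV : St_G3V) (hCVF : St_CVF)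
    (p : ℝ) (hp : 1 < p) (U : ℝ → ℝ)
    (hU0 : ∀ x, 0 ≤ U x) (hU : LocallyIntegrable U volume) (n : ℕ) (φ : Fin n → ℝ → ℂ)
    (hφ : ∀ j, AEStronglyMeasurable (φ j) volume ∧ ∃ M : ℝ, ∀ᵐ y : ℝ, ‖φ j y‖ ≤ M) :
    AdmF p n φ U ↔
      ∃ (k : ℕ) (P : Polynomial ℂ), P ≠ 0 ∧ k ≤ n ∧ P.natDegree ≤ n ∧ P.natDegree ≤ k + 1 ∧
        Adm p (fun _ => 0)
          (fun x => U x * (‖(x : ℂ) - Complex.I‖ ^ k / ‖P.eval (x : ℂ)‖) ^ p) ∧
        (∀ j : ℕ, 1 ≤ j → j ≤ k → ∃ c : Fin n → ℂ,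
          BddFun p U (fun y => 1 / ((y : ℂ) - Complex.I) ^ j - ∑ l, c l * φ l y)) ∧
        (P.natDegree = k + 1 → ∃ c : Fin n → ℂ, ∀ᵐ y : ℝ, ∑ l, c l * φ l y = 1) := by
  obtain ⟨hc, -, hBF, hS⟩ := hBRG p U hp hU0 hU _ rfl
  have hF := hBRF p U hp hU0 hU _ rfl n φ
  have e : ∀ (k : ℕ) (P : ℂ[X]), Adm p (fun _ => 0)
      (fun x => U x * (‖(x : ℂ) - Complex.I‖ ^ k / ‖P.eval (x : ℂ)‖) ^ p) ↔ _ := fun k P =>
    hS (fun x : ℝ => ((x : ℂ) - Complex.I) ^ k * (P.eval (x : ℂ))⁻¹) _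
      ((((Complex.continuous_ofReal.sub continuous_const).pow k).measurable).mul
        ((P.continuous.comp Complex.continuous_ofReal).measurable.inv))
      (fun x => by rw [norm_mul, norm_pow, norm_inv, div_eq_mul_inv])
  have e2 : ∀ (j : ℕ) (c : Fin n → ℂ),
      (fun y : ℝ => 1 / ((y : ℂ) - Complex.I) ^ j - ∑ l, c l * φ l y)
        = fun y => mz Complex.I y ^ j - ∑ l, c l * φ l y := by
    intro j c
    funext y
    unfold mz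
    rw [one_div, inv_pow]
  refine hF.trans ((asmG hG0 hA hB hP hS4 hS2 hV hCVF hc n φ hφ).trans ?_)
  refine exists_congr fun k => exists_congr fun P => and_congr Iff.rfl (and_congr Iff.rfl
    (and_congr Iff.rfl (and_congr Iff.rfl (and_congr (e k P).symm (and_congr ?_ Iff.rfl)))))
  refine forall_congr' fun j => forall_congr' fun _ => forall_congr' fun _ =>
    exists_congr fun c => ?_
  rw [e2 j c]
  exact (hBF _).symm

end Pool.Agent.Lib.HF26
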