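import Pool.Agent.Lib.HF26.Blue
import Pool.Agent.Lib.HT26.B_BRG

open MeasureTheory Filter Topology
open scoped ENNReal NNReal

namespace Pool.Agent.Lib.HF26

open Pool.Agent.Lib.HT26

theorem fBRF : St_BRF := by
  intro p U hp _ hU μ hμ n φ
  have hp0 : 0 < p := by linarith
  have hN : ∀ f, eLpNorm f (ENNReal.ofReal p) μ = wint p U f ^ (1 / p) := fun f => by
    rw [hμ]
    exact BRG.norm_eq hp0 hU f
  constructor
  · rintro ⟨C, h⟩
    refine ⟨C ^ (1 / p), fun f t hft _ h0 => ?_⟩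
    rw [hN, hN]
    exact BRG.up hp0 (h f t hft h0)
  · rintro ⟨C, h⟩
    refine ⟨C ^ p + 1, fun f t hft h0 => BRG.down hp0 fun hB => ?_⟩
    rw [← hN, ← hN]
    exact h f t hft (by rwa [hN]) h0

end Pool.Agent.Lib.HF26
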