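import Mathlib
import Pool.Agent.Lib.HF26.Blue2
import Pool.Agent.Lib.HF26.Asm

open MeasureTheory Filter Topology Polynomial
open scoped ENNReal NNReal

namespace Pool.Agent.Lib.HF26

open Pool.Agent.Lib.HT26

namespace CVF

theorem int_zero {n : ℕ} {φ : Fin n → ℝ → ℂ} (hφ : ∀ j, BM (φ j)) {c : Fin n → ℂ}
    (hc : ∀ᵐ y : ℝ, ∑ l, c l * φ l y = 1) {f : ℝ → ℂ} (hf : Integrable f)
    (hz : ∀ l, ∫ y, f y * φ l y = 0) : ∫ y, f y = 0 := by
  have e : ∀ᵐ y : ℝ, f y = ∑ l, (f y * φ l y) * c l := by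
    filter_upwards [hc] with y hy
    calc f y = f y * ∑ l, c l * φ l y := by rw [hy, mul_one]
      _ = ∑ l, (f y * φ l y) * c l := by
        rw [Finset.mul_sum]
        exact Finset.sum_congr rfl fun l _ => by ring
  rw [integral_congr_ae e, integral_finsetSum _ fun l _ => ((hφ l).int hf).mul_const _]
  refine Finset.sum_eq_zero fun l _ => ?_
  rw [integral_mul_const, hz l, zero_mul]

theorem bfn_zero {μ : Measure ℝ} {q : ℝ≥0∞} {χ : ℝ → ℂ} (h : ∀ᵐ y : ℝ, χ y = 0) : BFN μ q χ := by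
  refine ⟨0, fun f t _ _ => ?_⟩
  have e : ∀ᵐ y : ℝ, f y * χ y = 0 := by
    filter_upwards [h] with y hy
    rw [hy, mul_zero]
  rw [integral_congr_ae e, integral_zero, enorm_zero]
  exact zero_le

theorem not_one (hE : ∀ Q : ℂ[X], Q ≠ 0 → ∀ᵐ x : ℝ, Q.eval (mz Complex.I x) ≠ 0) {k : ℕ}
    (c : Fin k → ℂ) (h : ∀ᵐ y : ℝ, ∑ j : Fin k, c j * mz Complex.I y ^ ((j : ℕ) + 1) = 1) :
    False := by
  have ev : ∀ z : ℂ, (∑ j : Fin k, C (c j) * X ^ ((j : ℕ) + 1) - 1 : ℂ[X]).eval z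
      = ∑ j : Fin k, c j * z ^ ((j : ℕ) + 1) - 1 := by
    intro z
    rw [eval_sub, eval_one, eval_finsetSum]
    congr 1
    exact Finset.sum_congr rfl fun j _ => by rw [eval_mul, eval_C, eval_pow, eval_X]
  have hQ : (∑ j : Fin k, C (c j) * X ^ ((j : ℕ) + 1) - 1 : ℂ[X]) ≠ 0 := by
    intro h0
    have h1 := ev 0
    rw [h0, eval_zero, Finset.sum_eq_zero fun j _ => by rw [pow_succ, mul_zero, mul_zero]] at h1
    exact one_ne_zero (by linear_combination h1 : (1 : ℂ) = 0)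
  obtain ⟨y, h1, h2⟩ := ((hE _ hQ).and h).exists
  exact h1 (by rw [ev, h2, sub_self])

theorem aesm_sum {μ : Measure ℝ} {n : ℕ} (c : Fin n → ℂ) (g : Fin n → ℝ → ℂ)
    (hg : ∀ j, AEStronglyMeasurable (g j) μ) :
    AEStronglyMeasurable (fun x => ∑ j, c j * g j x) μ :=
  Finset.aestronglyMeasurable_fun_sum _ fun j _ => (hg j).const_mul _

end CVF

theorem fCVF (hCVN : St_CVN) (hG0 : St_G0) (hS2 : St_S2) (hEIG : St_EIG) (hSW : St_SWAP) :
    St_CVF := by
  intro μ q hc n φ hφ k P hP hd hB hj h1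
  obtain ⟨K, hK⟩ := hCVN μ q hc k P hP hd hB
  by_cases hk : P.natDegree = k + 1
  · obtain ⟨c0, hc0⟩ := h1 hk
    have hψ : ∀ j : Fin (k + 1), BM (fun y => mz Complex.I y ^ (j : ℕ)) := fun j => BM_pow _
    have hAdm : AdmNF μ q (k + 1) (fun j y => mz Complex.I y ^ (j : ℕ)) := by
      refine ⟨K, fun f t hf hN hz => hK f t hf hN (fun j _ h2 => hz ⟨j, by omega⟩) fun _ => ?_⟩
      have h := hz ⟨0, by omega⟩
      simpa only [pow_zero, mul_one] using h
    obtain ⟨g, hg, hR⟩ := hG0 μ q hc (k + 1) _ hψ hAdm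
    refine hSW μ q hc n (k + 1) φ _ g hφ hψ hg hR (fun f t hf hN hz => ?_) fun j => ?_
    · have h := (hS2 μ q hc (k + 1) _ g hψ hg hR).1 f t hf hN
      have hi := CVF.int_zero hφ hc0 hf.1 hz
      refine ne_of_eq_of_ne (eLpNorm_congr_ae (Eventually.of_forall fun x => ?_)) h
      show _ = _ - ((Real.pi : ℂ)⁻¹ * ∫ y, f y) * mz Complex.I x
      rw [hi, mul_zero, zero_mul, sub_zero]
    · by_cases h0 : (j : ℕ) = 0
      · refine ⟨c0, CVF.bfn_zero ?_⟩
        filter_upwards [hc0] with y hy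
        rw [h0, pow_zero, hy, sub_self]
      · exact hj j (by omega) (by have := j.2; omega)
  · have hψ : ∀ j : Fin k, BM (fun y => mz Complex.I y ^ ((j : ℕ) + 1)) := fun j => BM_pow _
    have hAdm : AdmNF μ q k (fun j y => mz Complex.I y ^ ((j : ℕ) + 1)) := by
      refine ⟨K, fun f t hf hN hz => hK f t hf hN (fun j h2 h3 => ?_) fun h => absurd h hk⟩
      have h := hz ⟨j - 1, by omega⟩
      have e : j - 1 + 1 = j := by omega
      simpa only [e] using h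
    obtain ⟨g, hg, hR⟩ := hG0 μ q hc k _ hψ hAdm
    obtain ⟨hA, hT⟩ := hS2 μ q hc k _ g hψ hg hR
    have hm : eLpNorm (mz Complex.I) q μ ≠ ⊤ := by
      intro h
      obtain ⟨c, hc1⟩ := hT h
      exact CVF.not_one (hEIG μ hc.ac).2.1 c hc1
    refine hSW μ q hc n k φ _ g hφ hψ hg hR (fun f t hf hN _ => ?_) fun j => ?_
    · have h := hA f t hf hN
      have hmm : AEStronglyMeasurable
          (fun x => ((Real.pi : ℂ)⁻¹ * ∫ y, f y) * mz Complex.I x) μ :=
        (mz_meas Complex.I).aestronglyMeasurable.const_mul _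
      have h2 : eLpNorm (fun x => ((Real.pi : ℂ)⁻¹ * ∫ y, f y) * mz Complex.I x) q μ ≠ ⊤ := by
        rw [N_cmul]
        exact ENNReal.mul_ne_top enorm_ne_top hm
      have h3 := ne_top_of_le_ne_top (ENNReal.add_ne_top.mpr ⟨h, h2⟩)
        (N_add hc.one ((CVF.aesm_sum _ g hg).sub hmm) hmm)
      refine ne_of_eq_of_ne (eLpNorm_congr_ae (Eventually.of_forall fun x => ?_)) h3
      exact (sub_add_cancel _ _).symm
    · exact hj (j + 1) (by omega) (by have := j.2; omega)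

end Pool.Agent.Lib.HF26
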