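import Mathlib
import Pool.Agent.Lib.HF26.Blue

open MeasureTheory Filter Topology Polynomial
open scoped ENNReal NNReal

namespace Pool.Agent.Lib.HF26

open Pool.Agent.Lib.HT26

namespace CVN

theorem fin_roots {P : ℂ[X]} (hP : P ≠ 0) : {y : ℝ | P.eval (y : ℂ) = 0}.Finite := by
  have h : {c : ℂ | P.IsRoot c}.Finite := Polynomial.finite_setOfPred_isRoot hP
  exact h.preimage (f := fun y : ℝ => (y : ℂ)) Complex.ofReal_injective.injOn

theorem ae_eval_ne {P : ℂ[X]} (hP : P ≠ 0) : ∀ᵐ y : ℝ, P.eval (y : ℂ) ≠ 0 := by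
  rw [ae_iff]
  have h := (fin_roots hP).measure_zero (volume : Measure ℝ)
  simpa only [ne_eq, not_not] using h

theorem sub_I_ne (y : ℝ) : (y : ℂ) - Complex.I ≠ 0 := by
  intro h
  have h2 := congrArg Complex.im h
  simp only [Complex.sub_im, Complex.ofReal_im, Complex.I_im, Complex.zero_im] at h2
  linarith

theorem cancel {P : ℂ[X]} (k : ℕ) (y : ℝ) (hy : P.eval (y : ℂ) ≠ 0) (w : ℂ) :
    w * (P.eval (y : ℂ) * mz Complex.I y ^ k) *
      (((y : ℂ) - Complex.I) ^ k * (P.eval (y : ℂ))⁻¹) = w := by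
  have h1 : mz Complex.I y ^ k * ((y : ℂ) - Complex.I) ^ k = 1 := by
    rw [← mul_pow, mz, inv_mul_cancel₀ (sub_I_ne y), one_pow]
  have h2 : P.eval (y : ℂ) * (P.eval (y : ℂ))⁻¹ = 1 := mul_inv_cancel₀ hy
  calc w * (P.eval (y : ℂ) * mz Complex.I y ^ k) *
        (((y : ℂ) - Complex.I) ^ k * (P.eval (y : ℂ))⁻¹)
      = w * (mz Complex.I y ^ k * ((y : ℂ) - Complex.I) ^ k) *
        (P.eval (y : ℂ) * (P.eval (y : ℂ))⁻¹) := by ring
    _ = w := by rw [h1, h2, mul_one, mul_one]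

theorem norm_cancel {μ : Measure ℝ} (hμ : μ ≪ volume) (q : ℝ≥0∞) {P : ℂ[X]} (hP : P ≠ 0) (k : ℕ)
    (f : ℝ → ℂ) :
    eLpNorm (fun y : ℝ => f y * (P.eval (y : ℂ) * mz Complex.I y ^ k) *
      (((y : ℂ) - Complex.I) ^ k * (P.eval (y : ℂ))⁻¹)) q μ = eLpNorm f q μ := by
  apply eLpNorm_congr_ae
  filter_upwards [hμ.ae_le (ae_eval_ne hP)] with y hy
  exact cancel k y hy (f y)

theorem cont_eval (P : ℂ[X]) : Continuous fun y : ℝ => P.eval (y : ℂ) :=
  P.continuous.comp Complex.continuous_ofReal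

theorem cont_pow (k : ℕ) : Continuous fun y : ℝ => ((y : ℂ) - Complex.I) ^ k :=
  (Complex.continuous_ofReal.sub continuous_const).pow k

theorem meas_s (P : ℂ[X]) (k : ℕ) :
    Measurable fun y : ℝ => ((y : ℂ) - Complex.I) ^ k * (P.eval (y : ℂ))⁻¹ :=
  (cont_pow k).measurable.mul (cont_eval P).measurable.inv

theorem interval {μ : Measure ℝ} {q : ℝ≥0∞} (hc : Ctx μ q) {P : ℂ[X]} (hP : P ≠ 0) (k : ℕ) :
    ∃ a b : ℝ, a < b ∧ eLpNorm (fun y : ℝ => ind a b y *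
      (((y : ℂ) - Complex.I) ^ k * (P.eval (y : ℂ))⁻¹)) q μ ≠ ⊤ := by
  obtain ⟨y0, hy0⟩ := (ae_eval_ne hP).exists
  have hca : ContinuousAt (fun y : ℝ => ((y : ℂ) - Complex.I) ^ k * (P.eval (y : ℂ))⁻¹) y0 :=
    (cont_pow k).continuousAt.mul ((cont_eval P).continuousAt.inv₀ hy0)
  obtain ⟨δ, hδ, hb⟩ := Metric.continuousAt_iff.mp hca 1 one_pos
  set M : ℝ := ‖((y0 : ℂ) - Complex.I) ^ k * (P.eval (y0 : ℂ))⁻¹‖ + 1 with hM
  refine ⟨y0 - δ, y0 + δ, by linarith, ?_⟩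
  have hle : eLpNorm (fun y : ℝ => ind (y0 - δ) (y0 + δ) y *
      (((y : ℂ) - Complex.I) ^ k * (P.eval (y : ℂ))⁻¹)) q μ ≤
      ENNReal.ofReal M * eLpNorm (ind (y0 - δ) (y0 + δ)) q μ := by
    apply eLpNorm_le_mul_eLpNorm_of_ae_le_mul
    refine Eventually.of_forall fun y => ?_
    by_cases hy : y ∈ Set.Ioo (y0 - δ) (y0 + δ)
    · have hd : dist y y0 < δ := by
        rw [Real.dist_eq, abs_lt]
        exact ⟨by linarith [hy.1], by linarith [hy.2]⟩
      have h1 := hb hd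
      rw [dist_eq_norm] at h1
      have h2 := norm_le_norm_add_norm_sub'
        (((y : ℂ) - Complex.I) ^ k * (P.eval (y : ℂ))⁻¹)
        (((y0 : ℂ) - Complex.I) ^ k * (P.eval (y0 : ℂ))⁻¹)
      rw [norm_mul, mul_comm]
      exact mul_le_mul_of_nonneg_right (by linarith) (norm_nonneg _)
    · have h0 : ind (y0 - δ) (y0 + δ) y = 0 := Set.indicator_of_notMem hy _
      rw [h0, zero_mul, norm_zero, mul_zero]
  exact ne_top_of_le_ne_top (ENNReal.mul_ne_top ENNReal.ofReal_ne_top (N_ind hc _ _)) hle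

end CVN

theorem fCVN (hHP : St_HP) (hCVS : St_CVS) : St_CVN := by
  intro μ q hc k P hP hdeg hB
  by_cases hk : P.natDegree = k + 1
  · have hd0 : P.degree ≠ 0 := by
      intro h
      have h2 := Polynomial.natDegree_eq_zero_iff_degree_le_zero.mpr h.le
      omega
    obtain ⟨z, hz⟩ := IsAlgClosed.exists_root P hd0
    obtain ⟨P1, hP1⟩ := Polynomial.dvd_iff_isRoot.mpr hz
    have hne : P1 ≠ 0 := by
      intro h
      exact hP (by rw [hP1, h, mul_zero])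
    have hd1 : P1.natDegree ≤ k := by
      have h := Polynomial.natDegree_mul (Polynomial.X_sub_C_ne_zero z) hne
      rw [← hP1, Polynomial.natDegree_X_sub_C] at h
      omega
    obtain ⟨a, b, hab, hfin⟩ := CVN.interval hc hne k
    have hs : (fun x : ℝ => ((x : ℂ) - Complex.I) ^ k * (P.eval (x : ℂ))⁻¹) =
        fun x : ℝ => (((x : ℂ) - Complex.I) ^ k * (P1.eval (x : ℂ))⁻¹) * mz z x := by
      funext x
      rw [hP1, Polynomial.eval_mul, Polynomial.eval_sub, Polynomial.eval_X, Polynomial.eval_C,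
        mul_inv, mz]
      ring
    rw [hs] at hB
    obtain ⟨C, hC⟩ := hCVS μ q hc _ z a b (CVN.meas_s P1 k) hab hfin hB
    refine ⟨C, fun f t hft hf hj h0 => ?_⟩
    obtain ⟨h1, h2⟩ := hHP k P1 hd1 f t hft hj
    have e1 := CVN.norm_cancel hc.ac q hne k f
    have e2 := CVN.norm_cancel hc.ac q hne k t
    have h3 := hC _ _ h1 (e1.trans_ne hf) (h2 (h0 hk))
    exact e2.symm.trans_le (h3.trans_eq (congrArg (fun r => (C : ℝ≥0∞) * r) e1))
  · obtain ⟨C, hC⟩ := hB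
    refine ⟨C, fun f t hft hf hj _ => ?_⟩
    obtain ⟨h1, _⟩ := hHP k P (by omega) f t hft hj
    have e1 := CVN.norm_cancel hc.ac q hP k f
    have e2 := CVN.norm_cancel hc.ac q hP k t
    have h3 := hC _ _ h1 (e1.trans_ne hf)
    exact e2.symm.trans_le (h3.trans_eq (congrArg (fun r => (C : ℝ≥0∞) * r) e1))

end Pool.Agent.Lib.HF26
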