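import Mathlib
import Pool.Agent.Lib.HF26.Blue
import Pool.Agent.Lib.HT26.B_LIN
import Pool.Agent.Lib.HT26.B_MEAS
import Pool.Agent.Lib.HT26.B_ID2
import Pool.Agent.Lib.HT26.B_CUT
import Pool.Agent.Lib.HT26.B_IND
import Pool.Agent.Lib.HT26.B_CV2

open MeasureTheory Filter Topology
open scoped ENNReal NNReal

namespace Pool.Agent.Lib.HF26

open Pool.Agent.Lib.HT26

namespace CVS

theorem int_ind {a b : ℝ} (h : a < b) : ∫ y, ind a b y = ((b - a : ℝ) : ℂ) := by
  unfold ind
  rw [integral_indicator measurableSet_Ioo, setIntegral_const, Real.volume_real_Ioo_of_le h.le,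
    Complex.real_smul, mul_one]

theorem cancel {μ : Measure ℝ} (hμ : μ ≪ volume) (q : ℝ≥0∞) (z : ℂ) (s F : ℝ → ℂ) :
    eLpNorm (fun x : ℝ => F x * ((x : ℂ) - z) * (s x * mz z x)) q μ
      = eLpNorm (fun x => F x * s x) q μ := by
  refine eLpNorm_congr_ae ?_
  filter_upwards [hμ.ae_le (ae_ne_c z)] with x hx
  unfold mz
  rw [mul_mul_mul_comm, mul_inv_cancel₀ hx, mul_one]

theorem core {μ : Measure ℝ} {q : ℝ≥0∞} (hc : Ctx μ q) {s : ℝ → ℂ} {z : ℂ} {C : ℝ≥0}
    (hC : ∀ h t, IsHT h t → eLpNorm (fun x => h x * (s x * mz z x)) q μ ≠ ⊤ →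
      eLpNorm (fun x => t x * (s x * mz z x)) q μ
        ≤ C * eLpNorm (fun x => h x * (s x * mz z x)) q μ)
    {F T : ℝ → ℂ} (h : IsHT F T) (R : ℝ) (hR : ∀ y, R < |y| → F y = 0)
    (h0 : ∫ y, F y = 0) (hN : eLpNorm (fun x => F x * s x) q μ ≠ ⊤) :
    eLpNorm (fun x => T x * s x) q μ ≤ C * eLpNorm (fun x => F x * s x) q μ := by
  have h1 := bID2 F T z h (CV2.int_mul h.1 R hR z)
  have h3 : (fun x : ℝ => T x * ((x : ℂ) - z) - (Real.pi : ℂ)⁻¹ * ∫ y, F y)
      = fun x : ℝ => T x * ((x : ℂ) - z) := by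
    funext x
    rw [h0, mul_zero, sub_zero]
  rw [h3] at h1
  have h2 := hC _ _ h1 (by rw [cancel hc.ac]; exact hN)
  rwa [cancel hc.ac, cancel hc.ac] at h2

theorem split {μ : Measure ℝ} {q : ℝ≥0∞} (hc : Ctx μ q) {s f u : ℝ → ℂ} (hs : Measurable s)
    (hf : AEStronglyMeasurable f volume) (hu : AEStronglyMeasurable u volume)
    {A : Set ℝ} (hA : MeasurableSet A) (c : ℂ) :
    eLpNorm (fun y => (1 * A.indicator f y + (-c) * u y) * s y) q μ
      ≤ eLpNorm (fun y => f y * s y) q μ + ‖c‖ₑ * eLpNorm (fun y => u y * s y) q μ := by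
  have e : (fun y => (1 * A.indicator f y + (-c) * u y) * s y)
      = fun y => A.indicator (fun y => f y * s y) y + (-c) * (u y * s y) := by
    funext y
    by_cases hy : y ∈ A
    · rw [Set.indicator_of_mem hy, Set.indicator_of_mem hy]
      ring
    · rw [Set.indicator_of_notMem hy, Set.indicator_of_notMem hy]
      ring
  have m1 : AEStronglyMeasurable (A.indicator (fun y => f y * s y)) μ :=
    ((hf.mono_ac hc.ac).mul hs.aestronglyMeasurable).indicator hA
  have m2 : AEStronglyMeasurable (fun y => (-c) * (u y * s y)) μ :=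
    ((hu.mono_ac hc.ac).mul hs.aestronglyMeasurable).const_mul (-c)
  rw [e]
  refine (N_add hc.one m1 m2).trans (add_le_add (eLpNorm_indicator_le _) ?_)
  rw [N_cmul, enorm_neg]

end CVS

theorem fCVS : St_CVS := by
  intro μ q hc s z a b hs hab hI hB
  obtain ⟨C, hC⟩ := hB
  refine ⟨C, fun f t h hN h0 => ?_⟩
  obtain ⟨G, hG, hGt, hGi⟩ := bCUT f t 0 h
  obtain ⟨u, hu⟩ := bIND a b
  rw [h0] at hGi
  have hd : ((b - a : ℝ) : ℂ) ≠ 0 := Complex.ofReal_ne_zero.mpr (sub_pos.mpr hab).ne'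
  obtain ⟨c, hcdef⟩ : ∃ c : ℕ → ℂ,
      c = fun n => (∫ y, (cutA 0 n).indicator f y) * ((b - a : ℝ) : ℂ)⁻¹ := ⟨_, rfl⟩
  have hc0 : Tendsto c atTop (𝓝 0) := by
    have h1 := hGi.mul_const (((b - a : ℝ) : ℂ)⁻¹)
    rw [zero_mul] at h1
    rw [hcdef]
    exact h1
  have hF : ∀ n, IsHT (fun y => 1 * (cutA 0 n).indicator f y + (-c n) * ind a b y)
      (fun x => 1 * G n x + (-c n) * u x) := fun n => bLIN _ _ _ _ 1 (-c n) (hG n) hu
  have hNle := fun n => CVS.split hc hs h.1.1 hu.1.1 (CV2.cut_meas 0 n) (c n)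
  have hT : ∀ n, eLpNorm (fun x => (1 * G n x + (-c n) * u x) * s x) q μ
      ≤ C * (eLpNorm (fun y => f y * s y) q μ
        + ‖c n‖ₑ * eLpNorm (fun y => ind a b y * s y) q μ) := by
    intro n
    refine (CVS.core hc hC (hF n) ((n : ℝ) + 1 + |a| + |b|) (fun y hy => ?_) ?_ ?_).trans
      (mul_le_mul_right (hNle n) _)
    · have p0 : (0 : ℝ) ≤ n := Nat.cast_nonneg n
      have pa := abs_nonneg a
      have pb := abs_nonneg b
      have a1 : y ∉ cutA 0 n := fun h' => by
        have := h'.2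
        rw [sub_zero] at this
        linarith
      have a2 : y ∉ Set.Ioo a b := fun h' => by
        have q1 := neg_abs_le a
        have q2 := le_abs_self b
        rcases abs_cases y with e | e
        · linarith [h'.2, e.1]
        · linarith [h'.1, e.1]
      unfold ind
      rw [Set.indicator_of_notMem a1, Set.indicator_of_notMem a2]
      simp
    · rw [integral_add ((hG n).1.const_mul 1) (hu.1.const_mul (-c n)), integral_const_mul,
        integral_const_mul, CVS.int_ind hab, hcdef]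
      simp only [one_mul, neg_mul]
      rw [mul_assoc, inv_mul_cancel₀ hd, mul_one, add_neg_cancel]
    · exact ne_top_of_le_ne_top (ENNReal.add_ne_top.mpr ⟨hN,
        ENNReal.mul_ne_top enorm_ne_top hI⟩) (hNle n)
  have hlim : ∀ᵐ x ∂μ,
      Tendsto (fun n => (1 * G n x + (-c n) * u x) * s x) atTop (𝓝 (t x * s x)) := by
    filter_upwards [hc.ac.ae_le hGt] with x hx
    have h1 := (Tendsto.const_mul 1 hx).add (hc0.neg.mul_const (u x))
    have h2 : 1 * t x + -0 * u x = t x := by ring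
    rw [h2] at h1
    exact h1.mul_const (s x)
  have hfat := Lp.eLpNorm_lim_le_liminf_eLpNorm (p := q) (μ := μ)
    (f := fun n x => (1 * G n x + (-c n) * u x) * s x)
    (fun n => ((bMEAS _ _ (hF n)).mono_ac hc.ac).mul hs.aestronglyMeasurable)
    (fun x => t x * s x) hlim
  have hb : Tendsto (fun n => (C : ℝ≥0∞) * (eLpNorm (fun y => f y * s y) q μ
      + ‖c n‖ₑ * eLpNorm (fun y => ind a b y * s y) q μ))
      atTop (𝓝 (C * eLpNorm (fun y => f y * s y) q μ)) := by
    have h1 : Tendsto (fun n => ‖c n‖ₑ) atTop (𝓝 0) := by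
      simpa only [enorm_zero] using hc0.enorm
    have h2 := ENNReal.Tendsto.mul_const h1 (Or.inr hI)
    rw [zero_mul] at h2
    have h3 := h2.const_add (eLpNorm (fun y => f y * s y) q μ)
    rw [add_zero] at h3
    exact ENNReal.Tendsto.const_mul h3 (Or.inr ENNReal.coe_ne_top)
  refine hfat.trans ?_
  rw [← hb.liminf_eq]
  exact liminf_le_liminf (Eventually.of_forall hT)

end Pool.Agent.Lib.HF26
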