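import Pool.Agent.Lib.HF26.Blue

open MeasureTheory Filter Topology Polynomial
open scoped ENNReal NNReal

namespace Pool.Agent.Lib.HF26

open Pool.Agent.Lib.HT26

theorem EIG.inj : Function.Injective (mz Complex.I) := by
  intro x y h
  unfold mz at h
  have h1 := inv_injective h
  have h2 : (x : ℂ) = (y : ℂ) := sub_left_injective h1
  exact_mod_cast h2

theorem EIG.pw (μ : Measure ℝ) (n : ℕ) (y : YY μ) :
    ∀ᵐ x ∂μ, (((mY μ) ^ n) y : ℝ → ℂ) x = y x * mz Complex.I x ^ n := by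
  induction n with
  | zero => exact Eventually.of_forall fun x => by rw [pow_zero, pow_zero, mul_one]; rfl
  | succ n ih =>
    rw [pow_succ', Module.End.mul_apply]
    filter_upwards [ih, mY_coe μ (((mY μ) ^ n) y)] with x h1 h2
    rw [h2, h1, pow_succ, mul_assoc]

theorem EIG.ev (μ : Measure ℝ) (Q : ℂ[X]) (y : YY μ) :
    ∀ᵐ x ∂μ, (aeval (mY μ) Q y : ℝ → ℂ) x = y x * Q.eval (mz Complex.I x) := by
  induction Q using Polynomial.induction_on' with
  | add p q hp hq =>
    rw [map_add, LinearMap.add_apply]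
    filter_upwards [hp, hq, AEEqFun.coeFn_add (aeval (mY μ) p y) (aeval (mY μ) q y)]
      with x h1 h2 h3
    rw [h3, Pi.add_apply, h1, h2, eval_add, mul_add]
  | monomial n a =>
    rw [aeval_monomial, Module.End.mul_apply, Module.algebraMap_end_apply]
    filter_upwards [EIG.pw μ n y, AEEqFun.coeFn_smul a (((mY μ) ^ n) y)] with x h1 h2
    rw [h2, Pi.smul_apply, h1, eval_monomial, smul_eq_mul]
    ring

theorem EIG.nz (Q : ℂ[X]) (hQ : Q ≠ 0) : ∀ᵐ x : ℝ, Q.eval (mz Complex.I x) ≠ 0 := by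
  have h1 : {c : ℂ | Q.IsRoot c}.Finite := Polynomial.finite_setOfPred_isRoot hQ
  have h2 : (mz Complex.I ⁻¹' {c : ℂ | Q.IsRoot c}).Finite := h1.preimage EIG.inj.injOn
  have h3 := h2.measure_zero (volume : Measure ℝ)
  exact (measure_eq_zero_iff_ae_notMem.mp h3).mono fun x hx => hx

theorem EIG.bij (μ : Measure ℝ) (hμ : μ ≪ volume) (Q : ℂ[X]) (hQ : Q ≠ 0) :
    Function.Bijective (aeval (mY μ) Q) := by
  have hz : ∀ᵐ x ∂μ, Q.eval (mz Complex.I x) ≠ 0 := hμ.ae_le (EIG.nz Q hQ)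
  constructor
  · intro y z h
    refine AEEqFun.ext ?_
    filter_upwards [hz, EIG.ev μ Q y, EIG.ev μ Q z] with x h0 h1 h2
    rw [h] at h1
    exact mul_right_cancel₀ h0 (h1.symm.trans h2)
  · intro z
    have hm : Measurable fun x : ℝ => (Q.eval (mz Complex.I x))⁻¹ :=
      (Q.continuous.measurable.comp (mz_meas Complex.I)).inv
    have hs : AEStronglyMeasurable (fun x : ℝ => z x * (Q.eval (mz Complex.I x))⁻¹) μ :=
      z.aestronglyMeasurable.mul hm.aestronglyMeasurable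
    refine ⟨AEEqFun.mk _ hs, AEEqFun.ext ?_⟩
    filter_upwards [hz, EIG.ev μ Q (AEEqFun.mk _ hs), AEEqFun.coeFn_mk _ hs] with x h0 h1 h2
    rw [h1, h2, mul_assoc, inv_mul_cancel₀ h0, mul_one]

theorem fEIG : St_EIG := by
  intro μ hμ
  refine ⟨EIG.ev μ, EIG.nz, EIG.bij μ hμ, fun c y h => ?_, fun q y => ?_⟩
  · apply (EIG.bij μ hμ (X - C c) (X_sub_C_ne_zero c)).1
    rw [map_zero, map_sub, aeval_X, aeval_C, LinearMap.sub_apply, Module.algebraMap_end_apply, h,
      sub_self]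
  · unfold NY
    refine eLpNorm_mono_ae ?_
    filter_upwards [mY_coe μ y] with x hx
    have h1 : ‖mz Complex.I x‖ ≤ 1 := by
      have h2 := mz_norm_le (z := Complex.I) (by simp) x
      simpa using h2
    rw [hx, norm_mul]
    exact mul_le_of_le_one_right (norm_nonneg _) h1

end Pool.Agent.Lib.HF26
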