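import Pool.Agent.Lib.HF26.Blue

/-! Functionals of a bounded operator of finite rank are bounded. -/

open MeasureTheory
open scoped ENNReal NNReal

namespace Pool.Agent.Lib.HF26

namespace FRA

/-- the inclusion of `L^q` in the space of all classes of functions -/
def inc (μ : Measure ℝ) (q : ℝ≥0∞) : Lp ℂ q μ →ₗ[ℂ] YY μ where
  toFun f := f.1
  map_add' _ _ := rfl
  map_smul' _ _ := rfl

end FRA

theorem fFRA : St_FRA := by
  intro μ q hq X _ _ N hN G hG ⟨C, hC⟩ l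
  haveI : Fact (1 ≤ q) := ⟨hq⟩
  let W : Submodule ℂ (Lp ℂ q μ) := (LinearMap.range G).comap (FRA.inc μ q)
  let e : W →ₗ[ℂ] LinearMap.range G :=
    LinearMap.codRestrict _ (FRA.inc μ q ∘ₗ W.subtype) fun w => w.2
  have he : Function.Injective e := by
    intro w w' h
    have h' : (e w : YY μ) = (e w' : YY μ) := congrArg Subtype.val h
    exact Subtype.ext (Subtype.ext h')
  haveI : FiniteDimensional ℂ W :=
    @FiniteDimensional.of_injective ℂ W _ _ _ (LinearMap.range G) _ _ e he hG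
  let L : W →L[ℂ] ℂ := LinearMap.toContinuousLinearMap (l ∘ₗ FRA.inc μ q ∘ₗ W.subtype)
  refine ⟨‖L‖₊ * C, fun x => ?_⟩
  have hx : eLpNorm (G x : ℝ → ℂ) q μ < ⊤ :=
    lt_of_le_of_lt (hC x) (ENNReal.mul_lt_top ENNReal.coe_lt_top (hN.fin x).lt_top)
  let f : Lp ℂ q μ := ⟨G x, hx⟩
  let w : W := ⟨f, LinearMap.mem_range_self G x⟩
  have h1 : ‖L w‖₊ ≤ ‖L‖₊ * ‖w‖₊ := L.le_opNNNorm w
  have h2 : ((‖w‖₊ : ℝ≥0) : ℝ≥0∞) = NY μ q (G x) := Lp.enorm_def f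
  have h3 : ‖(l ∘ₗ G) x‖ₑ = ((‖L w‖₊ : ℝ≥0) : ℝ≥0∞) := rfl
  rw [h3, ENNReal.coe_mul, mul_assoc]
  refine (ENNReal.coe_le_coe.2 h1).trans ?_
  rw [ENNReal.coe_mul, h2]
  exact mul_le_mul_right (hC x) _

end Pool.Agent.Lib.HF26
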