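import Pool.Agent.Lib.HF26.Blue

/-! An operator of finite rank with bounded functionals is bounded. -/

open MeasureTheory
open scoped ENNReal NNReal

namespace Pool.Agent.Lib.HF26

namespace FRC

theorem NY_add {μ : Measure ℝ} {q : ℝ≥0∞} (hq : 1 ≤ q) (y z : YY μ) :
    NY μ q (y + z) ≤ NY μ q y + NY μ q z := by
  unfold NY
  rw [eLpNorm_congr_ae (AEEqFun.coeFn_add y z)]
  exact eLpNorm_add_le y.aestronglyMeasurable z.aestronglyMeasurable hq

theorem NY_smul (μ : Measure ℝ) (q : ℝ≥0∞) (c : ℂ) (y : YY μ) :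
    NY μ q (c • y) = ‖c‖ₑ * NY μ q y := by
  unfold NY
  rw [eLpNorm_congr_ae (AEEqFun.coeFn_smul c y)]
  exact eLpNorm_const_smul c _ q μ

theorem NY_zero (μ : Measure ℝ) (q : ℝ≥0∞) : NY μ q 0 = 0 := by
  unfold NY
  rw [eLpNorm_congr_ae AEEqFun.coeFn_zero]
  exact eLpNorm_zero

theorem NY_sum {μ : Measure ℝ} {q : ℝ≥0∞} (hq : 1 ≤ q) {ι : Type} (s : Finset ι) (g : ι → YY μ) :
    NY μ q (∑ i ∈ s, g i) ≤ ∑ i ∈ s, NY μ q (g i) := by
  classical
  induction s using Finset.induction_on with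
  | empty => rw [Finset.sum_empty, Finset.sum_empty, NY_zero]
  | insert a s ha ih =>
    rw [Finset.sum_insert ha, Finset.sum_insert ha]
    exact (NY_add hq _ _).trans (add_le_add le_rfl ih)

end FRC

theorem fFRC : St_FRC := by
  intro μ q hq X _ _ N _ G hG hfin hl
  haveI : Module.Free ℂ (LinearMap.range G) := Module.Free.of_divisionRing ℂ (LinearMap.range G)
  let b := Module.finBasis ℂ (LinearMap.range G)
  have hex : ∀ i, ∃ l : YY μ →ₗ[ℂ] ℂ, l ∘ₗ (LinearMap.range G).subtype = b.coord i :=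
    fun i => LinearMap.exists_extend (b.coord i)
  choose l hlb using hex
  choose K hK using fun i => hl (l i)
  have hb : ∀ i, NY μ q (b i : YY μ) ≠ ⊤ := by
    intro i
    obtain ⟨x, hx⟩ := (b i).2
    rw [← hx]; exact hfin x
  refine ⟨∑ i, K i * (NY μ q (b i : YY μ)).toNNReal, fun x => ?_⟩
  have h1 : G x = ∑ i, l i (G x) • (b i : YY μ) := by
    have h2 := congrArg (LinearMap.range G).subtype (b.sum_repr ⟨G x, LinearMap.mem_range_self G x⟩)
    rw [map_sum] at h2
    refine h2.symm.trans (Finset.sum_congr rfl fun i _ => ?_)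
    have h3 := LinearMap.congr_fun (hlb i) ⟨G x, LinearMap.mem_range_self G x⟩
    rw [map_smul]
    exact congrArg (fun c : ℂ => c • (b i : YY μ)) h3.symm
  have h4 : NY μ q (G x) ≤ ∑ i, NY μ q (l i (G x) • (b i : YY μ)) := by
    conv_lhs => rw [h1]
    exact FRC.NY_sum hq _ _
  refine h4.trans ?_
  rw [ENNReal.coe_finset_sum, Finset.sum_mul]
  refine Finset.sum_le_sum fun i _ => ?_
  rw [FRC.NY_smul, ENNReal.coe_mul, ENNReal.coe_toNNReal (hb i), mul_right_comm]
  exact mul_le_mul_left (hK i x) _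

end Pool.Agent.Lib.HF26
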