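import Pool.Agent.Lib.HF26.Blue

open MeasureTheory Filter Topology
open scoped ENNReal NNReal

namespace Pool.Agent.Lib.HF26

open Pool.Agent.Lib.HT26

namespace G0

theorem coe_sum {μ : Measure ℝ} {ι : Type} (s : Finset ι) (c : ι → ℂ) (g : ι → YY μ) :
    ∀ᵐ x ∂μ, ((∑ j ∈ s, c j • g j : YY μ) : ℝ → ℂ) x = ∑ j ∈ s, c j * (g j : ℝ → ℂ) x := by
  classical
  induction s using Finset.induction_on with
  | empty =>
    rw [Finset.sum_empty]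
    filter_upwards [AEEqFun.coeFn_zero (α := ℝ) (β := ℂ) (μ := μ)] with x hx
    rw [hx, Finset.sum_empty, Pi.zero_apply]
  | insert a s ha ih =>
    rw [Finset.sum_insert ha]
    filter_upwards [ih, AEEqFun.coeFn_add (c a • g a) (∑ j ∈ s, c j • g j),
      AEEqFun.coeFn_smul (c a) (g a)] with x h1 h2 h3
    rw [h2, Pi.add_apply, h1, h3, Finset.sum_insert ha, Pi.smul_apply, smul_eq_mul]

end G0

theorem fG0 (hR0 : St_R0) (hXS : St_XS) : St_G0 := by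
  intro μ q hc n φ hφ hA
  obtain ⟨C, hC⟩ := hA
  obtain ⟨X, T, MX, hX, hT, -, -, -, hSN, ha⟩ := hXS μ q hc
  choose a ha using fun j => ha (φ j) (hφ j)
  have hb : ∃ C : ℝ≥0, ∀ x : X, (∀ j, a j x = 0) →
      NY μ q (T x) ≤ C * eLpNorm (x : ℝ → ℂ) q μ := by
    refine ⟨C, fun x hx => ?_⟩
    obtain ⟨⟨t, ht⟩, hf⟩ := (hX x).1 x.2
    have e : NY μ q (T x) = eLpNorm t q μ := eLpNorm_congr_ae (hT x t ht)
    rw [e]
    exact hC x t ht hf fun j => (ha j x).symm.trans (hx j)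
  obtain ⟨g, K, hK⟩ := hR0 μ q hc.one X _ hSN n a T hb
  refine ⟨fun j => (g j : ℝ → ℂ), fun j => (g j).aestronglyMeasurable, K, fun f t hft hf => ?_⟩
  have hm : f ∈ X := (hX f).2 ⟨⟨t, hft⟩, hf⟩
  have h1 := hK ⟨f, hm⟩
  have e1 : (T - ∑ j, (a j).smulRight (g j)) ⟨f, hm⟩ = T ⟨f, hm⟩ - ∑ j, a j ⟨f, hm⟩ • g j := by
    rw [LinearMap.sub_apply, LinearMap.sum_apply]
    rfl
  rw [e1] at h1
  have e2 : eLpNorm (fun x => t x - ∑ j, (∫ y, f y * φ j y) * (g j : ℝ → ℂ) x) q μ =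
      NY μ q (T ⟨f, hm⟩ - ∑ j, a j ⟨f, hm⟩ • g j) := by
    refine eLpNorm_congr_ae ?_
    filter_upwards [hT ⟨f, hm⟩ t hft, AEEqFun.coeFn_sub (T ⟨f, hm⟩) (∑ j, a j ⟨f, hm⟩ • g j),
      G0.coe_sum Finset.univ (fun j => a j ⟨f, hm⟩) g] with x h2 h3 h4
    rw [h3, Pi.sub_apply, h2, h4]
    exact congrArg (fun w => t x - w) (Finset.sum_congr rfl fun j _ => by rw [ha j ⟨f, hm⟩])
  rw [e2]
  exact h1

end Pool.Agent.Lib.HF26
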