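import Pool.Agent.Lib.HF26.Blue
import Pool.Agent.Lib.HT26.B_ID1

open MeasureTheory Filter Topology Polynomial
open scoped ENNReal NNReal

namespace Pool.Agent.Lib.HF26

open Pool.Agent.Lib.HT26

namespace G3A

/-- the class of 1/(x-i) -/
noncomputable def mm (μ : Measure ℝ) : YY μ :=
  AEEqFun.mk (mz Complex.I) (mz_meas Complex.I).aestronglyMeasurable

theorem mm_coe (μ : Measure ℝ) : ∀ᵐ x ∂μ, (mm μ : ℝ → ℂ) x = mz Complex.I x :=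
  AEEqFun.coeFn_mk _ _

theorem I_im : (Complex.I : ℂ).im ≠ 0 := by simp

theorem sub_ne (x : ℝ) : (x : ℂ) - Complex.I ≠ 0 := by
  intro h
  have h1 := congrArg Complex.im h
  simp at h1

theorem mz_ne (x : ℝ) : mz Complex.I x ≠ 0 := inv_ne_zero (sub_ne x)

theorem mm_ne {μ : Measure ℝ} (h : μ ≠ 0) : mm μ ≠ 0 := by
  intro h0
  have h1 := mm_coe μ
  rw [h0] at h1
  have h2 : ∀ᵐ x ∂μ, False := by
    filter_upwards [h1, (AEEqFun.coeFn_zero : ((0 : YY μ) : ℝ → ℂ) =ᵐ[μ] 0)] with x hx hz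
    rw [hz] at hx
    exact mz_ne x hx.symm
  rw [eventually_false_iff_eq_bot, ae_eq_bot] at h2
  exact h h2

theorem smul_coe {μ : Measure ℝ} (c : ℂ) (y : YY μ) :
    ∀ᵐ x ∂μ, ((c • y : YY μ) : ℝ → ℂ) x = c * y x := by
  filter_upwards [AEEqFun.coeFn_smul c y] with x hx
  rw [hx, Pi.smul_apply, smul_eq_mul]

theorem sub_coe {μ : Measure ℝ} (y z : YY μ) :
    ∀ᵐ x ∂μ, ((y - z : YY μ) : ℝ → ℂ) x = y x - z x := by
  filter_upwards [AEEqFun.coeFn_sub y z] with x hx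
  rw [hx, Pi.sub_apply]

theorem sum_coe {μ : Measure ℝ} {n : ℕ} (g : Fin n → ℝ → ℂ)
    (hg : ∀ j, AEStronglyMeasurable (g j) μ) (c : Fin n → ℂ) :
    ∀ᵐ x ∂μ, ((∑ j, c j • (AEEqFun.mk (g j) (hg j) : YY μ) : YY μ) : ℝ → ℂ) x =
      ∑ j, c j * g j x := by
  have h1 : ∀ᵐ x ∂μ, ∀ j, ((c j • (AEEqFun.mk (g j) (hg j) : YY μ) : YY μ) : ℝ → ℂ) x =
      c j * g j x := by
    rw [ae_all_iff]
    intro j
    filter_upwards [smul_coe (c j) (AEEqFun.mk (g j) (hg j) : YY μ),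
      AEEqFun.coeFn_mk (g j) (hg j)] with x hx hy
    rw [hx, hy]
  filter_upwards [h1, AEEqFun.coeFn_fun_finsetSum Finset.univ
    (fun j => c j • (AEEqFun.mk (g j) (hg j) : YY μ))] with x hx hs
  rw [hs]
  exact Finset.sum_congr rfl fun j _ => hx j

theorem NY_eq {μ : Measure ℝ} {q : ℝ≥0∞} {y : YY μ} {f : ℝ → ℂ}
    (h : ∀ᵐ x ∂μ, (y : ℝ → ℂ) x = f x) : NY μ q y = eLpNorm f q μ :=
  eLpNorm_congr_ae h

/-- the commutator of T with the multiplication -/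
theorem comm {μ : Measure ℝ} {q : ℝ≥0∞} {X : Submodule ℂ (ℝ → ℂ)} {T : X →ₗ[ℂ] YY μ}
    {MX : X →ₗ[ℂ] X} (hX : ∀ f, f ∈ X ↔ (∃ t, IsHT f t) ∧ eLpNorm f q μ ≠ ⊤)
    (hT : ∀ (f : X) t, IsHT f t → ∀ᵐ x ∂μ, (T f : ℝ → ℂ) x = t x)
    (hM : ∀ (f : X) (y : ℝ), (MX f : ℝ → ℂ) y = (f : ℝ → ℂ) y * mz Complex.I y) (f : X) :
    T (MX f) - mY μ (T f) =
      ((Real.pi : ℂ)⁻¹ * ∫ y, (f : ℝ → ℂ) y * mz Complex.I y) • mm μ := by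
  obtain ⟨⟨t, ht⟩, -⟩ := (hX f).1 f.2
  have h1 := bID1 f t Complex.I ht ((mz_BM I_im).int ht.1)
  have e : (MX f : ℝ → ℂ) = fun y => (f : ℝ → ℂ) y * mz Complex.I y := funext (hM f)
  rw [← e] at h1
  refine AEEqFun.ext ?_
  filter_upwards [sub_coe (T (MX f)) (mY μ (T f)), hT _ _ h1, mY_coe μ (T f), hT f t ht,
    smul_coe ((Real.pi : ℂ)⁻¹ * ∫ y, (f : ℝ → ℂ) y * mz Complex.I y) (mm μ), mm_coe μ]
    with x a1 a2 a3 a4 a5 a6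
  rw [a1, a2, a3, a4, a5, a6, e]
  ring

/-- T minus the finite rank part is bounded -/
theorem bop {μ : Measure ℝ} {q : ℝ≥0∞} {X : Submodule ℂ (ℝ → ℂ)} {T : X →ₗ[ℂ] YY μ}
    (hX : ∀ f, f ∈ X ↔ (∃ t, IsHT f t) ∧ eLpNorm f q μ ≠ ⊤)
    (hT : ∀ (f : X) t, IsHT f t → ∀ᵐ x ∂μ, (T f : ℝ → ℂ) x = t x)
    {n : ℕ} {φ g : Fin n → ℝ → ℂ} (hg : ∀ j, AEStronglyMeasurable (g j) μ)
    (hR : RKF μ q n φ g) {a : Fin n → X →ₗ[ℂ] ℂ}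
    (ha : ∀ j (f : X), a j f = ∫ y, (f : ℝ → ℂ) y * φ j y) :
    ∃ C : ℝ≥0, ∀ f : X, NY μ q (T f - ∑ j, a j f • (AEEqFun.mk (g j) (hg j) : YY μ)) ≤
      C * eLpNorm (f : ℝ → ℂ) q μ := by
  obtain ⟨C, hC⟩ := hR
  refine ⟨C, fun f => ?_⟩
  obtain ⟨⟨t, ht⟩, hf⟩ := (hX f).1 f.2
  refine le_trans (le_of_eq (NY_eq ?_)) (hC f t ht hf)
  filter_upwards [sub_coe (T f) (∑ j, a j f • (AEEqFun.mk (g j) (hg j) : YY μ)), hT f t ht,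
    sum_coe g hg (fun j => a j f)] with x a1 a2 a3
  rw [a1, a2, a3]
  simp only [ha]

end G3A

open G3A in
theorem fG3A (hXS : St_XS) (hEIG : St_EIG) (hS2 : St_S2) (hS3 : St_S3) : St_G3A := by
  intro μ q hc hμ n φ g hφ hg hR hm
  obtain ⟨X, T, MX, hX, hT, hQ, hM, hMN, hSN, hev⟩ := hXS μ q hc
  choose a ha using fun j => hev (φ j) (hφ j)
  obtain ⟨am, ham⟩ := hev _ (mz_BM I_im)
  obtain ⟨hE1, hE2, -, -, -⟩ := hEIG μ hc.ac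
  obtain ⟨hF, -⟩ := hS2 μ q hc n φ g hφ hg hR
  have hcomm : ∀ x : X, T (MX x) - mY μ (T x) = ((Real.pi : ℂ)⁻¹ • am) x • mm μ := by
    intro x
    rw [comm hX hT hM x, LinearMap.smul_apply, ham, smul_eq_mul]
  have hB : BOp μ q (fun f : X => eLpNorm (f : ℝ → ℂ) q μ)
      (T - ∑ j, (a j).smulRight (AEEqFun.mk (g j) (hg j) : YY μ)) := by
    obtain ⟨C, hC⟩ := bop hX hT hg hR ha
    refine ⟨C, fun x => ?_⟩
    rw [LinearMap.sub_apply, LinearMap.sum_apply]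
    exact hC x
  have hL : ∀ x : X, NY μ q (∑ j, a j x • (AEEqFun.mk (g j) (hg j) : YY μ)) ≠ ⊤ := by
    intro x
    obtain ⟨⟨t, ht⟩, hf⟩ := (hX x).1 x.2
    have h1 := hF x t ht hf
    have hmm : AEStronglyMeasurable (mz Complex.I) μ := (mz_meas Complex.I).aestronglyMeasurable
    have hs : AEStronglyMeasurable (fun z => ∑ j, (∫ y, (x : ℝ → ℂ) y * φ j y) * g j z) μ :=
      Finset.aestronglyMeasurable_fun_sum _ fun j _ => (hg j).const_mul _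
    have h2 := N_add (μ := μ) hc.one
      (hs.sub (hmm.const_mul ((Real.pi : ℂ)⁻¹ * ∫ y, (x : ℝ → ℂ) y)))
      (hmm.const_mul ((Real.pi : ℂ)⁻¹ * ∫ y, (x : ℝ → ℂ) y))
    have h3 : eLpNorm (fun z => ((Real.pi : ℂ)⁻¹ * ∫ y, (x : ℝ → ℂ) y) * mz Complex.I z) q μ
        ≠ ⊤ := by
      rw [N_cmul]
      exact ENNReal.mul_ne_top enorm_ne_top hm
    refine ne_top_of_le_ne_top (ENNReal.add_ne_top.2 ⟨h1, h3⟩) (le_trans (le_of_eq (NY_eq ?_)) h2)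
    filter_upwards [sum_coe g hg (fun j => a j x)] with z hz
    rw [hz, Pi.sub_apply, sub_add_cancel]
    simp only [ha]
  obtain ⟨r, Q, hr, hQ0, hQr, S, ⟨C, hC⟩, hS⟩ := hS3 μ q hc.one hc.ac X _ hSN MX hMN T _ _
    (mm_ne hμ) hcomm n a _ hB hL
  refine ⟨r, Q, hr, hQ0, hQr, C, fun f t0 t ht0 hf ht => ?_⟩
  have hfX : f ∈ X := (hX f).2 ⟨⟨t0, ht0⟩, hf⟩
  have e : (aeval MX Q (⟨f, hfX⟩ : X) : ℝ → ℂ) = fun y => f y * Q.eval (mz Complex.I y) :=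
    funext (hQ Q ⟨f, hfX⟩)
  rw [← e] at ht
  refine le_trans (le_of_eq (NY_eq ?_).symm) (hC ⟨f, hfX⟩)
  have h1 := hE1 Q (S ⟨f, hfX⟩)
  rw [hS] at h1
  filter_upwards [h1, hT _ _ ht, hc.ac.ae_le (hE2 Q hQ0)] with x a1 a2 a3
  rw [← a2, a1, mul_assoc, mul_inv_cancel₀ a3, mul_one]

end Pool.Agent.Lib.HF26
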