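import Pool.Agent.Lib.HF26.F_G3A

open MeasureTheory Filter Topology Polynomial
open scoped ENNReal NNReal

namespace Pool.Agent.Lib.HF26

open Pool.Agent.Lib.HT26

namespace G3B

theorem int_one {n : ℕ} {φ : Fin n → ℝ → ℂ} (hφ : ∀ j, BM (φ j)) {c : Fin n → ℂ}
    (hc : ∀ᵐ y : ℝ, ∑ j, c j * φ j y = 1) {f : ℝ → ℂ} (hf : Integrable f) :
    ∫ y, f y = ∑ j, c j * ∫ y, f y * φ j y := by
  have h1 : ∫ y, f y = ∫ y, ∑ j, c j * (f y * φ j y) := by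
    refine integral_congr_ae ?_
    filter_upwards [hc] with y hy
    have : ∑ j, c j * (f y * φ j y) = f y * ∑ j, c j * φ j y := by
      rw [Finset.mul_sum]
      exact Finset.sum_congr rfl fun j _ => by ring
    rw [this, hy, mul_one]
  rw [h1, integral_finsetSum _ fun j _ => ((hφ j).int hf).const_mul (c j)]
  exact Finset.sum_congr rfl fun j _ => integral_const_mul _ _

theorem sum_split {Y : Type} [AddCommGroup Y] [Module ℂ Y] {n : ℕ} (a c : Fin n → ℂ)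
    (g : Fin n → Y) (p : ℂ) (m : Y) :
    ∑ j, a j • (g j - (p * c j) • m) = ∑ j, a j • g j - (p * ∑ j, c j * a j) • m := by
  rw [Finset.mul_sum, Finset.sum_smul, ← Finset.sum_sub_distrib]
  refine Finset.sum_congr rfl fun j _ => ?_
  rw [smul_sub, smul_smul, show a j * (p * c j) = p * (c j * a j) by ring]

end G3B

open G3A G3B in
theorem fG3B (hXS : St_XS) (hEIG : St_EIG) (hS2 : St_S2) (hS3 : St_S3) : St_G3B := by
  intro μ q hc n φ g hφ hg hR hm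
  have hμ : μ ≠ 0 := by
    rintro rfl
    rw [eLpNorm_measure_zero] at hm
    exact ENNReal.zero_ne_top hm
  obtain ⟨X, T, MX, hX, hT, hQ, hM, hMN, hSN, hev⟩ := hXS μ q hc
  choose a ha using fun j => hev (φ j) (hφ j)
  obtain ⟨a1, ha1'⟩ := hev _ (BM.const 1)
  have ha1 : ∀ f : X, a1 f = ∫ y, (f : ℝ → ℂ) y := fun f => by
    rw [ha1']
    simp only [mul_one]
  obtain ⟨hE1, hE2, -, hE4, -⟩ := hEIG μ hc.ac
  obtain ⟨hF, hc1⟩ := hS2 μ q hc n φ g hφ hg hR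
  obtain ⟨c, hcφ⟩ := hc1 hm
  have hn : 1 ≤ n := by
    rcases Nat.eq_zero_or_pos n with rfl | h
    · obtain ⟨y, hy⟩ := hcφ.exists
      simp at hy
    · exact h
  refine ⟨hn, ?_⟩
  have hsum : ∀ x : X, ∑ j, c j * a j x = ∫ y, (x : ℝ → ℂ) y := by
    intro x
    obtain ⟨⟨t, ht⟩, -⟩ := (hX x).1 x.2
    rw [int_one hφ hcφ ht.1]
    simp only [ha]
  have hy1 : mY μ (mm μ) ≠ 0 := fun h => mm_ne hμ (hE4 0 _ (h.trans (zero_smul ℂ (mm μ)).symm))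
  have hT1 : ∀ x : X, (T - ((Real.pi : ℂ)⁻¹ • a1).smulRight (mm μ)) x =
      T x - ((Real.pi : ℂ)⁻¹ * ∫ y, (x : ℝ → ℂ) y) • mm μ := by
    intro x
    rw [LinearMap.sub_apply, LinearMap.smulRight_apply, LinearMap.smul_apply, ha1, smul_eq_mul]
  have hcomm : ∀ x : X, (T - ((Real.pi : ℂ)⁻¹ • a1).smulRight (mm μ)) (MX x)
      - mY μ ((T - ((Real.pi : ℂ)⁻¹ • a1).smulRight (mm μ)) x) =
      ((Real.pi : ℂ)⁻¹ • a1) x • mY μ (mm μ) := by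
    intro x
    have h1 := comm hX hT hM x
    have e : (MX x : ℝ → ℂ) = fun y => (x : ℝ → ℂ) y * mz Complex.I y := funext (hM x)
    rw [hT1, hT1, map_sub, map_smul, LinearMap.smul_apply, ha1, smul_eq_mul, e, ← h1]
    abel
  have hF1 : ∀ x : X, ∑ j, a j x • ((AEEqFun.mk (g j) (hg j) : YY μ)
      - ((Real.pi : ℂ)⁻¹ * c j) • mm μ) = ∑ j, a j x • (AEEqFun.mk (g j) (hg j) : YY μ)
      - ((Real.pi : ℂ)⁻¹ * ∫ y, (x : ℝ → ℂ) y) • mm μ := by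
    intro x
    rw [← hsum]
    exact sum_split (fun j => a j x) c (fun j => (AEEqFun.mk (g j) (hg j) : YY μ)) _ (mm μ)
  have hB : BOp μ q (fun f : X => eLpNorm (f : ℝ → ℂ) q μ)
      ((T - ((Real.pi : ℂ)⁻¹ • a1).smulRight (mm μ)) - ∑ j, (a j).smulRight
        ((AEEqFun.mk (g j) (hg j) : YY μ) - ((Real.pi : ℂ)⁻¹ * c j) • mm μ)) := by
    obtain ⟨C, hC⟩ := bop hX hT hg hR ha
    refine ⟨C, fun x => ?_⟩
    rw [LinearMap.sub_apply, LinearMap.sum_apply, hT1]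
    simp only [LinearMap.smulRight_apply]
    rw [hF1, sub_sub_sub_cancel_right]
    exact hC x
  have hL : ∀ x : X, NY μ q (∑ j, a j x • ((AEEqFun.mk (g j) (hg j) : YY μ)
      - ((Real.pi : ℂ)⁻¹ * c j) • mm μ)) ≠ ⊤ := by
    intro x
    obtain ⟨⟨t, ht⟩, hf⟩ := (hX x).1 x.2
    refine ne_top_of_le_ne_top (hF x t ht hf) (le_of_eq (NY_eq ?_))
    rw [hF1]
    filter_upwards [sub_coe (∑ j, a j x • (AEEqFun.mk (g j) (hg j) : YY μ))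
      (((Real.pi : ℂ)⁻¹ * ∫ y, (x : ℝ → ℂ) y) • mm μ), sum_coe g hg (fun j => a j x),
      smul_coe ((Real.pi : ℂ)⁻¹ * ∫ y, (x : ℝ → ℂ) y) (mm μ), mm_coe μ] with z b1 b2 b3 b4
    rw [b1, b2, b3, b4]
    simp only [ha]
  obtain ⟨r, Q, hr, hQ0, hQr, S, ⟨C, hC⟩, hS⟩ := hS3 μ q hc.one hc.ac X _ hSN MX hMN _ _ _
    hy1 hcomm n a _ hB hL
  refine ⟨r, Q, hr, hQ0, hQr, C, fun f t0 t ht0 hf ht => ?_⟩
  have hfX : f ∈ X := (hX f).2 ⟨⟨t0, ht0⟩, hf⟩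
  have h0 := bID1 _ t Complex.I ht ((mz_BM I_im).int ht.1)
  have e : (aeval MX Q (⟨f, hfX⟩ : X) : ℝ → ℂ) = fun y : ℝ =>
      f y * (Q.eval (mz Complex.I y) * ((y : ℂ) - Complex.I)) * mz Complex.I y := by
    funext y
    rw [hQ Q ⟨f, hfX⟩ y, mul_assoc, mul_assoc, show ((y : ℂ) - Complex.I) * mz Complex.I y = 1 from
      mul_inv_cancel₀ (sub_ne y), mul_one]
  rw [← e] at h0
  refine le_trans (le_of_eq (NY_eq ?_).symm) (hC ⟨f, hfX⟩)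
  have h1 := hE1 Q (S ⟨f, hfX⟩)
  rw [hS, hT1] at h1
  filter_upwards [h1, hT _ _ h0, hc.ac.ae_le (hE2 Q hQ0),
    sub_coe (T (aeval MX Q (⟨f, hfX⟩ : X)))
      (((Real.pi : ℂ)⁻¹ * ∫ y, (aeval MX Q (⟨f, hfX⟩ : X) : ℝ → ℂ) y) • mm μ),
    smul_coe ((Real.pi : ℂ)⁻¹ * ∫ y, (aeval MX Q (⟨f, hfX⟩ : X) : ℝ → ℂ) y) (mm μ), mm_coe μ]
    with x b1 b2 b3 b4 b5 b6
  rw [b4, b2, b5, b6] at b1
  have b7 : t x * mz Complex.I x = (S ⟨f, hfX⟩ : ℝ → ℂ) x * Q.eval (mz Complex.I x) := by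
    rw [← b1]
    ring
  rw [mul_inv, mul_comm (Q.eval (mz Complex.I x))⁻¹, ← mul_assoc,
    show t x * ((x : ℂ) - Complex.I)⁻¹ = t x * mz Complex.I x from rfl, b7, mul_assoc,
    mul_inv_cancel₀ b3, mul_one]

end Pool.Agent.Lib.HF26
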