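import Pool.Agent.Lib.HF26.Blue2
import Pool.Agent.Lib.HF26.F_G3A

open MeasureTheory Filter Topology Polynomial
open scoped ENNReal NNReal

namespace Pool.Agent.Lib.HF26

open Pool.Agent.Lib.HT26

namespace G3V

theorem BM_pow (j : ℕ) : BM (fun y => mz Complex.I y ^ j) := by
  induction j with
  | zero => simpa using BM.const 1
  | succ j ih => simpa only [pow_succ] using ih.mul (mz_BM G3A.I_im)

theorem int_eq {n : ℕ} {φ : Fin n → ℝ → ℂ} (hφ : ∀ j, BM (φ j)) {χ : ℝ → ℂ} (hχ : BM χ)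
    (c : Fin n → ℂ) {f : ℝ → ℂ} (hf : Integrable f) :
    ∫ y, f y * (χ y - ∑ l, c l * φ l y) =
      (∫ y, f y * χ y) - ∑ l, c l * ∫ y, f y * φ l y := by
  have hi : ∀ l ∈ (Finset.univ : Finset (Fin n)), Integrable (fun y => c l * (f y * φ l y)) :=
    fun l _ => ((hφ l).int hf).const_mul (c l)
  have h1 : ∫ y, f y * (χ y - ∑ l, c l * φ l y) =
      ∫ y, (f y * χ y - ∑ l, c l * (f y * φ l y)) := by
    refine integral_congr_ae (Eventually.of_forall fun y => ?_)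
    have : f y * ∑ l, c l * φ l y = ∑ l, c l * (f y * φ l y) := by
      rw [Finset.mul_sum]
      exact Finset.sum_congr rfl fun l _ => by ring
    change f y * (χ y - ∑ l, c l * φ l y) = f y * χ y - ∑ l, c l * (f y * φ l y)
    rw [mul_sub, this]
  rw [h1, integral_sub (hχ.int hf) (integrable_finsetSum _ hi), integral_finsetSum _ hi]
  simp only [integral_const_mul]

end G3V

open G3A G3V in
theorem fG3V (hXS : St_XS) (hS3V : St_S3V) : St_G3V := by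
  intro μ q hc hμ n φ g hφ hg hR j hj
  obtain ⟨i, rfl⟩ : ∃ i, j = i + 1 := ⟨j - 1, by omega⟩
  obtain ⟨X, T, MX, hX, hT, hQ, hM, hMN, hSN, hev⟩ := hXS μ q hc
  choose a ha using fun j => hev (φ j) (hφ j)
  obtain ⟨am, ham⟩ := hev _ (mz_BM I_im)
  have hcomm : ∀ x : X, T (MX x) - mY μ (T x) = ((Real.pi : ℂ)⁻¹ • am) x • mm μ := by
    intro x
    rw [comm hX hT hM x, LinearMap.smul_apply, ham, smul_eq_mul]
  have hB : BOp μ q (fun f : X => eLpNorm (f : ℝ → ℂ) q μ)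
      (T - ∑ j, (a j).smulRight (AEEqFun.mk (g j) (hg j) : YY μ)) := by
    obtain ⟨C, hC⟩ := bop hX hT hg hR ha
    refine ⟨C, fun x => ?_⟩
    rw [LinearMap.sub_apply, LinearMap.sum_apply]
    exact hC x
  obtain ⟨c, K, hK⟩ := hS3V μ q hc.one hc.ac X _ hSN MX hMN T _ _ (mm_ne hμ) hcomm n a _ hB i
  have hpi : (Real.pi : ℂ) ≠ 0 := Complex.ofReal_ne_zero.2 Real.pi_ne_zero
  refine ⟨fun l => (Real.pi : ℂ) * c l, ‖(Real.pi : ℂ)‖₊ * K, fun f t ht hf => ?_⟩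
  have hfX : f ∈ X := (hX f).2 ⟨⟨t, ht⟩, hf⟩
  have e : ∀ y, (((MX ^ i) (⟨f, hfX⟩ : X) : X) : ℝ → ℂ) y = f y * mz Complex.I y ^ i := by
    intro y
    have h := hQ (Polynomial.X ^ i) ⟨f, hfX⟩ y
    rwa [map_pow, aeval_X, eval_pow, eval_X] at h
  have h1 := hK ⟨f, hfX⟩
  have h2 : ∫ y, f y * (mz Complex.I y ^ (i + 1) - ∑ l, (Real.pi : ℂ) * c l * φ l y) =
      (Real.pi : ℂ) * ((((Real.pi : ℂ)⁻¹ • am) ∘ₗ (MX ^ i) - ∑ j, c j • a j) ⟨f, hfX⟩) := by
    rw [int_eq hφ (BM_pow (i + 1)) (fun l => (Real.pi : ℂ) * c l) ht.1, LinearMap.sub_apply,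
      LinearMap.comp_apply, LinearMap.smul_apply, ham, LinearMap.sum_apply, smul_eq_mul, mul_sub,
      ← mul_assoc, mul_inv_cancel₀ hpi, one_mul, Finset.mul_sum]
    have h3 : ∫ y, (((MX ^ i) (⟨f, hfX⟩ : X) : X) : ℝ → ℂ) y * mz Complex.I y =
        ∫ y, f y * mz Complex.I y ^ (i + 1) := by
      refine integral_congr_ae (Eventually.of_forall fun y => ?_)
      change (((MX ^ i) (⟨f, hfX⟩ : X) : X) : ℝ → ℂ) y * mz Complex.I y =
        f y * mz Complex.I y ^ (i + 1)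
      rw [e, pow_succ, mul_assoc]
    rw [h3]
    refine congrArg _ (Finset.sum_congr rfl fun l _ => ?_)
    rw [LinearMap.smul_apply, ha, smul_eq_mul, mul_assoc]
  rw [h2, enorm_mul, ENNReal.coe_mul, mul_assoc]
  exact mul_le_mul_right h1 _

end Pool.Agent.Lib.HF26
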