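import Pool.Agent.Lib.HF26.Blue
import Pool.Agent.Lib.HT26.B_LIN
import Pool.Agent.Lib.HT26.B_ID1

/-! Row HP: the Hilbert transform commutes with a rational multiplier on the joint kernel. -/

open MeasureTheory Polynomial

namespace Pool.Agent.Lib.HF26

open Pool.Agent.Lib.HT26

namespace HP

lemma ht_of_eq {f g t s : ℝ → ℂ} (h : IsHT f t) (hf : ∀ y, g y = f y) (ht : ∀ x, s x = t x) :
    IsHT g s := by
  have e1 : g = f := funext hf
  have e2 : s = t := funext ht
  rw [e1, e2]; exact h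

lemma int_mul {g : ℝ → ℂ} (hg : Integrable g) : Integrable fun y => g y * mz Complex.I y := by
  have hz : Complex.I.im ≠ 0 := by simp
  exact hg.mul_bdd (c := |Complex.I.im|⁻¹) (mz_meas Complex.I).aestronglyMeasurable
    (Filter.Eventually.of_forall fun y => mz_norm_le hz y)

lemma pow_ht (k : ℕ) {f t : ℝ → ℂ} (h : IsHT f t)
    (h0 : ∀ j : ℕ, 1 ≤ j → j ≤ k → ∫ y, f y * mz Complex.I y ^ j = 0) (j : ℕ) (hj : j ≤ k) :
    IsHT (fun y => f y * mz Complex.I y ^ j) (fun x => t x * mz Complex.I x ^ j) := by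
  induction j with
  | zero => exact ht_of_eq h (fun y => by rw [pow_zero, mul_one]) fun x => by rw [pow_zero, mul_one]
  | succ j ih =>
    have h1 := ih (Nat.le_of_succ_le hj)
    have h2 := bID1 _ _ Complex.I h1 (int_mul h1.1)
    have e : (fun y => f y * mz Complex.I y ^ j * mz Complex.I y) =
        fun y => f y * mz Complex.I y ^ (j + 1) := funext fun y => by rw [pow_succ, mul_assoc]
    have h3 : ∫ y, f y * mz Complex.I y ^ j * mz Complex.I y = 0 := by
      rw [e]; exact h0 (j + 1) (Nat.succ_le_succ (Nat.zero_le j)) hj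
    refine ht_of_eq h2 (fun y => by rw [pow_succ, mul_assoc]) fun x => ?_
    rw [h3, mul_zero, add_zero, pow_succ, mul_assoc]

lemma sum_ht (k : ℕ) {f t : ℝ → ℂ} (h : IsHT f t)
    (h0 : ∀ j : ℕ, 1 ≤ j → j ≤ k → ∫ y, f y * mz Complex.I y ^ j = 0) (c : ℕ → ℂ) (n : ℕ)
    (hn : n ≤ k + 1) :
    IsHT (fun y => f y * ∑ j ∈ Finset.range n, c j * mz Complex.I y ^ j)
      (fun x => t x * ∑ j ∈ Finset.range n, c j * mz Complex.I x ^ j) ∧
    (∫ y, f y = 0 → ∫ y, f y * ∑ j ∈ Finset.range n, c j * mz Complex.I y ^ j = 0) := by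
  induction n with
  | zero =>
    refine ⟨ht_of_eq (bLIN f t f t 0 0 h h) (fun y => ?_) fun x => ?_, fun _ => ?_⟩
    · rw [Finset.sum_range_zero]; ring
    · rw [Finset.sum_range_zero]; ring
    · simp only [Finset.sum_range_zero, mul_zero, integral_zero]
  | succ n ih =>
    obtain ⟨h1, h2⟩ := ih (Nat.le_of_succ_le hn)
    have h3 := pow_ht k h h0 n (Nat.le_of_succ_le_succ hn)
    refine ⟨ht_of_eq (bLIN _ _ _ _ 1 (c n) h1 h3) (fun y => ?_) fun x => ?_, fun hf => ?_⟩
    · rw [Finset.sum_range_succ]; ring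
    · rw [Finset.sum_range_succ]; ring
    · have e : (fun y => f y * ∑ j ∈ Finset.range (n + 1), c j * mz Complex.I y ^ j) =
          fun y => f y * ∑ j ∈ Finset.range n, c j * mz Complex.I y ^ j +
            c n * (f y * mz Complex.I y ^ n) :=
        funext fun y => by rw [Finset.sum_range_succ]; ring
      have h4 : ∫ y, f y * mz Complex.I y ^ n = 0 := by
        rcases Nat.eq_zero_or_pos n with rfl | hpos
        · simp only [pow_zero, mul_one]; exact hf
        · exact h0 n hpos (Nat.le_of_succ_le_succ hn)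
      rw [e, integral_add h1.1 (h3.1.const_mul (c n)), integral_const_mul, h2 hf, h4, mul_zero,
        add_zero]

end HP

theorem fHP (hPOLY : St_POLY) : St_HP := by
  intro k P hk f t h h0
  obtain ⟨R, hR, hev⟩ := hPOLY.2 P k hk
  have e : ∀ y : ℝ, P.eval (y : ℂ) * mz Complex.I y ^ k =
      ∑ j ∈ Finset.range (k + 1), R.coeff j * mz Complex.I y ^ j := fun y => by
    rw [hev y, eval_eq_sum_range' (Nat.lt_succ_of_le hR)]
  obtain ⟨h1, h2⟩ := HP.sum_ht k h h0 (fun j => R.coeff j) (k + 1) le_rfl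
  refine ⟨HP.ht_of_eq h1 (fun y => by rw [e y]) fun x => by rw [e x], fun hf => ?_⟩
  have e2 : (fun y : ℝ => f y * (P.eval (y : ℂ) * mz Complex.I y ^ k)) =
      fun y => f y * ∑ j ∈ Finset.range (k + 1), R.coeff j * mz Complex.I y ^ j :=
    funext fun y => by rw [e y]
  rw [e2]; exact h2 hf

end Pool.Agent.Lib.HF26
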