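import Pool.Agent.Lib.HF26.Blue

open MeasureTheory Filter Topology Polynomial
open scoped ENNReal NNReal

namespace Pool.Agent.Lib.HF26

open Pool.Agent.Lib.HT26

theorem INV.ne (x : ℝ) : (x : ℂ) - Complex.I ≠ 0 := by
  intro h
  have := congrArg Complex.im h
  simp at this

theorem INV.bound (c : ℂ) (hc : c ≠ 0) (hy : ∀ y : ℝ, c ≠ mz Complex.I y) :
    ∃ K : ℝ, ∀ x : ℝ, 1 ≤ K * ‖mz Complex.I x - c‖ := by
  have hw : (Complex.I + c⁻¹).im ≠ 0 := by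
    intro h
    apply hy (Complex.I + c⁻¹).re
    have h1 : (((Complex.I + c⁻¹).re : ℝ) : ℂ) = Complex.I + c⁻¹ :=
      Complex.ext (Complex.ofReal_re _) (by rw [Complex.ofReal_im, h])
    unfold mz
    rw [h1, add_sub_cancel_left, inv_inv]
  refine ⟨‖c⁻¹‖ * (1 + ‖c⁻¹‖ * |(Complex.I + c⁻¹).im|⁻¹), fun x => ?_⟩
  have h1 := INV.ne x
  have h2 : (x : ℂ) - (Complex.I + c⁻¹) ≠ 0 := by
    intro h
    apply hw
    rw [← sub_eq_zero.mp h, Complex.ofReal_im]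
  have h3 : (1 : ℂ) = -c⁻¹ * (1 + c⁻¹ * mz (Complex.I + c⁻¹) x) * (mz Complex.I x - c) := by
    have e1 : mz (Complex.I + c⁻¹) x * ((x : ℂ) - (Complex.I + c⁻¹)) = 1 := inv_mul_cancel₀ h2
    have e2 : mz Complex.I x * ((x : ℂ) - Complex.I) = 1 := inv_mul_cancel₀ h1
    have e3 : c⁻¹ * c = 1 := inv_mul_cancel₀ hc
    have e4 : 1 + c⁻¹ * mz (Complex.I + c⁻¹) x =
        mz (Complex.I + c⁻¹) x * ((x : ℂ) - Complex.I) := by linear_combination -e1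
    rw [e4]
    linear_combination (-1 : ℂ) * e1 + (c⁻¹ * mz (Complex.I + c⁻¹) x) * e2
      - (mz (Complex.I + c⁻¹) x * ((x : ℂ) - Complex.I)) * e3
  have h4 : ‖1 + c⁻¹ * mz (Complex.I + c⁻¹) x‖ ≤ 1 + ‖c⁻¹‖ * |(Complex.I + c⁻¹).im|⁻¹ := by
    refine (norm_add_le _ _).trans ?_
    rw [norm_one, norm_mul]
    exact add_le_add le_rfl (mul_le_mul_of_nonneg_left (mz_norm_le hw x) (norm_nonneg _))
  calc (1 : ℝ) = ‖(1 : ℂ)‖ := norm_one.symm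
    _ = ‖c⁻¹‖ * ‖1 + c⁻¹ * mz (Complex.I + c⁻¹) x‖ * ‖mz Complex.I x - c‖ := by
      rw [← norm_neg c⁻¹, ← norm_mul, ← norm_mul, ← h3]
    _ ≤ _ := mul_le_mul_of_nonneg_right (mul_le_mul_of_nonneg_left h4 (norm_nonneg _))
      (norm_nonneg _)

theorem fINV : St_INV := by
  intro μ q c hc hy v hN
  obtain ⟨K, hK⟩ := INV.bound c hc hy
  have h1 : eLpNorm (v : ℝ → ℂ) q μ ≤
      ENNReal.ofReal K * eLpNorm ((mY μ v - c • v : YY μ) : ℝ → ℂ) q μ := by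
    apply eLpNorm_le_mul_eLpNorm_of_ae_le_mul
    filter_upwards [mY_coe μ v, AEEqFun.coeFn_sub (mY μ v) (c • v), AEEqFun.coeFn_smul c v]
      with x e1 e2 e3
    rw [e2, Pi.sub_apply, e1, e3, Pi.smul_apply, smul_eq_mul, mul_comm c, ← mul_sub, norm_mul]
    calc ‖v x‖ = ‖v x‖ * 1 := (mul_one _).symm
      _ ≤ ‖v x‖ * (K * ‖mz Complex.I x - c‖) := mul_le_mul_of_nonneg_left (hK x) (norm_nonneg _)
      _ = _ := by ring
  exact ne_top_of_le_ne_top (ENNReal.mul_ne_top ENNReal.ofReal_ne_top hN) h1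

end Pool.Agent.Lib.HF26
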