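import Mathlib
import Pool.Agent.Lib.HF26.Blue

open Polynomial

namespace Pool.Agent.Lib.HF26

namespace MINV

/-- powers of a restricted map -/
theorem pow_res {A : Type} [AddCommGroup A] [Module ℂ A] (MA : A →ₗ[ℂ] A) (V : Submodule ℂ A)
    (f : V →ₗ[ℂ] V) (hf : ∀ v : V, (f v : A) = MA v) (k : ℕ) (v : V) :
    ((f ^ k) v : A) = (MA ^ k) (v : A) := by
  induction k with
  | zero => rfl
  | succ k ih => rw [pow_succ', pow_succ', Module.End.mul_apply, Module.End.mul_apply, hf, ih]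

/-- polynomials in a restricted map -/
theorem aeval_res {A : Type} [AddCommGroup A] [Module ℂ A] (MA : A →ₗ[ℂ] A) (V : Submodule ℂ A)
    (f : V →ₗ[ℂ] V) (hf : ∀ v : V, (f v : A) = MA v) (Q : ℂ[X]) (v : V) :
    (aeval f Q v : A) = aeval MA Q (v : A) := by
  induction Q using Polynomial.induction_on' with
  | add p q hp hq =>
    rw [map_add, map_add, LinearMap.add_apply, LinearMap.add_apply, Submodule.coe_add, hp, hq]
  | monomial k c =>
    rw [aeval_monomial, aeval_monomial, ← Algebra.smul_def, ← Algebra.smul_def,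
      LinearMap.smul_apply, LinearMap.smul_apply, Submodule.coe_smul, pow_res MA V f hf]

/-- the characteristic polynomial of the restriction -/
theorem exists_char {A : Type} [AddCommGroup A] [Module ℂ A] (MA : A →ₗ[ℂ] A)
    (V : Submodule ℂ A) (hfd : FiniteDimensional ℂ V) (hV : ∀ v ∈ V, MA v ∈ V) :
    ∃ Q : ℂ[X], Q ≠ 0 ∧ Q.natDegree = Module.finrank ℂ V ∧ (∀ v ∈ V, aeval MA Q v = 0) ∧
      ∀ c : ℂ, Q.eval c = 0 → ∃ v ∈ V, v ≠ 0 ∧ MA v = c • v := by
  obtain ⟨f, hf⟩ : ∃ f : V →ₗ[ℂ] V, ∀ v : V, (f v : A) = MA v :=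
    ⟨MA.restrict hV, fun v => rfl⟩
  refine ⟨f.charpoly, f.charpoly_monic.ne_zero, f.charpoly_natDegree, ?_, ?_⟩
  · intro v hv
    have h1 := aeval_res MA V f hf f.charpoly ⟨v, hv⟩
    rw [f.aeval_self_charpoly] at h1
    exact h1.symm
  · intro c hc
    have h1 : Module.End.HasEigenvalue f c :=
      (Module.End.hasEigenvalue_iff_isRoot_charpoly f c).2 hc
    obtain ⟨v, hv⟩ := h1.exists_hasEigenvector
    refine ⟨v, v.2, fun h0 => hv.2 (Subtype.ext h0), ?_⟩
    rw [← hf, hv.apply_eq_smul, Submodule.coe_smul]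

end MINV

theorem fMINV : St_MINV := by
  intro A _ _ MA V hfd hV
  obtain ⟨Q, h0, -, h1, h2⟩ := MINV.exists_char MA V hfd hV
  exact ⟨Q, h0, h1, h2⟩

end Pool.Agent.Lib.HF26
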