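import Mathlib
import Pool.Agent.Lib.HF26.Blue
import Pool.Agent.Lib.HF26.F_MINV

open Polynomial

namespace Pool.Agent.Lib.HF26

namespace MINP

/-- a linear relation among the first r powers is a polynomial of degree below r -/
theorem rel {A : Type} [AddCommGroup A] [Module ℂ A] (MA : A →ₗ[ℂ] A) (a0 : A) (r : ℕ)
    (g : Fin r → ℂ) : ∃ P : ℂ[X], (∀ i : Fin r, P.coeff i = g i) ∧ P.degree < r ∧
      aeval MA P a0 = ∑ i : Fin r, g i • (MA ^ (i : ℕ)) a0 := by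
  refine ⟨∑ i : Fin r, monomial (i : ℕ) (g i), ?_, ?_, ?_⟩
  · intro i
    rw [finsetSum_coeff, Finset.sum_eq_single i]
    · rw [coeff_monomial, if_pos rfl]
    · intro j _ hj
      rw [coeff_monomial, if_neg fun h => hj (Fin.ext h)]
    · intro h
      exact absurd (Finset.mem_univ i) h
  · refine mem_degreeLT.1 (Submodule.sum_mem _ fun i _ => mem_degreeLT.2 ?_)
    exact (degree_monomial_le _ _).trans_lt (Nat.cast_lt.2 i.2)
  · rw [map_sum, LinearMap.sum_apply]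
    refine Finset.sum_congr rfl fun i _ => ?_
    rw [aeval_monomial, ← Algebra.smul_def, LinearMap.smul_apply]

end MINP

theorem fMINP : St_MINP := by
  classical
  intro A _ _ MA V n hfd hn hV a0 ha
  obtain ⟨Q0, h0, hd, h1, -⟩ := MINV.exists_char MA V hfd hV
  have hP : ∃ Q : ℂ[X], Q ≠ 0 ∧ Q.natDegree ≤ n ∧ aeval MA Q a0 = 0 :=
    ⟨Q0, h0, hd.le.trans hn, h1 a0 ha⟩
  have hex : ∃ r : ℕ, ∃ Q : ℂ[X], Q ≠ 0 ∧ Q.natDegree ≤ r ∧ aeval MA Q a0 = 0 := ⟨n, hP⟩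
  obtain ⟨Q, hQ0, hQd, hQ⟩ := Nat.find_spec hex
  refine ⟨Nat.find hex, Q, Nat.find_min' hex hP, hQ0, hQd, hQ, ?_⟩
  rw [Fintype.linearIndependent_iff]
  intro g hg i
  obtain ⟨P, hc, hdeg, hPa⟩ := MINP.rel MA a0 (Nat.find hex) g
  by_cases hP0 : P = 0
  · rw [← hc i, hP0, coeff_zero]
  · have hlt : P.natDegree < Nat.find hex := (natDegree_lt_iff_degree_lt hP0).2 hdeg
    exact absurd ⟨P, hP0, le_rfl, hPa.trans hg⟩ (Nat.find_min hex hlt)

end Pool.Agent.Lib.HF26
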