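import Pool.Agent.Lib.HF26.Blue

/-! Row POLY: polynomials in `1/(x-i)` against polynomials in `x`. -/

open Polynomial

namespace Pool.Agent.Lib.HF26

open Pool.Agent.Lib.HT26

namespace POLY

lemma sub_ne (y : ℝ) : (y : ℂ) - Complex.I ≠ 0 := by
  intro h
  have := congrArg Complex.im h
  simp at this

lemma refl_eval (f : ℂ[X]) (N : ℕ) (hf : f.natDegree ≤ N) (x : ℂ) (hx : x ≠ 0) :
    (reflect N f).eval x⁻¹ * x ^ N = f.eval x := by
  letI : Invertible x := invertibleOfNonzero hx
  have h := eval₂_reflect_mul_pow (RingHom.id ℂ) x N f hf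
  rw [invOf_eq_inv, eval₂_id, eval₂_id] at h
  exact h

lemma refl_deg (f : ℂ[X]) (N : ℕ) (hf : f.natDegree ≤ N) : (reflect N f).natDegree ≤ N :=
  natDegree_reflect_le.trans (max_le le_rfl hf)

end POLY

theorem fPOLY : St_POLY := by
  refine ⟨fun Q r hQ hr => ?_, fun P k hk => ?_⟩
  · refine ⟨taylor (-Complex.I) (reflect r Q), ?_, ?_, fun y => ?_⟩
    · intro h
      have h0 : reflect r Q = 0 := taylor_injective _ (h.trans (map_zero _).symm)
      exact hQ (reflect_eq_zero_iff.mp h0)
    · rw [natDegree_taylor]; exact POLY.refl_deg Q r hr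
    · have h := POLY.refl_eval Q r hr (mz Complex.I y) (inv_ne_zero (POLY.sub_ne y))
      rw [taylor_eval, ← h, mz, inv_inv, sub_eq_add_neg]
  · have hd : (taylor Complex.I P).natDegree ≤ k := by rw [natDegree_taylor]; exact hk
    refine ⟨reflect k (taylor Complex.I P), POLY.refl_deg _ k hd, fun y => ?_⟩
    have h := POLY.refl_eval _ k hd ((y : ℂ) - Complex.I) (POLY.sub_ne y)
    rw [taylor_eval, sub_add_cancel] at h
    rw [← h, mz, mul_assoc, ← mul_pow, mul_inv_cancel₀ (POLY.sub_ne y), one_pow, mul_one]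

end Pool.Agent.Lib.HF26
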