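import Pool.Agent.Lib.HF26.Blue

open MeasureTheory Filter Topology
open scoped ENNReal NNReal

namespace Pool.Agent.Lib.HF26

open Pool.Agent.Lib.HT26

namespace R0

theorem tend (K : ℝ≥0) (a b : ℝ≥0∞) (hb : b ≠ ⊤) :
    Tendsto (fun k : ℕ => (K : ℝ≥0∞) * (a + b * (2 : ℝ≥0∞)⁻¹ ^ k)) atTop (𝓝 (K * a)) := by
  have h1 : Tendsto (fun k : ℕ => (2 : ℝ≥0∞)⁻¹ ^ k) atTop (𝓝 0) :=
    ENNReal.tendsto_pow_atTop_nhds_zero_of_lt_one (by simp)
  have h2 := ENNReal.Tendsto.const_mul (a := b) h1 (Or.inr hb)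
  have h3 := ENNReal.Tendsto.const_mul (a := (K : ℝ≥0∞)) (h2.const_add a)
    (Or.inr ENNReal.coe_ne_top)
  rw [mul_zero, add_zero] at h3
  exact h3

theorem coe_comb {μ : Measure ℝ} (y z : YY μ) (c : ℂ) :
    ((y - c • z : YY μ) : ℝ → ℂ) =ᵐ[μ] fun x => y x - c * z x := by
  filter_upwards [AEEqFun.coeFn_sub y (c • z), AEEqFun.coeFn_smul c z] with x h1 h2
  rw [h1, Pi.sub_apply, h2, Pi.smul_apply, smul_eq_mul]

theorem NY_comb {μ : Measure ℝ} (q : ℝ≥0∞) (y z : YY μ) (c : ℂ) :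
    NY μ q (y - c • z) = eLpNorm (fun x => y x - c * z x) q μ :=
  eLpNorm_congr_ae (coe_comb y z c)

theorem seq {X : Type} [AddCommGroup X] [Module ℂ X] {N : X → ℝ≥0∞} (hN : SN N)
    (a : X →ₗ[ℂ] ℂ) (hB : ¬ BF N a) (k : ℕ) : ∃ h : X, a h = 1 ∧ N h ≤ (2 : ℝ≥0∞)⁻¹ ^ k := by
  have h2 : ¬ ∀ x, ‖a x‖ₑ ≤ ((2 ^ k : ℝ≥0) : ℝ≥0∞) * N x := fun h => hB ⟨2 ^ k, h⟩
  obtain ⟨f, hlt⟩ := not_forall.1 h2
  have hlt := not_le.1 hlt
  have hc0 : a f ≠ 0 := by
    intro h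
    rw [h, enorm_zero] at hlt
    exact not_lt_zero hlt
  refine ⟨(a f)⁻¹ • f, ?_, ?_⟩
  · rw [map_smul, smul_eq_mul, inv_mul_cancel₀ hc0]
  · rw [hN.smul, enorm_inv hc0]
    have hc1 : ‖a f‖ₑ ≠ 0 := by simpa using hc0
    have hc2 : ‖a f‖ₑ ≠ ⊤ := enorm_ne_top
    have h4 : N f ≤ (2 : ℝ≥0∞)⁻¹ ^ k * ‖a f‖ₑ := by
      have h5 : ((2 ^ k : ℝ≥0) : ℝ≥0∞) = 2 ^ k := by push_cast; rfl
      rw [h5] at hlt
      calc N f = (2 : ℝ≥0∞)⁻¹ ^ k * (2 ^ k * N f) := by
            rw [← mul_assoc, ← mul_pow, ENNReal.inv_mul_cancel (by simp) (by simp), one_pow,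
              one_mul]
        _ ≤ _ := mul_le_mul_right hlt.le _
    calc ‖a f‖ₑ⁻¹ * N f ≤ ‖a f‖ₑ⁻¹ * ((2 : ℝ≥0∞)⁻¹ ^ k * ‖a f‖ₑ) := mul_le_mul_right h4 _
      _ = (2 : ℝ≥0∞)⁻¹ ^ k := by
        rw [mul_comm ((2 : ℝ≥0∞)⁻¹ ^ k), ← mul_assoc, ENNReal.inv_mul_cancel hc1 hc2, one_mul]

theorem one (μ : Measure ℝ) (q : ℝ≥0∞) (hq : 1 ≤ q) (X : Type) [AddCommGroup X] [Module ℂ X]
    (N : X → ℝ≥0∞) (hN : SN N) (a : X →ₗ[ℂ] ℂ) (S : X →ₗ[ℂ] YY μ) (C : ℝ≥0)
    (hC : ∀ x, a x = 0 → NY μ q (S x) ≤ C * N x) :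
    ∃ g : YY μ, BOp μ q N (S - a.smulRight g) := by
  have key : ∀ x e : X, a e = 1 →
      NY μ q (S x - a x • S e) ≤ C * (N x + ‖a x‖ₑ * N e) := by
    intro x e he
    have h1 := hC (x - a x • e) (by rw [map_sub, map_smul, he, smul_eq_mul, mul_one, sub_self])
    rw [map_sub, map_smul] at h1
    have h2 : N (x - a x • e) ≤ N x + ‖a x‖ₑ * N e := by
      have h3 := hN.add x ((-a x) • e)
      rw [hN.smul, enorm_neg, neg_smul, ← sub_eq_add_neg] at h3
      exact h3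
    exact h1.trans (mul_le_mul_right h2 _)
  by_cases hB : BF N a
  · obtain ⟨K, hK⟩ := hB
    by_cases hz : ∃ e, a e ≠ 0
    · obtain ⟨e0, hne⟩ := hz
      have he1 : a ((a e0)⁻¹ • e0) = 1 := by
        rw [map_smul, smul_eq_mul, inv_mul_cancel₀ hne]
      generalize (a e0)⁻¹ • e0 = e at he1
      refine ⟨S e, C * (1 + K * (N e).toNNReal), fun x => ?_⟩
      rw [LinearMap.sub_apply, LinearMap.smulRight_apply]
      refine (key x e he1).trans ?_
      rw [ENNReal.coe_mul, ENNReal.coe_add, ENNReal.coe_mul, ENNReal.coe_one,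
        ENNReal.coe_toNNReal (hN.fin e), mul_assoc]
      refine mul_le_mul_right ?_ _
      rw [add_mul, one_mul, mul_right_comm]
      exact add_le_add le_rfl (mul_le_mul_left (hK x) _)
    · refine ⟨0, C, fun x => ?_⟩
      have h0 : a x = 0 := by
        by_contra hne
        exact hz ⟨x, hne⟩
      rw [LinearMap.sub_apply, LinearMap.smulRight_apply, smul_zero, sub_zero]
      exact hC x h0
  · choose h hh using seq hN a hB
    have htm : ∀ k, AEStronglyMeasurable (S (h k) : ℝ → ℂ) μ :=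
      fun k => (S (h k)).aestronglyMeasurable
    have hB : ∑' i : ℕ, ((C : ℝ≥0∞) * 2 + 1) * (2 : ℝ≥0∞)⁻¹ ^ i ≠ ⊤ := by
      rw [ENNReal.tsum_mul_left, ENNReal.tsum_geometric]
      refine ENNReal.mul_ne_top
        (ENNReal.add_ne_top.2 ⟨ENNReal.mul_ne_top ENNReal.coe_ne_top (by simp), by simp⟩) ?_
      simp
    have hcau : ∀ M n m : ℕ, M ≤ n → M ≤ m →
        eLpNorm ((S (h n) : ℝ → ℂ) - (S (h m) : ℝ → ℂ)) q μ <
          ((C : ℝ≥0∞) * 2 + 1) * (2 : ℝ≥0∞)⁻¹ ^ M := by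
      intro M n m hn hm
      have h1 := key (h n) (h m) (hh m).1
      rw [(hh n).1, enorm_one, one_mul, NY_comb] at h1
      have h2 : (S (h n) : ℝ → ℂ) - (S (h m) : ℝ → ℂ) =
          fun x => S (h n) x - 1 * S (h m) x := by
        funext x
        rw [one_mul]; rfl
      have h3 : N (h n) + N (h m) ≤ 2 * (2 : ℝ≥0∞)⁻¹ ^ M := by
        rw [two_mul]
        exact add_le_add ((hh n).2.trans (pow_le_pow_of_le_one zero_le (by simp) hn))
          ((hh m).2.trans (pow_le_pow_of_le_one zero_le (by simp) hm))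
      rw [h2]
      refine (h1.trans (mul_le_mul_right h3 _)).trans_lt ?_
      rw [add_mul, one_mul, mul_assoc]
      exact ENNReal.lt_add_right
        (ENNReal.mul_ne_top ENNReal.coe_ne_top
          (ENNReal.mul_ne_top (by simp) (ENNReal.pow_ne_top (by simp))))
        (pow_ne_zero _ (by simp))
    obtain ⟨g, hg, hlim⟩ := exists_stronglyMeasurable_limit_of_tendsto_ae htm
      (Lp.ae_tendsto_of_cauchy_eLpNorm htm hq hB hcau)
    refine ⟨AEEqFun.mk g hg.aestronglyMeasurable, C, fun f => ?_⟩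
    rw [LinearMap.sub_apply, LinearMap.smulRight_apply, NY_comb]
    have htf : AEStronglyMeasurable (S f : ℝ → ℂ) μ := (S f).aestronglyMeasurable
    have h1 := Lp.eLpNorm_lim_le_liminf_eLpNorm (p := q) (μ := μ)
      (f := fun k x => S f x - a f * S (h k) x)
      (fun k => htf.sub ((htm k).const_mul _))
      (fun x => S f x - a f * (AEEqFun.mk g hg.aestronglyMeasurable : YY μ) x)
      (by
        filter_upwards [hlim, AEEqFun.coeFn_mk g hg.aestronglyMeasurable] with x hx hx2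
        rw [hx2]
        exact (hx.const_mul _).const_sub _)
    refine h1.trans ?_
    rw [← (tend C (N f) ‖a f‖ₑ enorm_ne_top).liminf_eq]
    refine liminf_le_liminf (Eventually.of_forall fun k => ?_)
    have h2 := key f (h k) (hh k).1
    rw [NY_comb] at h2
    refine h2.trans ?_
    exact mul_le_mul_right (add_le_add le_rfl (mul_le_mul_right (hh k).2 _)) _

end R0

theorem fR0 : St_R0 := by
  intro μ q hq X _ _ N hN n
  induction n generalizing X with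
  | zero =>
    intro a S ⟨C, hC⟩
    refine ⟨fun j => j.elim0, C, fun x => ?_⟩
    rw [Fin.sum_univ_zero, LinearMap.sub_apply, LinearMap.zero_apply, sub_zero]
    exact hC x fun j => j.elim0
  | succ n ih =>
    intro a S ⟨C, hC⟩
    obtain ⟨g', C', hC'⟩ := ih (LinearMap.ker (a 0)) (fun x => N x)
      ⟨fun x => hN.fin x, fun x y => hN.add x y, fun c x => hN.smul c x⟩
      (fun j => (a j.succ) ∘ₗ (LinearMap.ker (a 0)).subtype)
      (S ∘ₗ (LinearMap.ker (a 0)).subtype)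
      ⟨C, fun x hx => hC x fun j => Fin.cases (LinearMap.mem_ker.1 x.2) (fun i => hx i) j⟩
    obtain ⟨g0, C0, hC0⟩ := R0.one μ q hq X N hN (a 0)
      (S - ∑ j : Fin n, (a j.succ).smulRight (g' j)) C' (by
        intro x hx
        have h1 := hC' ⟨x, LinearMap.mem_ker.2 hx⟩
        rw [LinearMap.sub_apply, LinearMap.sum_apply] at h1 ⊢
        exact h1)
    refine ⟨Fin.cons g0 g', C0, fun x => ?_⟩
    have h2 := hC0 x
    rw [LinearMap.sub_apply, LinearMap.sub_apply, sub_sub, add_comm] at h2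
    rw [Fin.sum_univ_succ, LinearMap.sub_apply, LinearMap.add_apply]
    exact h2

end Pool.Agent.Lib.HF26
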