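import Pool.Agent.Lib.HF26.Blue

open MeasureTheory Filter Topology Polynomial

namespace Pool.Agent.Lib.HF26

open Pool.Agent.Lib.HT26

namespace RAT

lemma sub_ne (y : ℝ) : (y : ℂ) - Complex.I ≠ 0 := by
  intro h
  have h1 := congrArg Complex.im h
  simp at h1

lemma cont_m : Continuous (mz Complex.I) :=
  (Complex.continuous_ofReal.sub continuous_const).inv₀ sub_ne

lemma tend_m : Tendsto (mz Complex.I) atTop (𝓝 0) := by
  refine squeeze_zero_norm' ?_ tendsto_inv_atTop_zero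
  filter_upwards [eventually_gt_atTop (0 : ℝ)] with y hy
  have h1 := Complex.re_le_norm ((y : ℂ) - Complex.I)
  rw [Complex.sub_re, Complex.ofReal_re, Complex.I_re, sub_zero] at h1
  rw [mz, norm_inv]
  exact inv_anti₀ hy h1

lemma ae_ne_m (c : ℂ) : ∀ᵐ y : ℝ, mz Complex.I y - c ≠ 0 := by
  have h : Set.Subsingleton {y : ℝ | mz Complex.I y - c = 0} := by
    intro y hy z hz
    have h1 : mz Complex.I y = mz Complex.I z :=
      (sub_eq_zero.mp hy).trans (sub_eq_zero.mp hz).symm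
    exact Complex.ofReal_injective (sub_left_injective (inv_injective h1))
  rw [ae_iff]
  refine measure_mono_null (fun y hy => ?_) (h.measure_zero volume)
  exact not_not.mp hy

lemma root (Q R : ℂ[X]) (K : ℝ) (c : ℂ) (hc : Q.eval c = 0)
    (hc' : c = 0 ∨ ∃ y : ℝ, c = mz Complex.I y)
    (h : ∀ᵐ y : ℝ, ‖R.eval (mz Complex.I y)‖ ≤ K * ‖Q.eval (mz Complex.I y)‖) :
    R.eval c = 0 := by
  have hcl : IsClosed {w : ℂ | ‖R.eval w‖ ≤ K * ‖Q.eval w‖} :=
    isClosed_le R.continuous.norm (continuous_const.mul Q.continuous.norm)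
  have hall : ∀ y : ℝ, mz Complex.I y ∈ {w : ℂ | ‖R.eval w‖ ≤ K * ‖Q.eval w‖} := by
    intro y
    have h1 := (Measure.dense_of_ae h) y
    exact (hcl.preimage cont_m).closure_subset h1
  have h2 : c ∈ {w : ℂ | ‖R.eval w‖ ≤ K * ‖Q.eval w‖} := by
    rcases hc' with h0 | ⟨y, hy⟩
    · rw [h0]
      exact hcl.mem_of_tendsto tend_m (Eventually.of_forall hall)
    · rw [hy]
      exact hall y
  have h3 : ‖R.eval c‖ ≤ K * ‖Q.eval c‖ := h2
  rw [hc, norm_zero, mul_zero] at h3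
  exact norm_le_zero_iff.mp h3

lemma main (K : ℝ) (n : ℕ) : ∀ Q R : ℂ[X], Q.natDegree = n → Q ≠ 0 → R.natDegree ≤ n →
    (∀ c : ℂ, Q.eval c = 0 → c = 0 ∨ ∃ y : ℝ, c = mz Complex.I y) →
    (∀ᵐ y : ℝ, ‖R.eval (mz Complex.I y)‖ ≤ K * ‖Q.eval (mz Complex.I y)‖) →
    ∃ c : ℂ, R = C c * Q := by
  induction n with
  | zero =>
    intro Q R hQ hQ0 hR _ _
    obtain ⟨a, rfl⟩ := natDegree_eq_zero.mp hQ
    obtain ⟨b, rfl⟩ := natDegree_eq_zero.mp (Nat.le_zero.mp hR)
    have ha : a ≠ 0 := fun h => hQ0 (by rw [h, C_0])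
    exact ⟨b / a, by rw [← C_mul, div_mul_cancel₀ b ha]⟩
  | succ n ih =>
    intro Q R hQ hQ0 hR hroot h
    obtain ⟨c, hc⟩ := Complex.exists_root
      (natDegree_pos_iff_degree_pos.mp (hQ ▸ Nat.succ_pos n : 0 < Q.natDegree))
    have hcR : R.IsRoot c := root Q R K c hc (hroot c hc) h
    obtain ⟨Q1, rfl⟩ := dvd_iff_isRoot.mpr hc
    obtain ⟨R1, rfl⟩ := dvd_iff_isRoot.mpr hcR
    have hQ1 : Q1 ≠ 0 := right_ne_zero_of_mul hQ0
    rw [natDegree_mul (X_sub_C_ne_zero c) hQ1, natDegree_X_sub_C] at hQ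
    have hR1 : R1.natDegree ≤ n := by
      by_cases h0 : R1 = 0
      · rw [h0, natDegree_zero]
        exact Nat.zero_le n
      · rw [natDegree_mul (X_sub_C_ne_zero c) h0, natDegree_X_sub_C] at hR
        omega
    obtain ⟨e, he⟩ := ih Q1 R1 (by omega) hQ1 hR1
      (fun w hw => hroot w (by rw [eval_mul, hw, mul_zero])) (by
        filter_upwards [h, ae_ne_m c] with y h1 h2
        rw [eval_mul, eval_mul, eval_sub, eval_X, eval_C, norm_mul, norm_mul, mul_left_comm] at h1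
        exact le_of_mul_le_mul_left h1 (norm_pos_iff.mpr h2))
    exact ⟨e, by rw [he, mul_left_comm]⟩

end RAT

theorem fRAT : St_RAT := fun Q R K hQ hR hroot h => RAT.main K _ Q R rfl hQ hR hroot h

end Pool.Agent.Lib.HF26
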