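import Mathlib
import Pool.Agent.Lib.HT26.B_NC
import Pool.Agent.Lib.HF26.Blue

open MeasureTheory Filter Topology Polynomial
open scoped ENNReal NNReal

namespace Pool.Agent.Lib.HF26

open Pool.Agent.Lib.HT26

namespace S2

theorem coe_sum {μ : Measure ℝ} {n : ℕ} (c : Fin n → ℂ) (y : Fin n → YY μ) (s : Finset (Fin n)) :
    ∀ᵐ x ∂μ, ((∑ j ∈ s, c j • y j : YY μ) : ℝ → ℂ) x = ∑ j ∈ s, c j * (y j : ℝ → ℂ) x := by
  induction s using Finset.induction_on with
  | empty =>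
    filter_upwards [AEEqFun.coeFn_zero (α := ℝ) (μ := μ) (β := ℂ)] with x hx
    rw [Finset.sum_empty, Finset.sum_empty, hx, Pi.zero_apply]
  | insert j s hj ih =>
    filter_upwards [ih, AEEqFun.coeFn_add (c j • y j) (∑ j ∈ s, c j • y j),
      AEEqFun.coeFn_smul (c j) (y j)] with x h1 h2 h3
    rw [Finset.sum_insert hj, Finset.sum_insert hj, h2, Pi.add_apply, h3, h1, Pi.smul_apply,
      smul_eq_mul]

theorem coe_sum_mk {μ : Measure ℝ} {n : ℕ} (c : Fin n → ℂ) (g : Fin n → ℝ → ℂ)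
    (hg : ∀ j, AEStronglyMeasurable (g j) μ) :
    ∀ᵐ x ∂μ, ((∑ j, c j • AEEqFun.mk (g j) (hg j) : YY μ) : ℝ → ℂ) x = ∑ j, c j * g j x := by
  have h2 : ∀ᵐ x ∂μ, ∀ j, (AEEqFun.mk (g j) (hg j) : YY μ) x = g j x :=
    ae_all_iff.mpr fun j => AEEqFun.coeFn_mk (g j) (hg j)
  filter_upwards [coe_sum c (fun j => AEEqFun.mk (g j) (hg j)) Finset.univ, h2] with x h1 h2
  rw [h1]
  exact Finset.sum_congr rfl fun j _ => by rw [h2 j]

theorem bm_sum {n : ℕ} (c : Fin n → ℂ) (φ : Fin n → ℝ → ℂ) (hφ : ∀ j, BM (φ j))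
    (s : Finset (Fin n)) : BM (fun y => ∑ j ∈ s, c j * φ j y) := by
  induction s using Finset.induction_on with
  | empty => simpa using BM.const 0
  | insert j s hj ih =>
    have h := BM.sub ((BM.const (c j)).mul (hφ j)) ((BM.const (-1)).mul ih)
    have e : (fun y => ∑ i ∈ insert j s, c i * φ i y) =
        fun y => c j * φ j y - -1 * ∑ i ∈ s, c i * φ i y := by
      funext y
      rw [Finset.sum_insert hj]
      ring
    rw [e]
    exact h

theorem mz_ne (y : ℝ) : mz Complex.I y ≠ 0 := by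
  unfold mz
  refine inv_ne_zero fun h => ?_
  have := congrArg Complex.im h
  simp at this

section core

variable {A : Type} [AddCommGroup A] [Module ℂ A] (MA : A →ₗ[ℂ] A) {n : ℕ} (a : Fin n → A)
  (a0 : A) (φ : Fin n → ℝ → ℂ)

/-- the commutator identity tested against functionals -/
def UF : Prop := ∀ θ : A →ₗ[ℂ] ℂ, ∀ᵐ y : ℝ,
  ∑ j, θ (MA (a j)) * φ j y - (∑ j, θ (a j) * φ j y) * mz Complex.I y =
    θ a0 * (-(Real.pi : ℂ)⁻¹ * mz Complex.I y)

theorem pow_step (h : UF MA a a0 φ) (θ : A →ₗ[ℂ] ℂ) (k : ℕ) : ∃ R : ℂ[X], R.natDegree ≤ k ∧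
    ∀ᵐ y : ℝ, mz Complex.I y ^ k * ∑ j, θ (a j) * φ j y - ∑ j, θ ((MA ^ k) (a j)) * φ j y =
      R.eval (mz Complex.I y) := by
  induction k with
  | zero =>
    refine ⟨0, by simp, Eventually.of_forall fun y => ?_⟩
    simp
  | succ k ih =>
    obtain ⟨R, hR, h1⟩ := ih
    refine ⟨(R + C (θ ((MA ^ k) a0) * (Real.pi : ℂ)⁻¹)) * X, ?_, ?_⟩
    · refine natDegree_mul_le.trans ?_
      rw [natDegree_add_C]
      exact add_le_add hR natDegree_X_le
    · filter_upwards [h1, h (θ ∘ₗ (MA ^ k))] with y e1 e2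
      simp only [LinearMap.comp_apply] at e2
      have e3 : ∀ j, (MA ^ (k + 1)) (a j) = (MA ^ k) (MA (a j)) := fun j => by
        rw [pow_succ, Module.End.mul_apply]
      simp only [e3, eval_mul, eval_add, eval_C, eval_X]
      rw [← e1]
      linear_combination (-1 : ℂ) * e2

theorem poly_step (h : UF MA a a0 φ) (θ : A →ₗ[ℂ] ℂ) (Q : ℂ[X]) :
    ∃ R : ℂ[X], R.natDegree ≤ Q.natDegree ∧ ∀ᵐ y : ℝ,
      Q.eval (mz Complex.I y) * ∑ j, θ (a j) * φ j y - ∑ j, θ (aeval MA Q (a j)) * φ j y =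
        R.eval (mz Complex.I y) := by
  choose R hR hE using pow_step MA a a0 φ h θ
  refine ⟨∑ k ∈ Finset.range (Q.natDegree + 1), C (Q.coeff k) * R k, ?_, ?_⟩
  · refine natDegree_sum_le_of_forall_le _ _ fun k hk => ?_
    exact (natDegree_C_mul_le _ _).trans ((hR k).trans (Nat.lt_succ_iff.mp (Finset.mem_range.mp hk)))
  · filter_upwards [ae_all_iff.mpr hE] with y hy
    have e1 : ∀ j, θ (aeval MA Q (a j)) =
        ∑ k ∈ Finset.range (Q.natDegree + 1), Q.coeff k * θ ((MA ^ k) (a j)) := fun j => by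
      rw [aeval_eq_sum_range, LinearMap.sum_apply, map_sum]
      exact Finset.sum_congr rfl fun k _ => by rw [LinearMap.smul_apply, map_smul, smul_eq_mul]
    have e2 : ∑ j, θ (aeval MA Q (a j)) * φ j y =
        ∑ k ∈ Finset.range (Q.natDegree + 1), Q.coeff k * ∑ j, θ ((MA ^ k) (a j)) * φ j y := by
      simp only [e1, Finset.sum_mul, Finset.mul_sum, mul_assoc]
      exact Finset.sum_comm
    rw [e2, eval_finsetSum, eval_eq_sum_range, Finset.sum_mul, ← Finset.sum_sub_distrib]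
    refine Finset.sum_congr rfl fun k _ => ?_
    rw [eval_mul, eval_C, ← hy k]
    ring

theorem core (hSYL2 : St_SYL2) (hMINV : St_MINV) (hEIG : St_EIG) (hRAT : St_RAT)
    (hφ : ∀ j, BM (φ j)) (h : UF MA a a0 φ)
    (hev : ∀ (c : ℂ) (v : A), v ≠ 0 → MA v = c • v → c = 0 ∨ ∃ y : ℝ, c = mz Complex.I y)
    (θ : A →ₗ[ℂ] ℂ) : ∀ᵐ y : ℝ, ∑ j, θ (a j) * φ j y = θ a0 * (Real.pi : ℂ)⁻¹ := by
  obtain ⟨-, hE2, -, hE4, -⟩ := hEIG volume Measure.AbsolutelyContinuous.rfl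
  have hpi : (Real.pi : ℂ)⁻¹ ≠ 0 := inv_ne_zero (by exact_mod_cast Real.pi_ne_zero)
  have hm0 : AEStronglyMeasurable (fun y => -(Real.pi : ℂ)⁻¹ * mz Complex.I y) volume :=
    ((mz_meas Complex.I).const_mul _).aestronglyMeasurable
  set b : Fin n → YY volume := fun j => AEEqFun.mk (φ j) (hφ j).1 with hb
  set b0 : YY volume := AEEqFun.mk _ hm0 with hb0
  have hb0c : ∀ᵐ y : ℝ, (b0 : ℝ → ℂ) y = -(Real.pi : ℂ)⁻¹ * mz Complex.I y :=
    AEEqFun.coeFn_mk _ hm0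
  have hne : b0 ≠ 0 := by
    intro h0
    have h1 : ∀ᵐ y : ℝ, False := by
      filter_upwards [hb0c, AEEqFun.coeFn_zero (α := ℝ) (μ := volume) (β := ℂ)] with y e1 e2
      rw [h0, e2] at e1
      exact mul_ne_zero (neg_ne_zero.mpr hpi) (mz_ne y) e1.symm
    obtain ⟨_, hy⟩ := h1.exists
    exact hy
  have hu : ∀ η : A →ₗ[ℂ] ℂ, ∑ j, η (MA (a j)) • b j - mY volume (∑ j, η (a j) • b j) =
      η a0 • b0 := by
    intro η
    apply AEEqFun.ext
    filter_upwards [h η, AEEqFun.coeFn_sub (∑ j, η (MA (a j)) • b j)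
      (mY volume (∑ j, η (a j) • b j)), mY_coe volume (∑ j, η (a j) • b j),
      coe_sum_mk (fun j => η (MA (a j))) φ (fun j => (hφ j).1),
      coe_sum_mk (fun j => η (a j)) φ (fun j => (hφ j).1), AEEqFun.coeFn_smul (η a0) b0, hb0c]
      with y e1 e2 e3 e4 e5 e6 e7
    rw [e2, Pi.sub_apply, e3, e4, e5, e6, Pi.smul_apply, e7, smul_eq_mul, e1]
  have hv : ∀ l : YY volume →ₗ[ℂ] ℂ,
      MA (∑ j, l (b j) • a j) - ∑ j, l (mY volume (b j)) • a j = l b0 • a0 := by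
    intro l
    rw [← sub_eq_zero, ← Module.forall_dual_apply_eq_zero_iff ℂ]
    intro η
    have e := congrArg l (hu η)
    simp only [map_sub, map_sum, map_smul, smul_eq_mul] at e ⊢
    rw [mul_comm (l b0), ← e]
    simp only [mul_comm]
    ring
  obtain ⟨V, hV, -, -, hinv, hmem⟩ := hSYL2 A (YY volume) MA (mY volume) hE4 n a b a0 b0 hne hv
  obtain ⟨Q, hQ, hkill, hroot⟩ := hMINV A MA V hV hinv
  have hconst : ∀ η : A →ₗ[ℂ] ℂ, ∃ c : ℂ, ∀ᵐ y : ℝ, ∑ j, η (a j) * φ j y = c := by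
    intro η
    obtain ⟨R, hR, hE⟩ := poly_step MA a a0 φ h η Q
    have hz : (∑ j, η (aeval MA Q (a j)) • b j : YY volume) = 0 := by
      rw [← Module.forall_dual_apply_eq_zero_iff ℂ]
      intro l
      have e := congrArg η (hkill _ ((hmem _).mpr ⟨l, rfl⟩))
      simp only [map_sum, map_smul, smul_eq_mul, map_zero] at e ⊢
      rw [← e]
      exact Finset.sum_congr rfl fun j _ => mul_comm _ _
    have hE' : ∀ᵐ y : ℝ,
        Q.eval (mz Complex.I y) * ∑ j, η (a j) * φ j y = R.eval (mz Complex.I y) := by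
      filter_upwards [hE, coe_sum_mk (fun j => η (aeval MA Q (a j))) φ (fun j => (hφ j).1),
        AEEqFun.coeFn_zero (α := ℝ) (μ := volume) (β := ℂ)] with y e1 e2 e3
      rw [hz, e3, Pi.zero_apply] at e2
      rw [← e2, sub_zero] at e1
      exact e1
    obtain ⟨-, K, hK⟩ := bm_sum (fun j => η (a j)) φ hφ Finset.univ
    obtain ⟨c, hc⟩ := hRAT Q R K hQ hR (fun c hc => by
      obtain ⟨v, -, hv0, hvc⟩ := hroot c hc
      exact hev c v hv0 hvc) (by
      filter_upwards [hE', hK] with y e1 e2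
      rw [← e1, norm_mul, mul_comm]
      exact mul_le_mul_of_nonneg_right e2 (norm_nonneg _))
    refine ⟨c, ?_⟩
    filter_upwards [hE', hE2 Q hQ] with y e1 e2
    rw [hc, eval_mul, eval_C, mul_comm c] at e1
    exact mul_left_cancel₀ e2 e1
  obtain ⟨c, hc⟩ := hconst θ
  obtain ⟨c', hc'⟩ := hconst (θ ∘ₗ MA)
  have hcc : c = θ a0 * (Real.pi : ℂ)⁻¹ := by
    by_contra hn
    apply bNC
    refine ⟨c' / (c - θ a0 * (Real.pi : ℂ)⁻¹), ?_⟩
    filter_upwards [hc, hc', h θ] with y e1 e2 e3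
    simp only [LinearMap.comp_apply] at e2
    rw [e1, e2] at e3
    rw [eq_div_iff (sub_ne_zero.mpr hn)]
    linear_combination (-1 : ℂ) * e3
  rw [← hcc]
  exact hc

end core

end S2

end Pool.Agent.Lib.HF26
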