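import Mathlib
import Pool.Agent.Lib.HT26.B_MEAS
import Pool.Agent.Lib.HT26.B_ID1
import Pool.Agent.Lib.HT26.B_IND
import Pool.Agent.Lib.HT26.B_VAN
import Pool.Agent.Lib.HF26.F_S2a

open MeasureTheory Filter Topology Polynomial
open scoped ENNReal NNReal

namespace Pool.Agent.Lib.HF26

open Pool.Agent.Lib.HT26

namespace S2

/-- classes of finite norm -/
noncomputable def LL (μ : Measure ℝ) (q : ℝ≥0∞) (hq : 1 ≤ q) : Submodule ℂ (YY μ) where
  carrier := {y | NY μ q y ≠ ⊤}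
  add_mem' := by
    intro y z hy hz
    have h : NY μ q (y + z) ≤ NY μ q y + NY μ q z := by
      unfold NY
      rw [eLpNorm_congr_ae (AEEqFun.coeFn_add y z)]
      exact eLpNorm_add_le y.aestronglyMeasurable z.aestronglyMeasurable hq
    exact ne_top_of_le_ne_top (ENNReal.add_ne_top.mpr ⟨hy, hz⟩) h
  zero_mem' := by
    have h : NY μ q 0 = 0 := by
      unfold NY
      rw [eLpNorm_congr_ae (AEEqFun.coeFn_zero (α := ℝ) (μ := μ) (β := ℂ)), eLpNorm_zero]
    show NY μ q 0 ≠ ⊤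
    rw [h]
    exact ENNReal.zero_ne_top
  smul_mem' := by
    intro c y hy
    have h : NY μ q (c • y) = ‖c‖ₑ * NY μ q y := by
      unfold NY
      rw [eLpNorm_congr_ae (AEEqFun.coeFn_smul c y), eLpNorm_const_smul]
    show NY μ q (c • y) ≠ ⊤
    rw [h]
    exact ENNReal.mul_ne_top enorm_ne_top hy

theorem mem_LL {μ : Measure ℝ} {q : ℝ≥0∞} (hq : 1 ≤ q) (y : YY μ) :
    y ∈ LL μ q hq ↔ NY μ q y ≠ ⊤ := Iff.rfl

theorem aesm_sum {μ : Measure ℝ} {n : ℕ} (c : Fin n → ℂ) (g : Fin n → ℝ → ℂ)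
    (hg : ∀ j, AEStronglyMeasurable (g j) μ) :
    AEStronglyMeasurable (fun x => ∑ j, c j * g j x) μ :=
  Finset.aestronglyMeasurable_fun_sum _ fun j _ => (hg j).const_mul _

/-- the commutator has finite norm -/
theorem comm_fin {μ : Measure ℝ} {q : ℝ≥0∞} (hc : Ctx μ q) {n : ℕ} {φ g : Fin n → ℝ → ℂ}
    (hg : ∀ j, AEStronglyMeasurable (g j) μ) (hR : RKF μ q n φ g) {f t : ℝ → ℂ} (hf : IsHT f t)
    (hN : eLpNorm f q μ ≠ ⊤) :
    eLpNorm (fun x => (∑ j, (∫ y, f y * φ j y) * g j x) * mz Complex.I x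
      - ∑ j, (∫ y, f y * mz Complex.I y * φ j y) * g j x
      + ((Real.pi : ℂ)⁻¹ * ∫ y, f y * mz Complex.I y) * mz Complex.I x) q μ ≠ ⊤ := by
  obtain ⟨K, hK⟩ := hR
  have hI : Complex.I.im ≠ 0 := by simp
  have hm : AEStronglyMeasurable (mz Complex.I) μ := (mz_meas Complex.I).aestronglyMeasurable
  have ht : AEStronglyMeasurable t μ := (bMEAS f t hf).mono_ac hc.ac
  have h1 := bID1 f t Complex.I hf ((mz_BM hI).int hf.1)
  have hN1 : eLpNorm (fun y => f y * mz Complex.I y) q μ ≠ ⊤ :=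
    ne_top_of_le_ne_top (ENNReal.mul_ne_top ENNReal.ofReal_ne_top hN) (N_mz hI f)
  have h2 := ne_top_of_le_ne_top (ENNReal.mul_ne_top ENNReal.coe_ne_top hN1) (hK _ _ h1 hN1)
  have h3 := ne_top_of_le_ne_top (ENNReal.mul_ne_top ENNReal.coe_ne_top hN) (hK _ _ hf hN)
  have h4 := ne_top_of_le_ne_top (ENNReal.mul_ne_top ENNReal.ofReal_ne_top h3)
    (N_mz (μ := μ) (q := q) hI fun x => t x - ∑ j, (∫ y, f y * φ j y) * g j x)
  have m1 : AEStronglyMeasurable (fun x => (t x + (Real.pi : ℂ)⁻¹ * ∫ y, f y * mz Complex.I y) *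
      mz Complex.I x - ∑ j, (∫ y, f y * mz Complex.I y * φ j y) * g j x) μ :=
    ((ht.add aestronglyMeasurable_const).mul hm).sub (aesm_sum _ g hg)
  have m2 : AEStronglyMeasurable
      (fun x => (t x - ∑ j, (∫ y, f y * φ j y) * g j x) * mz Complex.I x) μ :=
    (ht.sub (aesm_sum _ g hg)).mul hm
  have h5 := ne_top_of_le_ne_top (ENNReal.add_ne_top.mpr ⟨h2, h4⟩) (N_sub hc.one m1 m2)
  refine ne_of_eq_of_ne (eLpNorm_congr_ae (Eventually.of_forall fun x => ?_)) h5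
  ring

theorem int_sum {n : ℕ} {φ : Fin n → ℝ → ℂ} (hφ : ∀ j, BM (φ j)) (c : Fin n → ℂ) {f : ℝ → ℂ}
    (hf : Integrable f) :
    ∫ y, f y * ∑ j, c j * φ j y = ∑ j, (∫ y, f y * φ j y) * c j := by
  have e : (fun y => f y * ∑ j, c j * φ j y) = fun y => ∑ j, (f y * φ j y) * c j := by
    funext y
    rw [Finset.mul_sum]
    exact Finset.sum_congr rfl fun j _ => by ring
  rw [e, integral_finsetSum _ fun j _ => ((hφ j).int hf).mul_const _]
  exact Finset.sum_congr rfl fun j _ => integral_mul_const _ _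

end S2

open S2 in
theorem fS2 (hSYL2 : St_SYL2) (hMINV : St_MINV) (hEIG : St_EIG) (hRAT : St_RAT) (hINV : St_INV) :
    St_S2 := by
  intro μ q hc n φ g hφ hg hR
  have hI : Complex.I.im ≠ 0 := by simp
  have hmB := mz_BM hI
  have hm : AEStronglyMeasurable (mz Complex.I) μ := (mz_meas Complex.I).aestronglyMeasurable
  obtain ⟨-, -, -, -, hE5⟩ := hEIG μ hc.ac
  set L := LL μ q hc.one with hL
  have hLL : L ≤ L.comap (mY μ) := fun y hy => ne_top_of_le_ne_top hy (hE5 q y)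
  set G : Fin n → YY μ := fun j => AEEqFun.mk (g j) (hg j) with hG
  set M0 : YY μ := AEEqFun.mk _ hm with hM0
  have hM0c : ∀ᵐ x ∂μ, (M0 : ℝ → ℂ) x = mz Complex.I x := AEEqFun.coeFn_mk _ hm
  have hMA : ∀ y, L.mapQ L (mY μ) hLL (L.mkQ y) = L.mkQ (mY μ y) := fun y => rfl
  have hz : ∀ y, L.mkQ y = 0 ↔ NY μ q y ≠ ⊤ := fun y => Submodule.Quotient.mk_eq_zero L
  have hUF : UF (L.mapQ L (mY μ) hLL) (fun j => L.mkQ (G j)) (L.mkQ M0) φ := by
    intro θ
    have hb1 := bm_sum (fun j => θ (L.mkQ (mY μ (G j)))) φ hφ Finset.univ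
    have hb2 := bm_sum (fun j => θ (L.mkQ (G j))) (fun j y => mz Complex.I y * φ j y)
      (fun j => hmB.mul (hφ j)) Finset.univ
    have hb3 := (BM.const (θ (L.mkQ M0) * -(Real.pi : ℂ)⁻¹)).mul hmB
    have hv := bVAN _ ((hb1.sub hb2).sub hb3) (fun a b => by
      obtain ⟨t, ht⟩ := bIND a b
      have hfin := comm_fin hc hg hR ht (N_ind hc a b)
      have h0 : L.mkQ (mY μ (∑ j, (∫ y, ind a b y * φ j y) • G j)
          - ∑ j, (∫ y, ind a b y * mz Complex.I y * φ j y) • G j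
          + ((Real.pi : ℂ)⁻¹ * ∫ y, ind a b y * mz Complex.I y) • M0) = 0 := by
        rw [hz]
        refine ne_of_eq_of_ne (eLpNorm_congr_ae ?_) hfin
        filter_upwards [AEEqFun.coeFn_add (mY μ (∑ j, (∫ y, ind a b y * φ j y) • G j)
            - ∑ j, (∫ y, ind a b y * mz Complex.I y * φ j y) • G j)
            (((Real.pi : ℂ)⁻¹ * ∫ y, ind a b y * mz Complex.I y) • M0),
          AEEqFun.coeFn_sub (mY μ (∑ j, (∫ y, ind a b y * φ j y) • G j))
            (∑ j, (∫ y, ind a b y * mz Complex.I y * φ j y) • G j),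
          mY_coe μ (∑ j, (∫ y, ind a b y * φ j y) • G j),
          coe_sum_mk (fun j => ∫ y, ind a b y * φ j y) g hg,
          coe_sum_mk (fun j => ∫ y, ind a b y * mz Complex.I y * φ j y) g hg,
          AEEqFun.coeFn_smul ((Real.pi : ℂ)⁻¹ * ∫ y, ind a b y * mz Complex.I y) M0, hM0c]
          with x e1 e2 e3 e4 e5 e6 e7
        rw [e1, Pi.add_apply, e2, Pi.sub_apply, e3, e4, e5, e6, Pi.smul_apply, e7, smul_eq_mul]
      have h1 := congrArg θ h0
      simp only [map_add, map_sub, map_sum, map_smul, smul_eq_mul, map_zero] at h1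
      have i1 := int_sum hφ (fun j => θ (L.mkQ (mY μ (G j)))) ht.1
      have i2 := int_sum (φ := fun j y => mz Complex.I y * φ j y) (fun j => hmB.mul (hφ j))
        (fun j => θ (L.mkQ (G j))) ht.1
      have i3 : ∫ y, ind a b y * (θ (L.mkQ M0) * -(Real.pi : ℂ)⁻¹ * mz Complex.I y) =
          θ (L.mkQ M0) * -(Real.pi : ℂ)⁻¹ * ∫ y, ind a b y * mz Complex.I y := by
        rw [← integral_const_mul]
        exact integral_congr_ae (Eventually.of_forall fun y => by ring)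
      have j1 := hb1.int ht.1
      have j2 := hb2.int ht.1
      have j3 := hb3.int ht.1
      have j4 : Integrable (fun y => ind a b y * ∑ j, θ (L.mkQ (mY μ (G j))) * φ j y
          - ind a b y * ∑ j, θ (L.mkQ (G j)) * (mz Complex.I y * φ j y)) := j1.sub j2
      simp only [mul_sub]
      rw [integral_sub j4 j3, integral_sub j1 j2, i1, i2, i3]
      simp only [← mul_assoc]
      linear_combination h1)
    filter_upwards [hv] with y hy
    simp only [hMA]
    have e : ∑ j, θ (L.mkQ (G j)) * (mz Complex.I y * φ j y) =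
        (∑ j, θ (L.mkQ (G j)) * φ j y) * mz Complex.I y := by
      rw [Finset.sum_mul]
      exact Finset.sum_congr rfl fun j _ => by ring
    rw [e] at hy
    linear_combination hy
  have hev : ∀ (c : ℂ) (v : YY μ ⧸ L), v ≠ 0 → L.mapQ L (mY μ) hLL v = c • v →
      c = 0 ∨ ∃ y : ℝ, c = mz Complex.I y := by
    intro c v hv0 hv
    by_contra hn
    rw [not_or, not_exists] at hn
    obtain ⟨y, rfl⟩ := L.mkQ_surjective v
    apply hv0
    rw [hz]
    apply hINV μ q c hn.1 hn.2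
    rw [← hz, map_sub, map_smul, ← hMA, hv, sub_self]
  have hcore := core _ _ _ φ hSYL2 hMINV hEIG hRAT hφ hUF hev
  refine ⟨fun f t hf _ => ?_, fun htop => ?_⟩
  · have h0 : L.mkQ (∑ j, (∫ y, f y * φ j y) • G j - ((Real.pi : ℂ)⁻¹ * ∫ y, f y) • M0) = 0 := by
      rw [← Module.forall_dual_apply_eq_zero_iff ℂ]
      intro θ
      simp only [map_sub, map_sum, map_smul, smul_eq_mul]
      rw [← int_sum hφ (fun j => θ (L.mkQ (G j))) hf.1]
      have e : ∫ y, f y * ∑ j, θ (L.mkQ (G j)) * φ j y =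
          ∫ y, f y * (θ (L.mkQ M0) * (Real.pi : ℂ)⁻¹) :=
        integral_congr_ae (by
          filter_upwards [hcore θ] with y hy
          rw [hy])
      rw [e, integral_mul_const]
      ring
    rw [hz] at h0
    refine ne_of_eq_of_ne (eLpNorm_congr_ae ?_) h0
    filter_upwards [AEEqFun.coeFn_sub (∑ j, (∫ y, f y * φ j y) • G j)
        (((Real.pi : ℂ)⁻¹ * ∫ y, f y) • M0), coe_sum_mk (fun j => ∫ y, f y * φ j y) g hg,
      AEEqFun.coeFn_smul ((Real.pi : ℂ)⁻¹ * ∫ y, f y) M0, hM0c] with x e1 e2 e3 e4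
    rw [e1, Pi.sub_apply, e2, e3, Pi.smul_apply, e4, smul_eq_mul]
  · have hne : L.mkQ M0 ≠ 0 := by
      rw [Ne, hz, not_not, ← htop]
      exact eLpNorm_congr_ae hM0c
    rw [Ne, ← Module.forall_dual_apply_eq_zero_iff ℂ, not_forall] at hne
    obtain ⟨θ, hθ⟩ := hne
    have hpi : (Real.pi : ℂ)⁻¹ ≠ 0 := inv_ne_zero (by exact_mod_cast Real.pi_ne_zero)
    refine ⟨fun j => (θ (L.mkQ M0) * (Real.pi : ℂ)⁻¹)⁻¹ * θ (L.mkQ (G j)), ?_⟩
    filter_upwards [hcore θ] with y hy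
    simp only [mul_assoc]
    rw [← Finset.mul_sum, hy, inv_mul_cancel₀ (mul_ne_zero hθ hpi)]

end Pool.Agent.Lib.HF26
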