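import Mathlib
import Pool.Agent.Lib.HF26.Blue

open MeasureTheory Filter Topology Polynomial
open scoped ENNReal NNReal

namespace Pool.Agent.Lib.HF26

namespace S3

theorem NY_add {μ : Measure ℝ} {q : ℝ≥0∞} (hq : 1 ≤ q) (y z : YY μ) :
    NY μ q (y + z) ≤ NY μ q y + NY μ q z := by
  unfold NY
  rw [eLpNorm_congr_ae (AEEqFun.coeFn_add y z)]
  exact eLpNorm_add_le y.aestronglyMeasurable z.aestronglyMeasurable hq

theorem NY_smul {μ : Measure ℝ} {q : ℝ≥0∞} (c : ℂ) (y : YY μ) :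
    NY μ q (c • y) = ‖c‖ₑ * NY μ q y := by
  unfold NY
  rw [eLpNorm_congr_ae (AEEqFun.coeFn_smul c y)]
  exact eLpNorm_const_smul c _ q μ

theorem NY_neg {μ : Measure ℝ} {q : ℝ≥0∞} (y : YY μ) : NY μ q (-y) = NY μ q y := by
  rw [← neg_one_smul ℂ y, NY_smul, enorm_neg, enorm_one, one_mul]

theorem NY_zero {μ : Measure ℝ} {q : ℝ≥0∞} : NY μ q 0 = 0 := by
  unfold NY
  rw [eLpNorm_congr_ae (AEEqFun.coeFn_zero (μ := μ) (β := ℂ))]
  exact eLpNorm_zero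

/-- classes of finite norm -/
def LL (μ : Measure ℝ) (q : ℝ≥0∞) (hq : 1 ≤ q) : Submodule ℂ (YY μ) where
  carrier := {y | NY μ q y ≠ ⊤}
  zero_mem' := by
    show NY μ q 0 ≠ ⊤
    rw [NY_zero]
    exact ENNReal.zero_ne_top
  add_mem' := by
    intro y z hy hz
    exact ne_top_of_le_ne_top (ENNReal.add_ne_top.2 ⟨hy, hz⟩) (NY_add hq y z)
  smul_mem' := by
    intro c y hy
    show NY μ q (c • y) ≠ ⊤
    rw [NY_smul]
    exact ENNReal.mul_ne_top enorm_ne_top hy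

variable {X : Type} [AddCommGroup X] [Module ℂ X]

/-- bounded functionals -/
def EB (N : X → ℝ≥0∞) : Submodule ℂ (X →ₗ[ℂ] ℂ) where
  carrier := {a | BF N a}
  zero_mem' := ⟨0, fun x => by rw [LinearMap.zero_apply, enorm_zero]; exact zero_le⟩
  add_mem' := by
    rintro a b ⟨K, hK⟩ ⟨K', hK'⟩
    refine ⟨K + K', fun x => ?_⟩
    rw [LinearMap.add_apply, ENNReal.coe_add, add_mul]
    exact (enorm_add_le _ _).trans (add_le_add (hK x) (hK' x))
  smul_mem' := by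
    rintro c a ⟨K, hK⟩
    refine ⟨‖c‖₊ * K, fun x => ?_⟩
    rw [LinearMap.smul_apply, smul_eq_mul, enorm_mul, ENNReal.coe_mul, mul_assoc]
    exact mul_le_mul_right (hK x) _

theorem BOp_add {μ : Measure ℝ} {q : ℝ≥0∞} (hq : 1 ≤ q) {N : X → ℝ≥0∞} {S S' : X →ₗ[ℂ] YY μ}
    (h : BOp μ q N S) (h' : BOp μ q N S') : BOp μ q N (S + S') := by
  obtain ⟨C, hC⟩ := h
  obtain ⟨C', hC'⟩ := h'
  refine ⟨C + C', fun x => ?_⟩
  rw [LinearMap.add_apply, ENNReal.coe_add, add_mul]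
  exact (NY_add hq _ _).trans (add_le_add (hC x) (hC' x))

theorem BOp_comm {μ : Measure ℝ} {q : ℝ≥0∞} (hq : 1 ≤ q) {N : X → ℝ≥0∞} {R : X →ₗ[ℂ] YY μ}
    (h : BOp μ q N R) {MX : X →ₗ[ℂ] X} (hM : ∀ x, N (MX x) ≤ N x)
    (hm : ∀ y : YY μ, NY μ q (mY μ y) ≤ NY μ q y) :
    BOp μ q N (R ∘ₗ MX - mY μ ∘ₗ R) := by
  obtain ⟨C, hC⟩ := h
  refine ⟨C + C, fun x => ?_⟩
  rw [LinearMap.sub_apply, LinearMap.comp_apply, LinearMap.comp_apply, sub_eq_add_neg,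
    ENNReal.coe_add, add_mul]
  refine (NY_add hq _ _).trans (add_le_add ?_ ?_)
  · exact (hC _).trans (mul_le_mul_right (hM x) _)
  · rw [NY_neg]
    exact (hm _).trans (hC x)

section alg

variable {B : Type} [AddCommGroup B] [Module ℂ B]

theorem fr_of_span (G : X →ₗ[ℂ] B) (s : Set B) (hs : s.Finite)
    (h : ∀ x, G x ∈ Submodule.span ℂ s) : FiniteDimensional ℂ (LinearMap.range G) := by
  have := FiniteDimensional.span_of_finite ℂ hs
  refine Submodule.finiteDimensional_of_le (S₂ := Submodule.span ℂ s) ?_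
  rintro _ ⟨x, rfl⟩
  exact h x

theorem sum_app {ι : Type} [Fintype ι] (α : ι → X →ₗ[ℂ] ℂ) (b : ι → B) (x : X) :
    (∑ j, (α j).smulRight (b j)) x = ∑ j, α j x • b j := by
  rw [LinearMap.sum_apply]
  rfl

theorem comp_sum {ι : Type} [Fintype ι] (α : ι → X →ₗ[ℂ] ℂ) (b : ι → B) (l : B →ₗ[ℂ] ℂ) :
    l ∘ₗ (∑ j, (α j).smulRight (b j)) = ∑ j, l (b j) • α j := by
  ext x
  rw [LinearMap.comp_apply, sum_app, map_sum, LinearMap.sum_apply]
  refine Finset.sum_congr rfl fun j _ => ?_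
  rw [map_smul, LinearMap.smul_apply, smul_eq_mul, smul_eq_mul, mul_comm]

theorem comm_poly (MX : X →ₗ[ℂ] X) (M : B →ₗ[ℂ] B) (T : X →ₗ[ℂ] B) (a1 : X →ₗ[ℂ] ℂ) (y1 : B)
    (h : ∀ x, T (MX x) - M (T x) = a1 x • y1) (r : ℕ) :
    ∀ Q : ℂ[X], Q.natDegree ≤ r → ∃ z : Fin r → B, ∀ x,
      T (aeval MX Q x) - aeval M Q (T x) = ∑ i : Fin r, a1 ((MX ^ (i : ℕ)) x) • z i := by
  induction r with
  | zero =>
    intro Q hQ
    refine ⟨fun i => 0, fun x => ?_⟩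
    rw [eq_C_of_natDegree_le_zero hQ, aeval_C, aeval_C, Module.algebraMap_end_apply,
      Module.algebraMap_end_apply, map_smul, sub_self, Finset.univ_eq_empty, Finset.sum_empty]
  | succ r ih =>
    intro Q hQ
    have hd : Q.divX.natDegree ≤ r := by
      rw [natDegree_divX_eq_natDegree_tsub_one]
      omega
    obtain ⟨z, hz⟩ := ih Q.divX hd
    refine ⟨Fin.cons (aeval M Q.divX y1) z, fun x => ?_⟩
    have e1 : aeval MX Q x = aeval MX Q.divX (MX x) + Q.coeff 0 • x := by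
      conv_lhs => rw [← divX_mul_X_add Q]
      rw [map_add, map_mul, aeval_X, aeval_C, LinearMap.add_apply, Module.End.mul_apply,
        Module.algebraMap_end_apply]
    have e2 : aeval M Q (T x) = aeval M Q.divX (M (T x)) + Q.coeff 0 • T x := by
      conv_lhs => rw [← divX_mul_X_add Q]
      rw [map_add, map_mul, aeval_X, aeval_C, LinearMap.add_apply, Module.End.mul_apply,
        Module.algebraMap_end_apply]
    have e3 : aeval M Q.divX (T (MX x)) - aeval M Q.divX (M (T x)) = a1 x • aeval M Q.divX y1 := by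
      rw [← map_sub, h x, map_smul]
    have e4 : ∑ i : Fin (r + 1), a1 ((MX ^ (i : ℕ)) x) •
        (Fin.cons (aeval M Q.divX y1) z : Fin (r + 1) → B) i
        = a1 x • aeval M Q.divX y1 + ∑ i : Fin r, a1 ((MX ^ (i : ℕ)) (MX x)) • z i := by
      rw [Fin.sum_univ_succ, Fin.cons_zero, Fin.val_zero, pow_zero, Module.End.one_apply]
      refine congrArg _ (Finset.sum_congr rfl fun i _ => ?_)
      rw [Fin.cons_succ, Fin.val_succ, pow_succ, Module.End.mul_apply]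
    rw [e4, ← hz (MX x), ← e3, e1, e2, map_add, map_smul]
    abel

theorem aeval_comm (M : B →ₗ[ℂ] B) (Q : ℂ[X]) (y : B) : aeval M Q (M y) = M (aeval M Q y) := by
  have h : aeval M (Q * Polynomial.X) = aeval M (Polynomial.X * Q) := by rw [mul_comm]
  rw [map_mul, map_mul, aeval_X] at h
  exact LinearMap.congr_fun h y

theorem quot_pow {A : Type} [AddCommGroup A] [Module ℂ A] (MX : X →ₗ[ℂ] X) (MA : A →ₗ[ℂ] A)
    (p : (X →ₗ[ℂ] ℂ) →ₗ[ℂ] A) (h : ∀ a, MA (p a) = p (a ∘ₗ MX)) (k : ℕ) :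
    ∀ a, (MA ^ k) (p a) = p (a ∘ₗ (MX ^ k)) := by
  induction k with
  | zero => intro a; rfl
  | succ k ih =>
    intro a
    rw [pow_succ', Module.End.mul_apply, ih, h, pow_succ]
    rfl

theorem quot_aeval {A : Type} [AddCommGroup A] [Module ℂ A] (MX : X →ₗ[ℂ] X) (MA : A →ₗ[ℂ] A)
    (p : (X →ₗ[ℂ] ℂ) →ₗ[ℂ] A) (h : ∀ a, MA (p a) = p (a ∘ₗ MX)) (Q : ℂ[X]) (a : X →ₗ[ℂ] ℂ) :
    aeval MA Q (p a) = p (a ∘ₗ aeval MX Q) := by
  induction Q using Polynomial.induction_on' with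
  | add P Q hP hQ =>
    rw [map_add, map_add, LinearMap.add_apply, hP, hQ, LinearMap.comp_add, map_add]
  | monomial k c =>
    rw [aeval_monomial, aeval_monomial, Module.End.mul_apply, Module.algebraMap_end_apply,
      quot_pow MX MA p h, ← map_smul]
    refine congrArg p (LinearMap.ext fun x => ?_)
    rw [LinearMap.smul_apply, LinearMap.comp_apply, LinearMap.comp_apply, Module.End.mul_apply,
      Module.algebraMap_end_apply, map_smul]

/-- the class of l applied to the commutator of a finite sum of rank one maps -/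
theorem quot_comm {A : Type} [AddCommGroup A] [Module ℂ A] (MX : X →ₗ[ℂ] X) (MA : A →ₗ[ℂ] A)
    (M : B →ₗ[ℂ] B) (p : (X →ₗ[ℂ] ℂ) →ₗ[ℂ] A) (h : ∀ a, MA (p a) = p (a ∘ₗ MX))
    {ι : Type} [Fintype ι] (α : ι → X →ₗ[ℂ] ℂ) (b : ι → B) (l : B →ₗ[ℂ] ℂ) :
    MA (∑ j, l (b j) • p (α j)) - ∑ j, l (M (b j)) • p (α j)
      = p (l ∘ₗ ((∑ j, (α j).smulRight (b j)) ∘ₗ MX - M ∘ₗ (∑ j, (α j).smulRight (b j)))) := by
  have e : ∀ l' : B →ₗ[ℂ] ℂ, ∑ j, l' (b j) • p (α j) = p (l' ∘ₗ ∑ j, (α j).smulRight (b j)) := by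
    intro l'
    rw [comp_sum, map_sum]
    exact Finset.sum_congr rfl fun j _ => (map_smul p _ _).symm
  have e2 : ∑ j, l (M (b j)) • p (α j) = p ((l ∘ₗ M) ∘ₗ ∑ j, (α j).smulRight (b j)) := e (l ∘ₗ M)
  rw [e l, e2, h, ← map_sub, LinearMap.comp_sub]
  rfl

end alg

end S3

open S3 in
theorem fS3 (hFRA : St_FRA) (hFRC : St_FRC) (hSYL1 : St_SYL1) (hSYL2 : St_SYL2)
    (hMINP : St_MINP) (hEIG : St_EIG) : St_S3 := by
  intro μ q hq hac X _ _ N hN MX hMX T a1 y1 hy1 hcomm n a g hR hFL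
  obtain ⟨-, -, hbij, heig, hm⟩ := hEIG μ hac
  obtain ⟨F, hF⟩ : ∃ F : X →ₗ[ℂ] YY μ, F = ∑ j, (a j).smulRight (g j) := ⟨_, rfl⟩
  have hFx : ∀ x, F x = ∑ j, a j x • g j := fun x => by rw [hF, sum_app]
  rw [← hF] at hR
  obtain ⟨K, hK⟩ : ∃ K : X →ₗ[ℂ] YY μ, K = (T - F) ∘ₗ MX - mY μ ∘ₗ (T - F) := ⟨_, rfl⟩
  have hKx : ∀ x, K x = a1 x • y1 - (F (MX x) - mY μ (F x)) := by
    intro x
    rw [hK, LinearMap.sub_apply, LinearMap.comp_apply, LinearMap.comp_apply, LinearMap.sub_apply,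
      LinearMap.sub_apply, map_sub, ← hcomm x]
    abel
  have hKb : BOp μ q N K := by
    rw [hK]
    exact BOp_comm hq hR hMX (hm q)
  have hKf : FiniteDimensional ℂ (LinearMap.range K) := by
    refine fr_of_span K (insert y1 (Set.range g ∪ Set.range fun j => mY μ (g j)))
      (((Set.finite_range _).union (Set.finite_range _)).insert _) fun x => ?_
    rw [hKx, hFx, hFx, map_sum]
    refine Submodule.sub_mem _ (Submodule.smul_mem _ _ (Submodule.subset_span (Or.inl rfl)))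
      (Submodule.sub_mem _ (Submodule.sum_mem _ fun j _ => ?_) (Submodule.sum_mem _ fun j _ => ?_))
    · exact Submodule.smul_mem _ _ (Submodule.subset_span (Or.inr (Or.inl ⟨j, rfl⟩)))
    · rw [map_smul]
      exact Submodule.smul_mem _ _ (Submodule.subset_span (Or.inr (Or.inr ⟨j, rfl⟩)))
  have hKE : ∀ l : YY μ →ₗ[ℂ] ℂ, l ∘ₗ K ∈ EB N := hFRA μ q hq X N hN K hKf hKb
  have hinv : EB N ≤ (EB N).comap (LinearMap.lcomp ℂ ℂ MX) := by
    rintro b ⟨C, hC⟩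
    exact ⟨C, fun x => (hC (MX x)).trans (mul_le_mul_right (hMX x) _)⟩
  obtain ⟨p, hp⟩ : ∃ p : (X →ₗ[ℂ] ℂ) →ₗ[ℂ] ((X →ₗ[ℂ] ℂ) ⧸ EB N), p = (EB N).mkQ := ⟨_, rfl⟩
  have hp0 : ∀ b, p b = 0 ↔ b ∈ EB N := fun b => by
    rw [hp, Submodule.mkQ_apply, Submodule.Quotient.mk_eq_zero]
  obtain ⟨MA, hMA⟩ : ∃ MA : ((X →ₗ[ℂ] ℂ) ⧸ EB N) →ₗ[ℂ] ((X →ₗ[ℂ] ℂ) ⧸ EB N),
      ∀ b, MA (p b) = p (b ∘ₗ MX) :=
    ⟨(EB N).mapQ (EB N) (LinearMap.lcomp ℂ ℂ MX) hinv, fun b => by rw [hp]; rfl⟩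
  have hs2 : ∀ l : YY μ →ₗ[ℂ] ℂ, MA (∑ j, l (g j) • p (a j)) - ∑ j, l (mY μ (g j)) • p (a j)
      = l y1 • p a1 := by
    intro l
    rw [quot_comm MX MA (mY μ) p hMA a g l, ← hF, ← map_smul, ← sub_eq_zero, ← map_sub, hp0]
    have e : l ∘ₗ (F ∘ₗ MX - mY μ ∘ₗ F) - l y1 • a1 = -(l ∘ₗ K) := by
      refine LinearMap.ext fun x => ?_
      rw [LinearMap.neg_apply, LinearMap.comp_apply, hKx, map_sub, map_smul, LinearMap.sub_apply,
        LinearMap.smul_apply, LinearMap.comp_apply, LinearMap.sub_apply, LinearMap.comp_apply,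
        LinearMap.comp_apply, smul_eq_mul, smul_eq_mul]
      ring
    rw [e]
    exact (EB N).neg_mem (hKE l)
  obtain ⟨V, hVf, hVn, hV0, hVi, -⟩ := hSYL2 _ (YY μ) MA (mY μ) heig n (fun j => p (a j)) g (p a1) y1
    hy1 hs2
  obtain ⟨r, Q, hr, hQ0, hQd, hQa, hli⟩ := hMINP _ MA V n hVf hVn hVi (p a1) hV0
  obtain ⟨z, hz⟩ := comm_poly MX (mY μ) T a1 y1 hcomm r Q hQd
  obtain ⟨hinj, hsurj⟩ := hbij Q hQ0
  choose w hw using fun i => hsurj (z i)
  obtain ⟨y2, hy2⟩ := hsurj y1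
  obtain ⟨α, hα⟩ : ∃ α : Fin n ⊕ Fin r → X →ₗ[ℂ] ℂ,
      α = Sum.elim a fun i : Fin r => a1 ∘ₗ (MX ^ (i : ℕ)) := ⟨_, rfl⟩
  obtain ⟨b, hb⟩ : ∃ b : Fin n ⊕ Fin r → YY μ, b = Sum.elim g w := ⟨_, rfl⟩
  obtain ⟨G, hG⟩ : ∃ G : X →ₗ[ℂ] YY μ, G = ∑ j, (α j).smulRight (b j) := ⟨_, rfl⟩
  have hGx : ∀ x, G x = F x + ∑ i : Fin r, a1 ((MX ^ (i : ℕ)) x) • w i := by
    intro x
    rw [hG, sum_app, Fintype.sum_sum_type, hFx, hα, hb]
    rfl
  obtain ⟨S, hS⟩ : ∃ S : X →ₗ[ℂ] YY μ, S = (T - F) + G := ⟨_, rfl⟩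
  have hSx : ∀ x, S x = T x + ∑ i : Fin r, a1 ((MX ^ (i : ℕ)) x) • w i := by
    intro x
    rw [hS, LinearMap.add_apply, LinearMap.sub_apply, hGx]
    abel
  have hQS : ∀ x, aeval (mY μ) Q (S x) = T (aeval MX Q x) := by
    intro x
    have e : aeval (mY μ) Q (∑ i : Fin r, a1 ((MX ^ (i : ℕ)) x) • w i)
        = ∑ i : Fin r, a1 ((MX ^ (i : ℕ)) x) • z i := by
      rw [map_sum]
      exact Finset.sum_congr rfl fun i _ => by rw [map_smul, hw]
    rw [hSx, map_add, e, ← hz x]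
    abel
  have hSc : ∀ x, S (MX x) - mY μ (S x) = a1 (aeval MX Q x) • y2 := by
    intro x
    apply hinj
    rw [map_sub, map_smul, hy2, hQS, aeval_comm, aeval_comm, hQS, hcomm]
  have haQ : a1 ∘ₗ aeval MX Q ∈ EB N := by
    rw [← hp0, ← quot_aeval MX MA p hMA, hQa]
  have hs1 : ∀ l : YY μ →ₗ[ℂ] ℂ,
      MA (∑ j, l (b j) • p (α j)) = ∑ j, l (mY μ (b j)) • p (α j) := by
    intro l
    rw [← sub_eq_zero, quot_comm MX MA (mY μ) p hMA α b l, ← hG, hp0]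
    have e : l ∘ₗ (G ∘ₗ MX - mY μ ∘ₗ G) = l y2 • (a1 ∘ₗ aeval MX Q) - l ∘ₗ K := by
      refine LinearMap.ext fun x => ?_
      have e1 : G (MX x) - mY μ (G x) = a1 (aeval MX Q x) • y2 - K x := by
        rw [← hSc, hK, hS, LinearMap.add_apply, LinearMap.add_apply, map_add,
          LinearMap.sub_apply ((T - F) ∘ₗ MX), LinearMap.comp_apply, LinearMap.comp_apply]
        abel
      rw [LinearMap.comp_apply, LinearMap.sub_apply, LinearMap.comp_apply, LinearMap.comp_apply, e1,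
        map_sub, map_smul, LinearMap.sub_apply, LinearMap.smul_apply, LinearMap.comp_apply,
        LinearMap.comp_apply, smul_eq_mul, smul_eq_mul, mul_comm]
    rw [e]
    exact (EB N).sub_mem ((EB N).smul_mem _ haQ) (hKE l)
  have hv0 := hSYL1 _ (YY μ) MA (mY μ) heig (Fin n ⊕ Fin r) (fun j => p (α j)) b hs1
  have hGE : ∀ l : YY μ →ₗ[ℂ] ℂ, l ∘ₗ G ∈ EB N := by
    intro l
    rw [← hp0, hG, comp_sum, map_sum, ← hv0 l]
    exact Finset.sum_congr rfl fun j _ => map_smul p _ _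
  have hwL : ∀ i, w i ∈ LL μ q hq := by
    intro i
    rw [← Subspace.forall_mem_dualAnnihilator_apply_eq_zero_iff]
    intro l hl
    rw [Submodule.mem_dualAnnihilator] at hl
    have e : l ∘ₗ G = ∑ i : Fin r, l (w i) • (a1 ∘ₗ (MX ^ (i : ℕ))) := by
      refine LinearMap.ext fun x => ?_
      have h0 : l (F x) = 0 := hl _ (by rw [hFx]; exact hFL x)
      rw [LinearMap.comp_apply, hGx, map_add, h0, zero_add, map_sum, LinearMap.sum_apply]
      refine Finset.sum_congr rfl fun j _ => ?_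
      rw [map_smul, LinearMap.smul_apply, LinearMap.comp_apply, smul_eq_mul, smul_eq_mul, mul_comm]
    have e2 : ∑ i : Fin r, l (w i) • (MA ^ (i : ℕ)) (p a1) = 0 := by
      rw [← (hp0 _).2 (hGE l), e, map_sum]
      exact Finset.sum_congr rfl fun j _ => by rw [map_smul, quot_pow MX MA p hMA]
    exact Fintype.linearIndependent_iff.1 hli (fun i => l (w i)) e2 i
  have hGf : FiniteDimensional ℂ (LinearMap.range G) := by
    refine fr_of_span G (Set.range b) (Set.finite_range _) fun x => ?_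
    rw [hG, sum_app]
    exact Submodule.sum_mem _ fun j _ => Submodule.smul_mem _ _ (Submodule.subset_span ⟨j, rfl⟩)
  have hGL : ∀ x, G x ∈ LL μ q hq := by
    intro x
    rw [hGx]
    refine Submodule.add_mem _ ?_ (Submodule.sum_mem _ fun i _ => Submodule.smul_mem _ _ (hwL i))
    rw [hFx]
    exact hFL x
  have hGb : BOp μ q N G := hFRC μ q hq X N hN G hGf hGL hGE
  refine ⟨r, Q, hr, hQ0, hQd, S, ?_, hQS⟩
  rw [hS]
  exact BOp_add hq hR hGb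

end Pool.Agent.Lib.HF26
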