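import Mathlib
import Pool.Agent.Lib.HF26.Blue2

open MeasureTheory Filter Topology Polynomial
open scoped ENNReal NNReal

namespace Pool.Agent.Lib.HF26

open Pool.Agent.Lib.HT26

namespace S3V

theorem ny_add {μ : Measure ℝ} {q : ℝ≥0∞} (hq : 1 ≤ q) (y z : YY μ) :
    NY μ q (y + z) ≤ NY μ q y + NY μ q z := by
  unfold NY
  rw [eLpNorm_congr_ae (AEEqFun.coeFn_add y z)]
  exact eLpNorm_add_le y.aestronglyMeasurable z.aestronglyMeasurable hq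

theorem ny_smul {μ : Measure ℝ} {q : ℝ≥0∞} (c : ℂ) (y : YY μ) :
    NY μ q (c • y) = ‖c‖ₑ * NY μ q y := by
  unfold NY
  rw [eLpNorm_congr_ae (AEEqFun.coeFn_smul c y)]
  exact eLpNorm_const_smul c _ q μ

/-- bounded functionals -/
def Eb {X : Type} [AddCommGroup X] [Module ℂ X] (N : X → ℝ≥0∞) :
    Submodule ℂ (X →ₗ[ℂ] ℂ) where
  carrier := {a | BF N a}
  add_mem' := by
    rintro a b ⟨K, hK⟩ ⟨L, hL⟩
    refine ⟨K + L, fun x => ?_⟩
    rw [LinearMap.add_apply, ENNReal.coe_add, add_mul]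
    exact (enorm_add_le _ _).trans (add_le_add (hK x) (hL x))
  zero_mem' := ⟨0, fun x => by rw [LinearMap.zero_apply, enorm_zero]; exact zero_le⟩
  smul_mem' := by
    rintro c a ⟨K, hK⟩
    refine ⟨‖c‖₊ * K, fun x => ?_⟩
    rw [LinearMap.smul_apply, enorm_smul, ENNReal.coe_mul, mul_assoc]
    exact mul_le_mul' le_rfl (hK x)

section bop
variable {μ : Measure ℝ} {q : ℝ≥0∞} {X : Type} [AddCommGroup X] [Module ℂ X] {N : X → ℝ≥0∞}

theorem bop_sub (hq : 1 ≤ q) {S U : X →ₗ[ℂ] YY μ} (hS : BOp μ q N S) (hU : BOp μ q N U) :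
    BOp μ q N (S - U) := by
  obtain ⟨K, hK⟩ := hS
  obtain ⟨L, hL⟩ := hU
  refine ⟨K + L, fun x => ?_⟩
  have h : (S - U) x = S x + (-1 : ℂ) • U x := by
    have h1 : (-1 : ℂ) • U x = -U x := neg_one_smul ℂ (U x)
    rw [h1]
    exact sub_eq_add_neg (S x) (U x)
  rw [h, ENNReal.coe_add, add_mul]
  refine (ny_add hq _ _).trans (add_le_add (hK x) ?_)
  rw [ny_smul, enorm_neg, enorm_one, one_mul]
  exact hL x

end bop

section alg
variable {X Y : Type} [AddCommGroup X] [Module ℂ X] [AddCommGroup Y] [Module ℂ Y]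

/-- finite rank operator -/
noncomputable def FR {ι : Type} [Fintype ι] (a : ι → X →ₗ[ℂ] ℂ) (b : ι → Y) : X →ₗ[ℂ] Y :=
  ∑ j, (a j).smulRight (b j)

theorem FR_apply {ι : Type} [Fintype ι] (a : ι → X →ₗ[ℂ] ℂ) (b : ι → Y) (x : X) :
    FR a b x = ∑ j, a j x • b j := by
  unfold FR
  rw [LinearMap.sum_apply]
  rfl

theorem FR_fin {ι : Type} [Fintype ι] (a : ι → X →ₗ[ℂ] ℂ) (b : ι → Y) :
    FiniteDimensional ℂ (LinearMap.range (FR a b)) := by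
  have h1 : FiniteDimensional ℂ (Submodule.span ℂ (Set.range b)) :=
    FiniteDimensional.span_of_finite ℂ (Set.finite_range b)
  refine Submodule.finiteDimensional_of_le (S₂ := Submodule.span ℂ (Set.range b)) ?_
  rintro _ ⟨x, rfl⟩
  rw [FR_apply]
  exact Submodule.sum_mem _ fun j _ =>
    Submodule.smul_mem _ _ (Submodule.subset_span ⟨j, rfl⟩)

theorem FR_comp {ι : Type} [Fintype ι] (a : ι → X →ₗ[ℂ] ℂ) (b : ι → Y) (l : Y →ₗ[ℂ] ℂ) :
    l ∘ₗ FR a b = ∑ j, l (b j) • a j := by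
  ext x
  rw [LinearMap.comp_apply, FR_apply, map_sum, LinearMap.sum_apply]
  refine Finset.sum_congr rfl fun j _ => ?_
  rw [map_smul, LinearMap.smul_apply, smul_eq_mul, smul_eq_mul, mul_comm]

theorem FR_comp2 {ι : Type} [Fintype ι] (a : ι → X →ₗ[ℂ] ℂ) (b : ι → Y) (l : Y →ₗ[ℂ] ℂ)
    (M : Y →ₗ[ℂ] Y) : l ∘ₗ (M ∘ₗ FR a b) = ∑ j, l (M (b j)) • a j := by
  rw [← LinearMap.comp_assoc, FR_comp]
  rfl

theorem fin_sub {S U : X →ₗ[ℂ] Y} (hS : FiniteDimensional ℂ (LinearMap.range S))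
    (hU : FiniteDimensional ℂ (LinearMap.range U)) :
    FiniteDimensional ℂ (LinearMap.range (S - U)) := by
  refine Submodule.finiteDimensional_of_le (S₂ := LinearMap.range S ⊔ LinearMap.range U) ?_
  rintro _ ⟨x, rfl⟩
  rw [LinearMap.sub_apply]
  exact Submodule.sub_mem _ (Submodule.mem_sup_left ⟨x, rfl⟩) (Submodule.mem_sup_right ⟨x, rfl⟩)

theorem quo_pow (E : Submodule ℂ (X →ₗ[ℂ] ℂ)) (MX : X →ₗ[ℂ] X)
    (MA : ((X →ₗ[ℂ] ℂ) ⧸ E) →ₗ[ℂ] ((X →ₗ[ℂ] ℂ) ⧸ E))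
    (hMA : ∀ a, MA (E.mkQ a) = E.mkQ (a ∘ₗ MX)) (k : ℕ) :
    ∀ a, (MA ^ k) (E.mkQ a) = E.mkQ (a ∘ₗ (MX ^ k)) := by
  induction k with
  | zero => intro a; rfl
  | succ k ih =>
    intro a
    rw [pow_succ', Module.End.mul_apply, ih, hMA, pow_succ]
    rfl

theorem quo_sum (E : Submodule ℂ (X →ₗ[ℂ] ℂ)) {ι : Type} [Fintype ι] (c : ι → ℂ)
    (a : ι → X →ₗ[ℂ] ℂ) : ∑ j, c j • E.mkQ (a j) = E.mkQ (∑ j, c j • a j) := by
  rw [map_sum]
  exact Finset.sum_congr rfl fun j _ => (map_smul _ _ _).symm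

end alg

end S3V

open S3V in
theorem fS3V (hFRA : St_FRA) (hSYL2 : St_SYL2) (hEIG : St_EIG) : St_S3V := by
  intro μ q hq hac X _ _ N hN MX hMX T a1 y1 hy1 hT n a g hB i
  obtain ⟨-, -, -, heig, hM⟩ := hEIG μ hac
  have hB' : BOp μ q N (T - FR a g) := hB
  have hle : Eb N ≤ (Eb N).comap (LinearMap.lcomp ℂ ℂ MX) := by
    rintro b ⟨K, hK⟩
    exact ⟨K, fun x => (hK (MX x)).trans (mul_le_mul' le_rfl (hMX x))⟩
  obtain ⟨MA, hMA⟩ : ∃ MA : ((X →ₗ[ℂ] ℂ) ⧸ Eb N) →ₗ[ℂ] ((X →ₗ[ℂ] ℂ) ⧸ Eb N),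
      ∀ b, MA ((Eb N).mkQ b) = (Eb N).mkQ (b ∘ₗ MX) :=
    ⟨(Eb N).mapQ (Eb N) (LinearMap.lcomp ℂ ℂ MX) hle, fun b => rfl⟩
  have hzero : ∀ b, (Eb N).mkQ b = 0 ↔ b ∈ Eb N := fun b => Submodule.Quotient.mk_eq_zero _
  -- the commutator of the bounded part
  have hKb : BOp μ q N ((T - FR a g) ∘ₗ MX - mY μ ∘ₗ (T - FR a g)) := by
    obtain ⟨C, hC⟩ := hB'
    exact bop_sub hq ⟨C, fun x => (hC (MX x)).trans (mul_le_mul' le_rfl (hMX x))⟩
      ⟨C, fun x => (hM q _).trans (hC x)⟩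
  have hKe : (T - FR a g) ∘ₗ MX - mY μ ∘ₗ (T - FR a g)
      = FR (fun _ : Unit => a1) (fun _ => y1)
        - (FR (fun j => a j ∘ₗ MX) g - FR a (fun j => mY μ (g j))) := by
    refine LinearMap.ext fun x => ?_
    have h1 : mY μ (FR a g x) = FR a (fun j => mY μ (g j)) x := by
      rw [FR_apply, FR_apply, map_sum]
      exact Finset.sum_congr rfl fun j _ => map_smul _ _ _
    have h2 : FR a g (MX x) = FR (fun j => a j ∘ₗ MX) g x := by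
      rw [FR_apply, FR_apply]
      rfl
    have h3 : FR (fun _ : Unit => a1) (fun _ => y1) x = T (MX x) - mY μ (T x) := by
      rw [FR_apply, hT, Fintype.sum_unique]
    simp only [LinearMap.sub_apply, LinearMap.comp_apply, map_sub]
    rw [h1, h2, h3]
    abel
  have hKl : ∀ l : YY μ →ₗ[ℂ] ℂ,
      l ∘ₗ ((T - FR a g) ∘ₗ MX - mY μ ∘ₗ (T - FR a g)) ∈ Eb N := fun l =>
    hFRA μ q hq X N hN _ (by
      rw [hKe]
      exact fin_sub (FR_fin _ _) (fin_sub (FR_fin _ _) (FR_fin _ _))) hKb l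
  have hsyl : ∀ l : YY μ →ₗ[ℂ] ℂ, MA (∑ j, l (g j) • (Eb N).mkQ (a j))
      - ∑ j, l (mY μ (g j)) • (Eb N).mkQ (a j) = l y1 • (Eb N).mkQ a1 := by
    intro l
    rw [quo_sum, quo_sum, hMA, ← map_sub, ← map_smul, ← FR_comp, ← FR_comp2, eq_comm,
      ← sub_eq_zero, ← map_sub, hzero]
    have he : l y1 • a1 - ((l ∘ₗ FR a g) ∘ₗ MX - l ∘ₗ (mY μ ∘ₗ FR a g))
        = l ∘ₗ ((T - FR a g) ∘ₗ MX - mY μ ∘ₗ (T - FR a g)) := by
      refine LinearMap.ext fun x => ?_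
      have h1 : l y1 • a1 x = l (T (MX x)) - l (mY μ (T x)) := by
        rw [← map_sub, hT, map_smul, smul_eq_mul, smul_eq_mul, mul_comm]
      simp only [LinearMap.sub_apply, LinearMap.comp_apply, map_sub, LinearMap.smul_apply]
      rw [h1]
      ring
    rw [he]
    exact hKl l
  obtain ⟨V, -, -, hV3, hV4, hV5⟩ := hSYL2 _ _ MA (mY μ) heig n (fun j => (Eb N).mkQ (a j)) g
    ((Eb N).mkQ a1) y1 hy1 hsyl
  have hpow : ∀ k : ℕ, (MA ^ k) ((Eb N).mkQ a1) ∈ V := by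
    intro k
    induction k with
    | zero => exact hV3
    | succ k ih =>
      rw [pow_succ', Module.End.mul_apply]
      exact hV4 _ ih
  obtain ⟨l, hl⟩ := (hV5 _).mp (hpow i)
  rw [quo_pow _ MX MA hMA, quo_sum, ← sub_eq_zero, ← map_sub, hzero] at hl
  exact ⟨fun j => l (g j), hl⟩

end Pool.Agent.Lib.HF26
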