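import Pool.Agent.Lib.HF26.Blue
import Pool.Agent.Lib.HT26.B_EXT
import Pool.Agent.Lib.HT26.B_LIN
import Pool.Agent.Lib.HT26.B_MEAS
import Pool.Agent.Lib.HT26.B_ID1
import Pool.Agent.Lib.HT26.B_ID2
import Pool.Agent.Lib.HT26.B_CUT

open MeasureTheory Filter Topology Polynomial
open scoped ENNReal NNReal

namespace Pool.Agent.Lib.HF26

open Pool.Agent.Lib.HT26

namespace S4

/-- the function vanishes near each point of the list and near infinity -/
def Supp (ws : List ℝ) (h : ℝ → ℂ) : Prop := ∀ w ∈ ws, ∃ n : ℕ, ∀ y, y ∉ cutA w n → h y = 0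

theorem Supp.mul {ws : List ℝ} {h : ℝ → ℂ} (hh : Supp ws h) (s : ℝ → ℂ) :
    Supp ws (fun y => h y * s y) := fun w hw => by
  obtain ⟨n, hn⟩ := hh w hw
  exact ⟨n, fun y hy => mul_eq_zero_of_left (hn y hy) _⟩

theorem cuts {μ : Measure ℝ} {q : ℝ≥0∞} (c : Ctx μ q) (s : ℝ → ℂ) (hs : Measurable s) (C : ℝ≥0)
    (ws : List ℝ) (H : ∀ h t : ℝ → ℂ, IsHT h t → Supp ws h →
      eLpNorm (fun x => h x * s x) q μ ≠ ⊤ →
      eLpNorm (fun x => t x * s x) q μ ≤ C * eLpNorm (fun x => h x * s x) q μ) :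
    ∀ h t : ℝ → ℂ, IsHT h t → eLpNorm (fun x => h x * s x) q μ ≠ ⊤ →
      eLpNorm (fun x => t x * s x) q μ ≤ C * eLpNorm (fun x => h x * s x) q μ := by
  induction ws with
  | nil => exact fun h t hht hN => H h t hht (fun _ hw => absurd hw List.not_mem_nil) hN
  | cons w ws ih =>
    refine ih fun h t hht hS hN => ?_
    obtain ⟨G, hG, hlim, -⟩ := bCUT h t w hht
    have hle : ∀ n, eLpNorm (fun x => (cutA w n).indicator h x * s x) q μ ≤
        eLpNorm (fun x => h x * s x) q μ := fun n => by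
      refine eLpNorm_mono fun x => ?_
      by_cases hx : x ∈ cutA w n
      · rw [Set.indicator_of_mem hx]
      · rw [Set.indicator_of_notMem hx, zero_mul, norm_zero]
        exact norm_nonneg _
    have hS' : ∀ n, Supp (w :: ws) ((cutA w n).indicator h) := fun n w' hw' => by
      rcases List.mem_cons.1 hw' with rfl | hw'
      · exact ⟨n, fun y hy => Set.indicator_of_notMem hy _⟩
      · obtain ⟨n', hn'⟩ := hS w' hw'
        refine ⟨n', fun y hy => ?_⟩
        by_cases hx : y ∈ cutA w n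
        · rw [Set.indicator_of_mem hx, hn' y hy]
        · exact Set.indicator_of_notMem hx _
    have h1 : ∀ n, eLpNorm (fun x => G n x * s x) q μ ≤ C * eLpNorm (fun x => h x * s x) q μ :=
      fun n => (H _ _ (hG n) (hS' n)
        (ne_top_of_le_ne_top hN (hle n))).trans (mul_le_mul_right (hle n) _)
    have h2 : eLpNorm (fun x => t x * s x) q μ ≤
        atTop.liminf fun n => eLpNorm (fun x => G n x * s x) q μ := by
      refine Lp.eLpNorm_lim_le_liminf_eLpNorm (f := fun n x => G n x * s x)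
        (fun n => ((bMEAS _ _ (hG n)).mono_ac c.ac).mul hs.aestronglyMeasurable) _ ?_
      filter_upwards [c.ac.ae_le hlim] with x hx
      exact hx.mul_const _
    exact h2.trans (liminf_le_of_frequently_le' (Frequently.of_forall h1))

theorem mulI {ws : List ℝ} (h0 : (0 : ℝ) ∈ ws) {h : ℝ → ℂ} (hh : ∃ t, IsHT h t) (hS : Supp ws h)
    (k : ℕ) : ∃ t, IsHT (fun y : ℝ => h y * ((y : ℂ) - Complex.I) ^ k) t := by
  induction k with
  | zero =>
    have e : (fun y : ℝ => h y * ((y : ℂ) - Complex.I) ^ 0) = h := by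
      funext y
      rw [pow_zero, mul_one]
    rw [e]
    exact hh
  | succ k ih =>
    obtain ⟨t, ht⟩ := ih
    obtain ⟨n, hn⟩ := hS.mul (fun y : ℝ => ((y : ℂ) - Complex.I) ^ k) 0 h0
    have hs : Measurable fun x : ℝ => (x : ℂ) - Complex.I := by fun_prop
    have hi := EXT.int_of_cut ht.1 hs hn ((n : ℝ) + 2) (fun y hy => by
      have h1 : |y - 0| < (n : ℝ) + 1 := hy.2
      have h3 := norm_sub_le (y : ℂ) Complex.I
      rw [Complex.norm_real, Complex.norm_I, Real.norm_eq_abs] at h3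
      rw [sub_zero] at h1
      linarith)
    have e : (fun y : ℝ => h y * ((y : ℂ) - Complex.I) ^ (k + 1)) =
        fun y : ℝ => h y * ((y : ℂ) - Complex.I) ^ k * ((y : ℂ) - Complex.I) := by
      funext y
      rw [pow_succ, mul_assoc]
    rw [e]
    exact ⟨_, bID2 _ t Complex.I ht hi⟩

theorem mulP {ws : List ℝ} (d : ℕ) : ∀ (P : ℂ[X]) (h : ℝ → ℂ), P.natDegree = d → P ≠ 0 →
    (∀ z, P.IsRoot z → z.re ∈ ws) → (∃ t, IsHT h t) → Supp ws h →
    ∃ t, IsHT (fun y : ℝ => h y * (P.eval (y : ℂ))⁻¹) t := by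
  induction d with
  | zero =>
    rintro P h hd - - ⟨t, ht⟩ -
    have e : (fun y : ℝ => h y * (P.eval (y : ℂ))⁻¹) =
        fun y : ℝ => (P.coeff 0)⁻¹ * h y + 0 * h y := by
      funext y
      conv_lhs => rw [eq_C_of_natDegree_eq_zero hd, eval_C]
      ring
    rw [e]
    exact ⟨_, bLIN h t h t _ _ ht ht⟩
  | succ d ih =>
    rintro P h hd hP hr ⟨t, ht⟩ hS
    obtain ⟨z, hz⟩ := Complex.exists_root (f := P)
      (natDegree_pos_iff_degree_pos.1 (by omega))
    obtain ⟨P', hP'⟩ := dvd_iff_isRoot.2 hz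
    have hP0 : P' ≠ 0 := by
      rintro rfl
      exact hP (by rw [hP', mul_zero])
    have hd' : P'.natDegree = d := by
      rw [hP', natDegree_mul (X_sub_C_ne_zero z) hP0, natDegree_X_sub_C] at hd
      omega
    obtain ⟨n, hn⟩ := hS z.re (hr z hz)
    have hi := EXT.int_of_cut ht.1 (mz_meas z) hn _ (EXT.mz_cut z n)
    have e : (fun y : ℝ => h y * (P.eval (y : ℂ))⁻¹) =
        fun y : ℝ => h y * mz z y * (P'.eval (y : ℂ))⁻¹ := by
      funext y
      rw [hP', eval_mul, eval_sub, eval_X, eval_C, mul_inv, mul_assoc]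
      rfl
    rw [e]
    refine ih P' _ hd' hP0 (fun u hu => hr u ?_) ⟨_, bID1 h t z ht hi⟩ (hS.mul _)
    exact hu.dvd ⟨X - C z, by rw [hP', mul_comm]⟩

end S4

theorem fS4 : St_S4 := by
  rintro μ q c k P hP ⟨C, hC⟩
  have hs : Measurable fun x : ℝ => ((x : ℂ) - Complex.I) ^ k * (P.eval (x : ℂ))⁻¹ := by
    have h1 : Continuous fun x : ℝ => P.eval (x : ℂ) :=
      P.continuous.comp Complex.continuous_ofReal
    exact Measurable.mul (by fun_prop) h1.measurable.inv
  have hr : ∀ z, P.IsRoot z → z.re ∈ (0 : ℝ) :: P.roots.toList.map Complex.re := fun z hz =>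
    List.mem_cons_of_mem _ (List.mem_map_of_mem (Multiset.mem_toList.2 ((mem_roots hP).2 hz)))
  have einv : ∀ x : ℝ, (P.eval (x : ℂ) * mz Complex.I x ^ k)⁻¹ =
      ((x : ℂ) - Complex.I) ^ k * (P.eval (x : ℂ))⁻¹ := fun x => by
    unfold mz
    rw [mul_inv_rev, inv_pow, inv_inv]
  refine ⟨C, S4.cuts c _ hs C ((0 : ℝ) :: P.roots.toList.map Complex.re)
    fun h t hht hS hN => ?_⟩
  obtain ⟨t0, ht0⟩ := S4.mulP _ P _ rfl hP hr
    (S4.mulI List.mem_cons_self ⟨t, hht⟩ hS k) (hS.mul _)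
  have e0 : (fun y : ℝ => h y * ((y : ℂ) - Complex.I) ^ k * (P.eval (y : ℂ))⁻¹) =
      fun y : ℝ => h y * (((y : ℂ) - Complex.I) ^ k * (P.eval (y : ℂ))⁻¹) := by
    funext y
    rw [mul_assoc]
  rw [e0] at ht0
  have e1 : (fun y : ℝ => h y * (((y : ℂ) - Complex.I) ^ k * (P.eval (y : ℂ))⁻¹) *
      (P.eval (y : ℂ) * mz Complex.I y ^ k)) = h := by
    funext y
    by_cases hy : P.eval (y : ℂ) = 0
    · obtain ⟨n, hn⟩ := hS _ (hr _ hy)
      have h0 : h y = 0 := hn y fun hc => EXT.ne_cut (y : ℂ) n y hc (sub_self _)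
      rw [h0, zero_mul, zero_mul]
    · have hm : mz Complex.I y ≠ 0 := inv_ne_zero (EXT.ne_I y)
      rw [← einv, mul_assoc, inv_mul_cancel₀ (mul_ne_zero hy (pow_ne_zero _ hm)), mul_one]
  have key := hC _ t0 t ht0 hN (by rw [e1]; exact hht)
  have e2 : (fun x : ℝ => t x * (P.eval (x : ℂ) * mz Complex.I x ^ k)⁻¹) =
      fun x : ℝ => t x * (((x : ℂ) - Complex.I) ^ k * (P.eval (x : ℂ))⁻¹) := by
    funext x
    rw [einv]
  rw [← e2]
  exact key

end Pool.Agent.Lib.HF26
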