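import Pool.Agent.Lib.HF26.Blue2
import Pool.Agent.Lib.HF26.F_G0

/-! From a family of functionals to a given family. -/

open MeasureTheory Filter Topology
open scoped ENNReal NNReal

namespace Pool.Agent.Lib.HF26

open Pool.Agent.Lib.HT26

namespace SWAP

theorem int_red {f ψ : ℝ → ℂ} {n : ℕ} {φ : Fin n → ℝ → ℂ} (hψ : BM ψ) (hφ : ∀ j, BM (φ j))
    (hf : Integrable f) (c : Fin n → ℂ) (h0 : ∀ l, ∫ y, f y * φ l y = 0) :
    ∫ y, f y * (ψ y - ∑ l, c l * φ l y) = ∫ y, f y * ψ y := by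
  have e : (fun y => f y * (ψ y - ∑ l, c l * φ l y)) =
      fun y => f y * ψ y - ∑ l, c l * (f y * φ l y) := by
    funext y
    rw [mul_sub, Finset.mul_sum]
    exact congrArg (fun w => f y * ψ y - w) (Finset.sum_congr rfl fun l _ => by ring)
  have hi : ∀ l ∈ (Finset.univ : Finset (Fin n)), Integrable (fun y => c l * (f y * φ l y)) :=
    fun l _ => ((hφ l).int hf).const_mul _
  rw [e, integral_sub (hψ.int hf) (integrable_finset_sum _ hi), integral_finset_sum _ hi]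
  have : ∑ l, ∫ y, c l * (f y * φ l y) = 0 :=
    Finset.sum_eq_zero fun l _ => by rw [integral_const_mul, h0 l, mul_zero]
  rw [this, sub_zero]

end SWAP

theorem fSWAP (hXS : St_XS) (hFRC : St_FRC) : St_SWAP := by
  intro μ q hc n n' φ ψ g hφ hψ hg hR hfin hB
  obtain ⟨C, hC⟩ := hR
  obtain ⟨X, T, MX, hX, hT, -, -, -, hSN, hev⟩ := hXS μ q hc
  choose a ha using fun j => hev (φ j) (hφ j)
  choose b hb using fun j => hev (ψ j) (hψ j)
  choose c Kc hKc using hB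
  obtain ⟨K, hK⟩ : ∃ K : Submodule ℂ X, ∀ x, x ∈ K ↔ ∀ l, a l x = 0 :=
    ⟨⨅ l, LinearMap.ker (a l), fun x => by simp [Submodule.mem_iInf]⟩
  obtain ⟨y, hy⟩ : ∃ y : Fin n' → YY μ, ∀ j, ∀ᵐ x ∂μ, (y j : ℝ → ℂ) x = g j x :=
    ⟨fun j => AEEqFun.mk (g j) (hg j), fun j => AEEqFun.coeFn_mk _ _⟩
  obtain ⟨G, hG⟩ : ∃ G : K →ₗ[ℂ] YY μ, ∀ x : K, G x = ∑ j, b j (x : X) • y j :=
    ⟨(∑ j, (b j).smulRight (y j)) ∘ₗ K.subtype, fun x => by
      rw [LinearMap.comp_apply, LinearMap.sum_apply]; rfl⟩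
  have hSN' : SN (fun x : K => eLpNorm ((x : X) : ℝ → ℂ) q μ) :=
    ⟨fun x => hSN.fin x, fun x z => hSN.add x z, fun d x => hSN.smul d x⟩
  have hfd : FiniteDimensional ℂ (LinearMap.range G) := by
    haveI : FiniteDimensional ℂ (Submodule.span ℂ (Set.range y)) :=
      FiniteDimensional.span_of_finite ℂ (Set.finite_range y)
    refine Submodule.finiteDimensional_of_le (S₂ := Submodule.span ℂ (Set.range y)) ?_
    rintro _ ⟨x, rfl⟩
    rw [hG]
    exact Submodule.sum_mem _ fun j _ =>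
      Submodule.smul_mem _ _ (Submodule.subset_span ⟨j, rfl⟩)
  have hz : ∀ x : K, ∀ l, ∫ w, ((x : X) : ℝ → ℂ) w * φ l w = 0 :=
    fun x l => (ha l x).symm.trans ((hK x).1 x.2 l)
  have hNY : ∀ x : K, NY μ q (G x) =
      eLpNorm (fun z => ∑ j, (∫ w, ((x : X) : ℝ → ℂ) w * ψ j w) * g j z) q μ := by
    intro x
    rw [hG]
    refine eLpNorm_congr_ae ?_
    filter_upwards [G0.coe_sum Finset.univ (fun j => b j (x : X)) y, ae_all_iff.2 hy] with z h1 h2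
    rw [h1]
    exact Finset.sum_congr rfl fun j _ => by rw [hb, h2]
  have hbb : ∀ j (x : K), ‖b j (x : X)‖ₑ ≤ Kc j * eLpNorm ((x : X) : ℝ → ℂ) q μ := by
    intro j x
    obtain ⟨⟨t, ht⟩, hf⟩ := (hX (x : X)).1 (x : X).2
    have h := hKc j _ t ht hf
    rw [SWAP.int_red (hψ j) hφ ht.1 (c j) (hz x)] at h
    rw [hb]
    exact h
  have hBF : ∀ l : YY μ →ₗ[ℂ] ℂ,
      BF (fun x : K => eLpNorm ((x : X) : ℝ → ℂ) q μ) (l ∘ₗ G) := by
    intro l
    refine ⟨∑ j, ‖l (y j)‖₊ * Kc j, fun x => ?_⟩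
    rw [LinearMap.comp_apply, hG, map_sum, ENNReal.ofNNReal_finsetSum, Finset.sum_mul]
    refine (enorm_sum_le _ _).trans (Finset.sum_le_sum fun j _ => ?_)
    rw [map_smul, smul_eq_mul, enorm_mul, ENNReal.coe_mul, mul_comm, mul_assoc]
    exact mul_le_mul_right (hbb j x) _
  have hne : ∀ x : K, NY μ q (G x) ≠ ⊤ := by
    intro x
    obtain ⟨⟨t, ht⟩, hf⟩ := (hX (x : X)).1 (x : X).2
    rw [hNY]
    exact hfin _ t ht hf (hz x)
  obtain ⟨D, hD⟩ := hFRC μ q hc.one K _ hSN' G hfd hne hBF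
  refine ⟨C + D, fun f t hft hf h0 => ?_⟩
  have hm : f ∈ X := (hX f).2 ⟨⟨t, hft⟩, hf⟩
  have hk : (⟨f, hm⟩ : X) ∈ K := (hK _).2 fun l => (ha l ⟨f, hm⟩).trans (h0 l)
  have h1 := hD ⟨⟨f, hm⟩, hk⟩
  rw [hNY] at h1
  have h2 := hC f t hft hf
  have mt : AEStronglyMeasurable t μ :=
    (T ⟨f, hm⟩).aestronglyMeasurable.congr (hT ⟨f, hm⟩ t hft)
  have ms : AEStronglyMeasurable (fun z => ∑ j, (∫ w, f w * ψ j w) * g j z) μ :=
    Finset.aestronglyMeasurable_fun_sum _ fun j _ => (hg j).const_mul _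
  have h3 := eLpNorm_add_le (mt.sub ms) ms hc.one
  rw [sub_add_cancel] at h3
  rw [ENNReal.coe_add, add_mul]
  exact h3.trans (add_le_add h2 h1)

end Pool.Agent.Lib.HF26
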