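import Pool.Agent.Lib.HF26.Blue

/-! Row SYL1: the homogeneous Sylvester equation. -/

namespace Pool.Agent.Lib.HF26

namespace SYL1

variable {A B ι : Type} [AddCommGroup A] [Module ℂ A] [AddCommGroup B] [Module ℂ B] [Fintype ι]

/-- contraction of a finite tensor with a functional -/
def ctr (a : ι → A) (b : ι → B) : (B →ₗ[ℂ] ℂ) →ₗ[ℂ] A where
  toFun l := ∑ j, l (b j) • a j
  map_add' l l' := by
    simp only [LinearMap.add_apply, add_smul, Finset.sum_add_distrib]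
  map_smul' c l := by
    simp only [LinearMap.smul_apply, smul_eq_mul, mul_smul, RingHom.id_apply, Finset.smul_sum]

lemma ctr_apply (a : ι → A) (b : ι → B) (l : B →ₗ[ℂ] ℂ) : ctr a b l = ∑ j, l (b j) • a j := rfl

lemma pair (a : ι → A) (b : ι → B) (l : B →ₗ[ℂ] ℂ) (t : A →ₗ[ℂ] ℂ) :
    t (ctr a b l) = l (ctr b a t) := by
  simp only [ctr_apply, map_sum, map_smul, smul_eq_mul]
  exact Finset.sum_congr rfl fun j _ => mul_comm _ _

lemma range_le (a : ι → A) (b : ι → B) :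
    LinearMap.range (ctr a b) ≤ Submodule.span ℂ (Set.range a) := by
  rintro _ ⟨l, rfl⟩
  rw [ctr_apply]
  exact Submodule.sum_mem _ fun j _ => Submodule.smul_mem _ _ (Submodule.subset_span ⟨j, rfl⟩)

lemma fin_range (a : ι → A) (b : ι → B) : FiniteDimensional ℂ (LinearMap.range (ctr a b)) := by
  have := FiniteDimensional.span_of_finite ℂ (Set.finite_range a)
  exact Submodule.finiteDimensional_of_le (range_le a b)

/-- the transposed equation -/
lemma dual_eq (MA : A →ₗ[ℂ] A) (MB : B →ₗ[ℂ] B) (a : ι → A) (b : ι → B) (a0 : A) (b0 : B)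
    (h : ∀ l : B →ₗ[ℂ] ℂ, MA (ctr a b l) - ctr a b (l ∘ₗ MB) = l b0 • a0) (t : A →ₗ[ℂ] ℂ) :
    MB (ctr b a t) = ctr b a (t ∘ₗ MA) - t a0 • b0 := by
  rw [← sub_eq_zero, ← Module.forall_dual_apply_eq_zero_iff ℂ]
  intro l
  have h1 := congrArg t (h l)
  rw [map_sub, map_smul, smul_eq_mul] at h1
  have h2 : l (MB (ctr b a t)) = t (ctr a b (l ∘ₗ MB)) := (pair a b (l ∘ₗ MB) t).symm
  have h3 : l (ctr b a (t ∘ₗ MA)) = t (MA (ctr a b l)) := (pair a b l (t ∘ₗ MA)).symm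
  rw [map_sub, map_sub, map_smul, smul_eq_mul, h2, h3]
  linear_combination -h1

/-- no eigenvector: no invariant subspace of finite dimension -/
lemma inv_bot (MB : B →ₗ[ℂ] B) (hB : ∀ (c : ℂ) y, MB y = c • y → y = 0) (W : Submodule ℂ B)
    (hf : FiniteDimensional ℂ W) (hW : ∀ y ∈ W, MB y ∈ W) : W = ⊥ := by
  by_contra hne
  have : Nontrivial W := Submodule.nontrivial_iff_ne_bot.2 hne
  obtain ⟨c, hc⟩ := Module.End.exists_eigenvalue (MB.restrict hW)
  obtain ⟨y, hy⟩ := hc.exists_hasEigenvector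
  have h1 := congrArg Subtype.val hy.apply_eq_smul
  exact hy.2 (Subtype.ext (hB c y.1 h1))

lemma ctr_eq_zero (a : ι → A) (b : ι → B) (l : B →ₗ[ℂ] ℂ)
    (h : ∀ t : A →ₗ[ℂ] ℂ, l (ctr b a t) = 0) : ctr a b l = 0 := by
  rw [← Module.forall_dual_apply_eq_zero_iff ℂ]
  intro t
  rw [pair, h]

end SYL1

theorem fSYL1 : St_SYL1 := by
  intro A B _ _ _ _ MA MB hB ι _ a b h l
  have h0 : ∀ l : B →ₗ[ℂ] ℂ,
      MA (SYL1.ctr a b l) - SYL1.ctr a b (l ∘ₗ MB) = l (0 : B) • (0 : A) := by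
    intro l
    rw [smul_zero, sub_eq_zero]
    exact h l
  have hbot : LinearMap.range (SYL1.ctr b a) = ⊥ := by
    refine SYL1.inv_bot MB hB _ (SYL1.fin_range b a) ?_
    rintro _ ⟨t, rfl⟩
    rw [SYL1.dual_eq MA MB a b 0 0 h0 t, smul_zero, sub_zero]
    exact ⟨_, rfl⟩
  refine SYL1.ctr_eq_zero a b l fun t => ?_
  rw [LinearMap.range_eq_bot.1 hbot, LinearMap.zero_apply, map_zero]

end Pool.Agent.Lib.HF26
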