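import Pool.Agent.Lib.HF26.F_SYL1

/-! Row SYL2: the Sylvester equation with a rank one right side. -/

namespace Pool.Agent.Lib.HF26

theorem fSYL2 : St_SYL2 := by
  intro A B _ _ _ _ MA MB hB n a b a0 b0 hb0 h
  have h0 : ∀ l : B →ₗ[ℂ] ℂ,
      MA (SYL1.ctr a b l) - SYL1.ctr a b (l ∘ₗ MB) = l b0 • a0 := fun l => h l
  have hnot : b0 ∉ LinearMap.range (SYL1.ctr b a) := by
    intro hm
    have hbot : LinearMap.range (SYL1.ctr b a) = ⊥ := by
      refine SYL1.inv_bot MB hB _ (SYL1.fin_range b a) ?_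
      rintro _ ⟨t, rfl⟩
      rw [SYL1.dual_eq MA MB a b a0 b0 h0 t]
      exact Submodule.sub_mem _ ⟨_, rfl⟩ (Submodule.smul_mem _ _ hm)
    rw [hbot] at hm
    exact hb0 ((Submodule.mem_bot ℂ).1 hm)
  obtain ⟨l0, hl0, hker⟩ := Submodule.exists_dual_map_eq_bot_of_notMem hnot inferInstance
  have hv : SYL1.ctr a b l0 = 0 := by
    refine SYL1.ctr_eq_zero a b l0 fun t => ?_
    have hm : l0 (SYL1.ctr b a t) ∈ (LinearMap.range (SYL1.ctr b a)).map l0 :=
      Submodule.mem_map_of_mem ⟨t, rfl⟩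
    rw [hker] at hm
    exact (Submodule.mem_bot ℂ).1 hm
  have ha0 : a0 ∈ LinearMap.range (SYL1.ctr a b) := by
    have h1 := h0 l0
    rw [hv, map_zero, zero_sub] at h1
    have h2 : l0 b0 • a0 ∈ LinearMap.range (SYL1.ctr a b) := by
      rw [← h1]
      exact Submodule.neg_mem _ ⟨_, rfl⟩
    exact (Submodule.smul_mem_iff _ hl0).1 h2
  refine ⟨LinearMap.range (SYL1.ctr a b), SYL1.fin_range a b, ?_, ha0, ?_, fun v => ?_⟩
  · have := FiniteDimensional.span_of_finite ℂ (Set.finite_range a)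
    refine (Submodule.finrank_mono (SYL1.range_le a b)).trans ?_
    exact (finrank_range_le_card a).trans (Fintype.card_fin n).le
  · rintro _ ⟨l, rfl⟩
    rw [sub_eq_iff_eq_add.1 (h0 l)]
    exact Submodule.add_mem _ (Submodule.smul_mem _ _ ha0) ⟨_, rfl⟩
  · exact ⟨fun ⟨l, hl⟩ => ⟨l, hl.symm⟩, fun ⟨l, hl⟩ => ⟨l, hl.symm⟩⟩

end Pool.Agent.Lib.HF26
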