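import Mathlib
import Pool.Agent.Lib.HF26.Blue
import Pool.Agent.Lib.HT26.B_LIN
import Pool.Agent.Lib.HT26.B_MEAS
import Pool.Agent.Lib.HT26.B_ID1

open MeasureTheory Filter Topology Polynomial
open scoped ENNReal NNReal

namespace Pool.Agent.Lib.HF26

open Pool.Agent.Lib.HT26

namespace XS

theorem uniq {f t t' : ℝ → ℂ} (h : IsHT f t) (h' : IsHT f t') : ∀ᵐ x : ℝ, t x = t' x := by
  filter_upwards [h.2, h'.2] with x h1 h2
  exact tendsto_nhds_unique h1 h2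

theorem ht_zero : IsHT (0 : ℝ → ℂ) 0 := by
  refine ⟨integrable_zero _ _ _, Eventually.of_forall fun x => ?_⟩
  have e : trunc (0 : ℝ → ℂ) x = fun _ => 0 := by
    funext δ
    simp [trunc]
  rw [e]
  exact tendsto_const_nhds

theorem ht_add {f t f' t' : ℝ → ℂ} (h : IsHT f t) (h' : IsHT f' t') :
    IsHT (f + f') (t + t') := by
  have h1 := bLIN f t f' t' 1 1 h h'
  have e1 : (fun y => 1 * f y + 1 * f' y) = f + f' := by
    funext y
    rw [one_mul, one_mul, Pi.add_apply]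
  have e2 : (fun y => 1 * t y + 1 * t' y) = t + t' := by
    funext y
    rw [one_mul, one_mul, Pi.add_apply]
  rw [e1, e2] at h1
  exact h1

theorem ht_smul {f t : ℝ → ℂ} (c : ℂ) (h : IsHT f t) : IsHT (c • f) (c • t) := by
  have h1 := bLIN f t f t c 0 h h
  have e1 : (fun y => c * f y + 0 * f y) = c • f := by
    funext y
    rw [zero_mul, add_zero, Pi.smul_apply, smul_eq_mul]
  have e2 : (fun y => c * t y + 0 * t y) = c • t := by
    funext y
    rw [zero_mul, add_zero, Pi.smul_apply, smul_eq_mul]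
  rw [e1, e2] at h1
  exact h1

theorem I_im : (Complex.I).im ≠ 0 := by
  rw [Complex.I_im]
  exact one_ne_zero

theorem N_m (μ : Measure ℝ) (q : ℝ≥0∞) (f : ℝ → ℂ) :
    eLpNorm (fun x => f x * mz Complex.I x) q μ ≤ eLpNorm f q μ := by
  have h := N_mz (μ := μ) (q := q) I_im f
  rw [Complex.I_im, abs_one, inv_one, ENNReal.ofReal_one, one_mul] at h
  exact h

theorem meas {μ : Measure ℝ} {q : ℝ≥0∞} (hc : Ctx μ q) {f t : ℝ → ℂ} (h : IsHT f t) :
    AEStronglyMeasurable f μ :=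
  h.1.aestronglyMeasurable.mono_ac hc.ac

/-- the space of admissible functions -/
def XX {μ : Measure ℝ} {q : ℝ≥0∞} (hc : Ctx μ q) : Submodule ℂ (ℝ → ℂ) where
  carrier := {f | (∃ t, IsHT f t) ∧ eLpNorm f q μ ≠ ⊤}
  add_mem' := by
    rintro f g ⟨⟨t, ht⟩, hf⟩ ⟨⟨s, hs⟩, hg⟩
    refine ⟨⟨t + s, ht_add ht hs⟩, ?_⟩
    exact ne_top_of_le_ne_top (ENNReal.add_ne_top.mpr ⟨hf, hg⟩)
      (eLpNorm_add_le (meas hc ht) (meas hc hs) hc.one)
  zero_mem' := ⟨⟨0, ht_zero⟩, by rw [eLpNorm_zero]; exact ENNReal.zero_ne_top⟩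
  smul_mem' := by
    rintro c f ⟨⟨t, ht⟩, hf⟩
    refine ⟨⟨c • t, ht_smul c ht⟩, ?_⟩
    rw [eLpNorm_const_smul]
    exact ENNReal.mul_ne_top enorm_ne_top hf

/-- a chosen transform -/
noncomputable def tr {μ : Measure ℝ} {q : ℝ≥0∞} (hc : Ctx μ q) (f : XX hc) : ℝ → ℂ :=
  Classical.choose f.2.1

theorem tr_spec {μ : Measure ℝ} {q : ℝ≥0∞} (hc : Ctx μ q) (f : XX hc) :
    IsHT (f : ℝ → ℂ) (tr hc f) :=
  Classical.choose_spec f.2.1

theorem tr_meas {μ : Measure ℝ} {q : ℝ≥0∞} (hc : Ctx μ q) (f : XX hc) :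
    AEStronglyMeasurable (tr hc f) μ :=
  (bMEAS _ _ (tr_spec hc f)).mono_ac hc.ac

/-- the transform as a linear map -/
noncomputable def TT {μ : Measure ℝ} {q : ℝ≥0∞} (hc : Ctx μ q) : XX hc →ₗ[ℂ] YY μ where
  toFun f := AEEqFun.mk (tr hc f) (tr_meas hc f)
  map_add' f g := by
    rw [AEEqFun.mk_add_mk, AEEqFun.mk_eq_mk]
    exact hc.ac.ae_le (uniq (tr_spec hc (f + g)) (ht_add (tr_spec hc f) (tr_spec hc g)))
  map_smul' c f := by
    rw [RingHom.id_apply, AEEqFun.smul_mk, AEEqFun.mk_eq_mk]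
    exact hc.ac.ae_le (uniq (tr_spec hc (c • f)) (ht_smul c (tr_spec hc f)))

theorem TT_coe {μ : Measure ℝ} {q : ℝ≥0∞} (hc : Ctx μ q) (f : XX hc) (t : ℝ → ℂ)
    (ht : IsHT (f : ℝ → ℂ) t) : ∀ᵐ x ∂μ, (TT hc f : ℝ → ℂ) x = t x := by
  have h1 : ∀ᵐ x ∂μ, (TT hc f : ℝ → ℂ) x = tr hc f x := AEEqFun.coeFn_mk _ _
  have h2 : ∀ᵐ x ∂μ, tr hc f x = t x := hc.ac.ae_le (uniq (tr_spec hc f) ht)
  filter_upwards [h1, h2] with x e1 e2
  exact e1.trans e2

/-- multiplication by `1/(x-i)` -/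
noncomputable def MM {μ : Measure ℝ} {q : ℝ≥0∞} (hc : Ctx μ q) : XX hc →ₗ[ℂ] XX hc where
  toFun f := ⟨fun y => (f : ℝ → ℂ) y * mz Complex.I y,
    ⟨_, bID1 _ _ Complex.I (tr_spec hc f) ((mz_BM I_im).int (tr_spec hc f).1)⟩,
    ne_top_of_le_ne_top f.2.2 (N_m μ q _)⟩
  map_add' f g := by
    apply Subtype.ext
    funext y
    exact add_mul _ _ _
  map_smul' c f := by
    apply Subtype.ext
    funext y
    exact mul_assoc _ _ _

theorem MM_coe {μ : Measure ℝ} {q : ℝ≥0∞} (hc : Ctx μ q) (f : XX hc) (y : ℝ) :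
    (MM hc f : ℝ → ℂ) y = (f : ℝ → ℂ) y * mz Complex.I y := rfl

theorem MM_pow {μ : Measure ℝ} {q : ℝ≥0∞} (hc : Ctx μ q) (n : ℕ) (f : XX hc) (y : ℝ) :
    ((MM hc ^ n) f : ℝ → ℂ) y = (f : ℝ → ℂ) y * mz Complex.I y ^ n := by
  induction n with
  | zero => rw [pow_zero, pow_zero, Module.End.one_apply, mul_one]
  | succ n ih => rw [pow_succ', Module.End.mul_apply, MM_coe, ih, pow_succ, mul_assoc]

theorem MM_aeval {μ : Measure ℝ} {q : ℝ≥0∞} (hc : Ctx μ q) (Q : ℂ[X]) (f : XX hc) (y : ℝ) :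
    (aeval (MM hc) Q f : ℝ → ℂ) y = (f : ℝ → ℂ) y * Q.eval (mz Complex.I y) := by
  induction Q using Polynomial.induction_on' with
  | add p r hp hr =>
    rw [map_add, LinearMap.add_apply, Submodule.coe_add, Pi.add_apply, hp, hr, eval_add, mul_add]
  | monomial n c =>
    rw [aeval_monomial, Module.End.mul_apply, Module.algebraMap_end_apply, Submodule.coe_smul,
      Pi.smul_apply, MM_pow, eval_monomial, smul_eq_mul]
    ring

theorem sn {μ : Measure ℝ} {q : ℝ≥0∞} (hc : Ctx μ q) :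
    SN (fun f : XX hc => eLpNorm (f : ℝ → ℂ) q μ) where
  fin f := f.2.2
  add f g := eLpNorm_add_le (meas hc (tr_spec hc f)) (meas hc (tr_spec hc g)) hc.one
  smul c f := eLpNorm_const_smul c (f : ℝ → ℂ) q μ

/-- the functional of a bounded function -/
noncomputable def ev {μ : Measure ℝ} {q : ℝ≥0∞} (hc : Ctx μ q) {χ : ℝ → ℂ} (hχ : BM χ) :
    XX hc →ₗ[ℂ] ℂ where
  toFun f := ∫ y, (f : ℝ → ℂ) y * χ y
  map_add' f g := by
    rw [← integral_add (hχ.int (tr_spec hc f).1) (hχ.int (tr_spec hc g).1)]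
    refine integral_congr_ae (Eventually.of_forall fun y => ?_)
    exact add_mul _ _ _
  map_smul' c f := by
    rw [RingHom.id_apply, smul_eq_mul, ← integral_const_mul]
    refine integral_congr_ae (Eventually.of_forall fun y => ?_)
    exact mul_assoc _ _ _

end XS

theorem fXS : St_XS := by
  intro μ q hc
  exact ⟨XS.XX hc, XS.TT hc, XS.MM hc, fun _ => Iff.rfl, XS.TT_coe hc, XS.MM_aeval hc,
    XS.MM_coe hc, fun f => XS.N_m μ q _, XS.sn hc, fun _ hχ => ⟨XS.ev hc hχ, fun _ => rfl⟩⟩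

end Pool.Agent.Lib.HF26
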